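import Pool.Agent.D0H14.BC.In2
import Pool.Agent.N892.BW.PLZ

/-! Assembly. -/

set_option autoImplicit false

open MeasureTheory Set Filter Topology
open scoped SchwartzMap ContDiff ENNReal

namespace Pool.Agent.D0H14.BC

open Pool.Agent.Y282.RB (Tn)

theorem rep (hTR : S_TR) (n : ℕ) (m : ℤ) (hn : 1 ≤ n) (hm : m ≠ 2 * n) : ∃ (κ : ℝ → ℝ) (ε : ℝ),
    Continuous κ ∧ IntegrableOn κ (Ioi 0) ∧ 1 + ∫ y in Ioi (0 : ℝ), |κ y| ≤ Real.exp (hh n) ∧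
    ∀ f : 𝓢(ℂ, ℂ), Cl m f → Ann f → ∀ t : ℝ, 0 < t → Tn n f ((√t : ℝ) : ℂ) = W κ ε (rd f) t := by
  rcases lt_or_ge m (n : ℤ) with h | h
  · obtain ⟨κ, h1, h2, h3, h4⟩ := inn hTR n m hn h
    exact ⟨κ, -2, h1, h2, h3, h4⟩
  · obtain ⟨m', rfl⟩ : ∃ m' : ℕ, m = (m' : ℤ) := ⟨m.toNat, by omega⟩
    obtain ⟨κ, h1, h2, h3, h4⟩ := outA n m' hn (by omega) (by omega)
    exact ⟨κ, 2, h1, h2, h3, fun f hf hA t ht => to_t (h4 f hf hA).2 ht⟩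

theorem W_congr {κ : ℝ → ℝ} {ε : ℝ} {A G : ℝ → ℂ} (h : ∀ t, 0 < t → A t = G t) {t : ℝ} (ht : 0 < t) :
    W κ ε A t = W κ ε G t := by
  unfold W
  rw [h t ht]
  congr 1
  refine setIntegral_congr_fun measurableSet_Ioi fun y _ => ?_
  rw [h _ (mul_pos ht (Real.exp_pos _))]

theorem pol_T (hPOL : S_POL) {n : ℕ} {m : ℤ} {κ : ℝ → ℝ} {ε : ℝ}
    (hr : ∀ f : 𝓢(ℂ, ℂ), Cl m f → Ann f → ∀ t : ℝ, 0 < t → Tn n f ((√t : ℝ) : ℂ) = W κ ε (rd f) t)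
    {p : ℝ} (hp : 0 < p) {f : 𝓢(ℂ, ℂ)} (hf : Cl m f) (hA : Ann f) :
    ∫⁻ z, ‖Tn n f z‖ₑ ^ p = ENNReal.ofReal Real.pi * ∫⁻ t in Ioi (0 : ℝ), ‖W κ ε (rd f) t‖ₑ ^ p := by
  rw [hPOL p hp (Tn n f) (Tn_cont n f).measurable fun z => cl_norm (Tn_class n hf) z]
  congr 1
  refine setLIntegral_congr_fun measurableSet_Ioi fun t ht => ?_
  rw [hr f hf hA t ht]

theorem pol_f (hPOL : S_POL) {m : ℤ} {p : ℝ} (hp : 0 < p) {f : 𝓢(ℂ, ℂ)} (hf : Cl m f) :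
    ∫⁻ z, ‖f z‖ₑ ^ p = ENNReal.ofReal Real.pi * ∫⁻ t in Ioi (0 : ℝ), ‖rd f t‖ₑ ^ p :=
  hPOL p hp f f.continuous.measurable fun z => cl_norm hf z

theorem modes_ann (hTR : S_TR) (hPOL : S_POL) (hINT : S_INT) (n : ℕ) (m : ℤ) (hn : 1 ≤ n)
    (hm : m ≠ 2 * n) (p : ℝ) (hp : 2 ≤ p) (f : 𝓢(ℂ, ℂ)) (hf : Cl m f) (hA : Ann f) :
    eLpNorm (Tn n f) (ENNReal.ofReal p) (volume : Measure ℂ)
      ≤ ENNReal.ofReal (Real.exp ((1 - 2 / p) * hh n)) *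
        eLpNorm (⇑f) (ENNReal.ofReal p) (volume : Measure ℂ) := by
  obtain ⟨κ, ε, h1, h2, h3, hr⟩ := rep hTR n m hn hm
  have hp0 : 0 < p := by linarith
  have hpi0 : ENNReal.ofReal Real.pi ≠ 0 := by
    rw [ne_eq, ENNReal.ofReal_eq_zero, not_le]
    exact Real.pi_pos
  have hL2 : ∀ G : ℝ → ℂ, Ha G →
      ∫⁻ x in Ioi (0 : ℝ), ‖W κ ε G x‖ₑ ^ (2 : ℝ) ≤ ∫⁻ x in Ioi (0 : ℝ), ‖G x‖ₑ ^ (2 : ℝ) := by
    intro G hG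
    obtain ⟨g, hg1, hg2, hg3⟩ := mk m hG
    have e1 := pol_T hPOL hr (two_pos) hg1 hg2
    have e2 := pol_f hPOL (two_pos) hg1
    have e3 := Pool.Agent.N892.BW.PLZ.sq_le n g
    simp only [← ENNReal.rpow_natCast, Nat.cast_ofNat] at e3
    have e4 : ∫⁻ z, ‖Tn n g z‖ₑ ^ (2 : ℝ) ≤ ∫⁻ z, ‖g z‖ₑ ^ (2 : ℝ) := e3
    rw [e1, e2, ENNReal.mul_le_mul_iff_right hpi0 ENNReal.ofReal_ne_top] at e4
    have e5 : ∫⁻ x in Ioi (0 : ℝ), ‖W κ ε G x‖ₑ ^ (2 : ℝ) =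
        ∫⁻ x in Ioi (0 : ℝ), ‖W κ ε (rd g) x‖ₑ ^ (2 : ℝ) := by
      refine setLIntegral_congr_fun measurableSet_Ioi fun t ht => ?_
      rw [W_congr hg3 ht]
    have e6 : ∫⁻ x in Ioi (0 : ℝ), ‖G x‖ₑ ^ (2 : ℝ) = ∫⁻ x in Ioi (0 : ℝ), ‖rd g x‖ₑ ^ (2 : ℝ) := by
      refine setLIntegral_congr_fun measurableSet_Ioi fun t ht => ?_
      rw [hg3 t ht]
    rw [e5, e6]
    exact e4
  have key := hINT κ ε (Real.exp (hh n)) p h1 h2 h3 hp hL2 (rd f) (rd_Ha hA)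
  have hP0 : ENNReal.ofReal p ≠ 0 := by
    rw [ne_eq, ENNReal.ofReal_eq_zero, not_le]
    exact hp0
  have hPt : (ENNReal.ofReal p).toReal = p := ENNReal.toReal_ofReal hp0.le
  rw [eLpNorm_eq_lintegral_rpow_enorm_toReal hP0 ENNReal.ofReal_ne_top,
    eLpNorm_eq_lintegral_rpow_enorm_toReal hP0 ENNReal.ofReal_ne_top, hPt,
    pol_T hPOL hr hp0 hf hA, pol_f hPOL hp0 hf]
  have hc : ENNReal.ofReal (Real.exp ((1 - 2 / p) * hh n)) =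
      (ENNReal.ofReal (Real.exp (hh n) ^ (p - 2))) ^ (1 / p) := by
    rw [ENNReal.ofReal_rpow_of_nonneg (by positivity) (by positivity),
      ← Real.rpow_mul (Real.exp_pos _).le, ← Real.exp_mul]
    congr 2
    field_simp
  rw [hc, ← ENNReal.mul_rpow_of_nonneg _ _ (by positivity)]
  refine ENNReal.rpow_le_rpow ?_ (by positivity)
  calc ENNReal.ofReal Real.pi * ∫⁻ t in Ioi (0 : ℝ), ‖W κ ε (rd f) t‖ₑ ^ p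
      ≤ ENNReal.ofReal Real.pi * (ENNReal.ofReal (Real.exp (hh n) ^ (p - 2)) *
          ∫⁻ t in Ioi (0 : ℝ), ‖rd f t‖ₑ ^ p) := by gcongr
    _ = _ := by ring

theorem modes (hTR : S_TR) (hPOL : S_POL) (hINT : S_INT) (hFIN : S_FIN) (n : ℕ) (m : ℤ) (hn : 1 ≤ n)
    (hm : m ≠ 2 * n) (p : ℝ) (hp : 2 ≤ p) (f : 𝓢(ℂ, ℂ)) (hf : Cl m f) :
    eLpNorm (Tn n f) (ENNReal.ofReal p) (volume : Measure ℂ)
      ≤ ENNReal.ofReal (Real.exp ((1 - 2 / p) * hh n)) *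
        eLpNorm (⇑f) (ENNReal.ofReal p) (volume : Measure ℂ) :=
  hFIN n m p _ hn hp (Real.exp_pos _).le
    (fun g hg hA => modes_ann hTR hPOL hINT n m hn hm p hp g hg hA) f hf

end Pool.Agent.D0H14.BC
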