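import Mathlib

/-! Partial fractions with simple nodes `-a_j`. -/

set_option autoImplicit false

open Polynomial Finset

namespace Pool.Agent.D0H14.BC

noncomputable def PP (S : Finset ℕ) (a : ℕ → ℝ) : ℝ[X] := ∏ l ∈ S, (X + C (a l))
noncomputable def QN (S : Finset ℕ) (a : ℕ → ℝ) : ℝ[X] := ∏ l ∈ S, (X - C (a l))

theorem PP_monic (S : Finset ℕ) (a : ℕ → ℝ) : (PP S a).Monic :=
  monic_prod_of_monic _ _ fun _ _ => monic_X_add_C _

theorem QN_monic (S : Finset ℕ) (a : ℕ → ℝ) : (QN S a).Monic :=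
  monic_prod_of_monic _ _ fun _ _ => monic_X_sub_C _

theorem PP_deg (S : Finset ℕ) (a : ℕ → ℝ) : (PP S a).natDegree = S.card := by
  unfold PP
  rw [natDegree_prod_of_monic _ _ fun _ _ => monic_X_add_C _]
  simp

theorem QN_deg (S : Finset ℕ) (a : ℕ → ℝ) : (QN S a).natDegree = S.card := by
  unfold QN
  rw [natDegree_prod_of_monic _ _ fun _ _ => monic_X_sub_C _]
  simp

theorem PP_erase (S : Finset ℕ) (a : ℕ → ℝ) {j : ℕ} (hj : j ∈ S) :
    (X + C (a j)) * PP (S.erase j) a = PP S a := by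
  unfold PP
  exact mul_prod_erase S _ hj

theorem pf (S : Finset ℕ) (a : ℕ → ℝ) (ha : Set.InjOn a S) (R : ℝ[X]) (hR : R.degree < S.card) :
    ∃ x : ℕ → ℝ, R = ∑ j ∈ S, C (x j) * PP (S.erase j) a := by
  have hv : Set.InjOn (fun j => -a j) (S : Set ℕ) := fun i hi j hj h => ha hi hj (neg_injective h)
  have h := Lagrange.eq_interpolate_of_eval_eq (fun i => R.eval (-a i)) hv hR (fun i _ => rfl)
  refine ⟨fun j => R.eval (-a j) * ∏ i ∈ S.erase j, (-a j - -a i)⁻¹, ?_⟩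
  nth_rewrite 1 [h]
  rw [Lagrange.interpolate_apply]
  refine sum_congr rfl fun j _ => ?_
  rw [Lagrange.basis, PP, C_mul, mul_assoc]
  congr 1
  rw [map_prod, ← prod_mul_distrib]
  refine prod_congr rfl fun i _ => ?_
  rw [Lagrange.basisDivisor, map_neg, sub_neg_eq_add, sub_neg_eq_add]

theorem exB (S : Finset ℕ) (a : ℕ → ℝ) (ha : Set.InjOn a S) :
    ∃ β : ℕ → ℝ, QN S a = PP S a - ∑ j ∈ S, C (β j) * PP (S.erase j) a ∧
      ∑ j ∈ S, β j = 2 * ∑ j ∈ S, a j := by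
  rcases S.eq_empty_or_nonempty with rfl | hS
  · exact ⟨0, by simp [QN, PP]⟩
  have hd : (PP S a - QN S a).degree < S.card := by
    have h1 : (PP S a).degree = (QN S a).degree := by
      rw [degree_eq_natDegree (PP_monic S a).ne_zero, degree_eq_natDegree (QN_monic S a).ne_zero,
        PP_deg, QN_deg]
    have h2 := degree_sub_lt_left h1 (PP_monic S a).ne_zero
      (by rw [(PP_monic S a).leadingCoeff, (QN_monic S a).leadingCoeff])
    rwa [degree_eq_natDegree (PP_monic S a).ne_zero, PP_deg] at h2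
  obtain ⟨β, hβ⟩ := pf S a ha _ hd
  refine ⟨β, by rw [← hβ]; ring, ?_⟩
  have hc : 1 ≤ S.card := hS.card_pos
  have e1 : (PP S a).coeff (S.card - 1) = ∑ j ∈ S, a j := by
    have h1 : (PP S a).nextCoeff = ∑ j ∈ S, a j := by
      unfold PP
      rw [Monic.nextCoeff_prod _ _ fun _ _ => monic_X_add_C _]
      simp
    rw [nextCoeff_of_natDegree_pos (by rw [PP_deg]; omega), PP_deg] at h1
    exact h1
  have e2 : (QN S a).coeff (S.card - 1) = -∑ j ∈ S, a j := by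
    have h1 : (QN S a).nextCoeff = -∑ j ∈ S, a j := by
      unfold QN
      rw [Monic.nextCoeff_prod _ _ fun _ _ => monic_X_sub_C _]
      simp
    rw [nextCoeff_of_natDegree_pos (by rw [QN_deg]; omega), QN_deg] at h1
    exact h1
  have h3 := congrArg (fun p : ℝ[X] => p.coeff (S.card - 1)) hβ
  simp only [coeff_sub, finsetSum_coeff, coeff_C_mul, e1, e2] at h3
  have h4 : ∀ j ∈ S, β j * (PP (S.erase j) a).coeff (S.card - 1) = β j := by
    intro j hj
    have h5 := (PP_monic (S.erase j) a).coeff_natDegree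
    rw [PP_deg, card_erase_of_mem hj] at h5
    rw [h5, mul_one]
  rw [sum_congr rfl h4] at h3
  linarith

theorem exG (S S' : Finset ℕ) (a : ℕ → ℝ) (ha : Set.InjOn a S') (hS : S.card < S'.card) :
    ∃ γ : ℕ → ℝ, QN S a = ∑ j ∈ S', C (γ j) * PP (S'.erase j) a := by
  refine pf S' a ha _ ?_
  rw [degree_eq_natDegree (QN_monic S a).ne_zero, QN_deg]
  exact_mod_cast hS

/-- evaluation at complex points -/
theorem PP_aeval (S : Finset ℕ) (a : ℕ → ℝ) (s : ℂ) : aeval s (PP S a) = ∏ l ∈ S, (s + a l) := by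
  simp [PP, map_prod]

theorem QN_aeval (S : Finset ℕ) (a : ℕ → ℝ) (s : ℂ) : aeval s (QN S a) = ∏ l ∈ S, (s - a l) := by
  simp [QN, map_prod]

/-- `∑ β_j / (s + a_j) = 1 - ∏ (s - a_j) / (s + a_j)` -/
theorem B_eval {S : Finset ℕ} {a β : ℕ → ℝ}
    (h : QN S a = PP S a - ∑ j ∈ S, C (β j) * PP (S.erase j) a) (s : ℂ)
    (hs : ∀ j ∈ S, s + a j ≠ 0) :
    ∑ j ∈ S, (β j : ℂ) / (s + a j) = 1 - ∏ j ∈ S, (s - a j) / (s + a j) := by
  have h1 := congrArg (fun p : ℝ[X] => aeval s p) h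
  simp only [map_sub, map_sum, map_mul, QN_aeval, PP_aeval, aeval_C] at h1
  have hP : ∏ j ∈ S, (s + (a j : ℂ)) ≠ 0 := prod_ne_zero_iff.2 hs
  rw [prod_div_distrib, h1, sub_div, div_self hP, sub_sub_cancel, sum_div]
  refine sum_congr rfl fun j hj => ?_
  rw [← mul_prod_erase S _ hj]
  have h2 : ∏ x ∈ S.erase j, (s + (a x : ℂ)) ≠ 0 :=
    prod_ne_zero_iff.2 fun i hi => hs i (mem_of_mem_erase hi)
  rw [mul_div_mul_right _ _ h2]
  rfl

theorem G_eval {S S' : Finset ℕ} {a γ : ℕ → ℝ}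
    (h : QN S a = ∑ j ∈ S', C (γ j) * PP (S'.erase j) a) (s : ℂ)
    (hs : ∀ j ∈ S', s + a j ≠ 0) :
    ∑ j ∈ S', (γ j : ℂ) / (s + a j) = (∏ j ∈ S, (s - a j)) / ∏ j ∈ S', (s + a j) := by
  have h1 := congrArg (fun p : ℝ[X] => aeval s p) h
  simp only [map_sum, map_mul, QN_aeval, PP_aeval, aeval_C] at h1
  rw [h1, sum_div]
  refine sum_congr rfl fun j hj => ?_
  rw [← mul_prod_erase S' _ hj]
  have h2 : ∏ x ∈ S'.erase j, (s + (a x : ℂ)) ≠ 0 :=
    prod_ne_zero_iff.2 fun i hi => hs i (mem_of_mem_erase hi)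
  rw [mul_div_mul_right _ _ h2]
  rfl

end Pool.Agent.D0H14.BC
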