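import Mathlib
import Pool.Agent.D0H14.BC.PF
import Pool.Agent.H153R4.Pl

/-! Fourier transforms and norms of exponentials on half-lines. -/

set_option autoImplicit false

open MeasureTheory Set FourierTransform

namespace Pool.Agent.D0H14.BC

noncomputable def ct (f : ℝ → ℝ) (y : ℝ) : ℂ := (Ioi (0 : ℝ)).indicator (fun y => (f y : ℂ)) y
noncomputable def cn (f : ℝ → ℝ) (y : ℝ) : ℂ := (Iio (0 : ℝ)).indicator (fun y => (f y : ℂ)) y

/-- the variable `s = 2 π i ξ` -/
noncomputable def sv (ξ : ℝ) : ℂ := ((2 * Real.pi * ξ : ℝ) : ℂ) * Complex.I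

theorem sv_re (ξ : ℝ) : (sv ξ).re = 0 := by simp [sv]

theorem sv_add_ne (ξ : ℝ) {a : ℝ} (ha : 0 < a) : sv ξ + a ≠ 0 := by
  intro h
  have := congrArg Complex.re h
  simp [sv_re] at this
  exact ha.ne' this

theorem a_sub_sv_ne (ξ : ℝ) {a : ℝ} (ha : 0 < a) : (a : ℂ) - sv ξ ≠ 0 := by
  intro h
  have := congrArg Complex.re h
  simp [sv_re] at this
  exact ha.ne' this

theorem four_ct (f : ℝ → ℝ) (ξ : ℝ) :
    𝓕 (ct f) ξ = ∫ y in Ioi (0 : ℝ), Complex.exp (-(sv ξ * y)) * (f y : ℂ) := by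
  rw [Real.fourier_real_eq_integral_exp_smul, ← integral_indicator measurableSet_Ioi]
  refine integral_congr_ae (Filter.Eventually.of_forall fun y => ?_)
  simp only [ct, indicator]
  split_ifs
  · rw [smul_eq_mul]
    congr 2
    unfold sv
    push_cast
    ring
  · simp

theorem four_cn (f : ℝ → ℝ) (ξ : ℝ) :
    𝓕 (cn f) ξ = ∫ y in Ioi (0 : ℝ), Complex.exp (sv ξ * y) * (f (-y) : ℂ) := by
  rw [Real.fourier_real_eq_integral_exp_smul]
  have h1 : ∀ y : ℝ, Complex.exp (((-2 * Real.pi * y * ξ : ℝ) : ℂ) * Complex.I) • cn f y =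
      (Iio (0 : ℝ)).indicator (fun y : ℝ => Complex.exp (-(sv ξ * y)) * (f y : ℂ)) y := by
    intro y
    simp only [cn, indicator]
    split_ifs
    · rw [smul_eq_mul]
      congr 2
      unfold sv
      push_cast
      ring
    · simp
  simp only [h1]
  have h2 := integral_comp_neg_Ioi (0 : ℝ) (fun y : ℝ => Complex.exp (-(sv ξ * y)) * (f y : ℂ))
  rw [neg_zero] at h2
  rw [integral_indicator measurableSet_Iio, ← integral_Iic_eq_integral_Iio, ← h2]
  refine setIntegral_congr_fun measurableSet_Ioi fun y _ => ?_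
  congr 2
  push_cast
  ring

theorem exp_int (r : ℂ) (hr : 0 < r.re) : ∫ t in Ioi (0 : ℝ), Complex.exp (-(r * t)) = 1 / r := by
  have h := integral_exp_mul_complex_Ioi (a := -r) (by simpa using hr) 0
  simp only [neg_mul] at h
  rw [h]
  simp

theorem mul_exp_int (r : ℂ) (hr : 0 < r.re) :
    ∫ t in Ioi (0 : ℝ), (t : ℂ) * Complex.exp (-(r * t)) = (1 / r) ^ 2 := by
  have hr0 : r ≠ 0 := by
    intro h
    rw [h] at hr
    simp at hr
  have hn : ∀ t : ℝ, ‖Complex.exp (-(r * t))‖ = Real.exp (-(r.re * t)) := by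
    intro t
    rw [Complex.norm_exp]
    simp
  have hd : ∀ t ∈ Ici (0 : ℝ), HasDerivAt (fun t : ℝ => -((t : ℂ) / r + 1 / r ^ 2) *
      Complex.exp (-(r * t))) ((t : ℂ) * Complex.exp (-(r * t))) t := by
    intro t _
    have h1 : HasDerivAt (fun t : ℝ => (t : ℂ)) 1 t := Complex.ofRealCLM.hasDerivAt
    have h2 : HasDerivAt (fun t : ℝ => -((t : ℂ) / r + 1 / r ^ 2)) (-(1 / r)) t :=
      ((h1.div_const r).add_const _).neg
    have h3 : HasDerivAt (fun t : ℝ => Complex.exp (-(r * t)))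
        (Complex.exp (-(r * t)) * (-(r * 1))) t := ((h1.const_mul r).neg).cexp
    refine (h2.mul h3).congr_deriv ?_
    field_simp
    ring
  have hi : IntegrableOn (fun t : ℝ => (t : ℂ) * Complex.exp (-(r * t))) (Ioi 0) := by
    have h1 : IntegrableOn (fun t : ℝ => t * Real.exp (-(r.re * t))) (Ioi 0) := by
      by_contra h
      have h2 := integral_undef h
      have h3 := Real.integral_rpow_mul_exp_neg_mul_Ioi (a := 2) (r := r.re) (by norm_num) hr
      have e : (2 : ℝ) - 1 = 1 := by norm_num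
      rw [e, Real.Gamma_two, mul_one] at h3
      simp only [Real.rpow_one] at h3
      rw [h3] at h2
      have : 0 < (1 / r.re) ^ (2 : ℝ) := by positivity
      linarith
    refine h1.mono' (by fun_prop) ?_
    refine (ae_restrict_iff' measurableSet_Ioi).2 (Filter.Eventually.of_forall fun t ht => ?_)
    rw [norm_mul, hn, Complex.norm_real, Real.norm_of_nonneg (le_of_lt ht)]
  have ht : Filter.Tendsto (fun t : ℝ => -((t : ℂ) / r + 1 / r ^ 2) * Complex.exp (-(r * t)))
      Filter.atTop (nhds 0) := by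
    rw [tendsto_zero_iff_norm_tendsto_zero]
    have h1 : Filter.Tendsto (fun t : ℝ => (t ^ (1 : ℝ) * Real.exp (-r.re * t)) * (1 / ‖r‖) +
        (t ^ (0 : ℝ) * Real.exp (-r.re * t)) * (1 / ‖r‖ ^ 2)) Filter.atTop (nhds (0 * (1 / ‖r‖) +
          0 * (1 / ‖r‖ ^ 2))) :=
      ((tendsto_rpow_mul_exp_neg_mul_atTop_nhds_zero 1 _ hr).mul_const _).add
        ((tendsto_rpow_mul_exp_neg_mul_atTop_nhds_zero 0 _ hr).mul_const _)
    simp only [Real.rpow_one, Real.rpow_zero, one_mul] at h1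
    rw [zero_mul, zero_mul, add_zero] at h1
    refine squeeze_zero' (Filter.Eventually.of_forall fun t => norm_nonneg _) ?_ h1
    filter_upwards [Filter.eventually_ge_atTop (0 : ℝ)] with t ht
    rw [norm_mul, norm_neg, hn, neg_mul]
    have h2 : ‖(t : ℂ) / r + 1 / r ^ 2‖ ≤ t / ‖r‖ + 1 / ‖r‖ ^ 2 := by
      refine (norm_add_le _ _).trans (le_of_eq ?_)
      rw [norm_div, norm_div, norm_pow, norm_one, Complex.norm_real, Real.norm_of_nonneg ht]
    refine (mul_le_mul_of_nonneg_right h2 (Real.exp_pos _).le).trans (le_of_eq ?_)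
    ring
  have h := integral_Ioi_of_hasDerivAt_of_tendsto' hd hi ht
  rw [h]
  simp

theorem four_E (a : ℝ) (ha : 0 < a) (ξ : ℝ) :
    𝓕 (ct fun y => Real.exp (-(a * y))) ξ = 1 / (sv ξ + a) := by
  rw [four_ct, ← exp_int (sv ξ + a) (by simpa [sv_re] using ha)]
  refine setIntegral_congr_fun measurableSet_Ioi fun y _ => ?_
  push_cast
  rw [← Complex.exp_add]
  congr 1
  ring

theorem four_Y (a : ℝ) (ha : 0 < a) (ξ : ℝ) :
    𝓕 (ct fun y => y * Real.exp (-(a * y))) ξ = (1 / (sv ξ + a)) ^ 2 := by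
  rw [four_ct, ← mul_exp_int (sv ξ + a) (by simpa [sv_re] using ha)]
  refine setIntegral_congr_fun measurableSet_Ioi fun y _ => ?_
  push_cast
  rw [mul_left_comm, ← Complex.exp_add]
  congr 2
  ring

theorem four_N (a : ℝ) (ha : 0 < a) (ξ : ℝ) :
    𝓕 (cn fun y => Real.exp (a * y)) ξ = 1 / (a - sv ξ) := by
  rw [four_cn, ← exp_int (a - sv ξ) (by simpa [sv_re] using ha)]
  refine setIntegral_congr_fun measurableSet_Ioi fun y _ => ?_
  push_cast
  rw [← Complex.exp_add]
  congr 1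
  ring

/-! ### real moments -/

theorem mom0 (r : ℝ) (hr : 0 < r) : ∫ t in Ioi (0 : ℝ), Real.exp (-(r * t)) = 1 / r := by
  have h := Real.integral_rpow_mul_exp_neg_mul_Ioi (a := 1) (r := r) (by norm_num) hr
  simpa using h

theorem mom1 (r : ℝ) (hr : 0 < r) : ∫ t in Ioi (0 : ℝ), t * Real.exp (-(r * t)) = (1 / r) ^ 2 := by
  have h := Real.integral_rpow_mul_exp_neg_mul_Ioi (a := 2) (r := r) (by norm_num) hr
  have e : (2 : ℝ) - 1 = 1 := by norm_num
  rw [e, Real.Gamma_two, mul_one] at h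
  simpa using h

theorem mom2 (r : ℝ) (hr : 0 < r) :
    ∫ t in Ioi (0 : ℝ), t ^ 2 * Real.exp (-(r * t)) = 2 * (1 / r) ^ 3 := by
  have h := Real.integral_rpow_mul_exp_neg_mul_Ioi (a := 3) (r := r) (by norm_num) hr
  have e : (3 : ℝ) - 1 = 2 := by norm_num
  have g : Real.Gamma 3 = 2 := by
    have := Real.Gamma_nat_eq_factorial 2
    have e3 : ((2 : ℕ) : ℝ) + 1 = 3 := by norm_num
    rw [e3] at this
    rw [this]
    simp
  rw [e, g] at h
  have e2 : (1 / r) ^ (3 : ℝ) = (1 / r) ^ 3 := by exact_mod_cast Real.rpow_natCast (1 / r) 3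
  rw [e2] at h
  simp only [Real.rpow_two] at h
  linarith

theorem io0 (r : ℝ) (hr : 0 < r) : IntegrableOn (fun t => Real.exp (-(r * t))) (Ioi (0 : ℝ)) := by
  simpa using exp_neg_integrableOn_Ioi 0 hr

theorem io1 (r : ℝ) (hr : 0 < r) : IntegrableOn (fun t => t * Real.exp (-(r * t))) (Ioi (0 : ℝ)) := by
  by_contra h
  have h2 := integral_undef h
  rw [mom1 r hr] at h2
  have : 0 < (1 / r) ^ 2 := by positivity
  linarith

theorem io2 (r : ℝ) (hr : 0 < r) :
    IntegrableOn (fun t => t ^ 2 * Real.exp (-(r * t))) (Ioi (0 : ℝ)) := by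
  by_contra h
  have h2 := integral_undef h
  rw [mom2 r hr] at h2
  have : 0 < 2 * (1 / r) ^ 3 := by positivity
  linarith

end Pool.Agent.D0H14.BC
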