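import Mathlib

/-! Numerical inequalities. -/

set_option autoImplicit false

open Finset

namespace Pool.Agent.D0H14.BC

/-- `∑_{l < n} 2 / (2 l + 1)` -/
noncomputable def hh (n : ℕ) : ℝ := ∑ l ∈ range n, 2 / (2 * (l : ℝ) + 1)

theorem hh_succ (n : ℕ) : hh (n + 1) = hh n + 2 / (2 * (n : ℝ) + 1) := sum_range_succ _ _

theorem hh_mono {m n : ℕ} (h : m ≤ n) : hh m ≤ hh n := by
  unfold hh
  exact sum_le_sum_of_subset_of_nonneg (range_mono h) fun l _ _ => by positivity

/-- the bound of the kernels -/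
noncomputable def BB (n : ℕ) : ℝ :=
  1 + √(2 * Real.pi * n * √((n : ℝ) - 1)) +
    2 * ((n : ℝ) + 1) * √(Real.pi * (3 / 2 - 1 / √(n : ℝ)))

theorem exp_ge (x : ℝ) (hx : 0 ≤ x) : 1 + x + x ^ 2 / 2 + x ^ 3 / 6 + x ^ 4 / 24 + x ^ 5 / 120 ≤
    Real.exp x := by
  have h := Real.sum_le_exp_of_nonneg hx 6
  simp only [sum_range_succ, range_zero, sum_empty, Nat.factorial] at h
  norm_num at h
  linarith

theorem e1 : (7.389 : ℝ) ≤ Real.exp (hh 1) := by
  have h1 : hh 1 = 1 + 1 := by simp [hh]; norm_num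
  rw [h1, Real.exp_add]
  have := Real.exp_one_gt_d9
  nlinarith

theorem e_step {n : ℕ} {A q B : ℝ} (_hA : 0 ≤ A) (h : A ≤ Real.exp (hh n)) (hq0 : 0 ≤ q)
    (hq : q ≤ Real.exp (2 / (2 * (n : ℝ) + 1))) (hB : B ≤ A * q) : B ≤ Real.exp (hh (n + 1)) := by
  rw [hh_succ, Real.exp_add]
  exact hB.trans (mul_le_mul h hq hq0 (Real.exp_pos _).le)

theorem e2 : (14.39 : ℝ) ≤ Real.exp (hh 2) := by
  refine e_step (by norm_num) e1 (q := 1.9475) (by norm_num) ?_ (by norm_num)
  refine le_trans ?_ (exp_ge _ (by positivity))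
  norm_num

theorem e3 : (21.46 : ℝ) ≤ Real.exp (hh 3) := by
  refine e_step (by norm_num) e2 (q := 1.4918) (by norm_num) ?_ (by norm_num)
  refine le_trans ?_ (exp_ge _ (by positivity))
  norm_num

theorem e4 : (28.55 : ℝ) ≤ Real.exp (hh 4) := by
  refine e_step (by norm_num) e3 (q := 1.3307) (by norm_num) ?_ (by norm_num)
  refine le_trans ?_ (exp_ge _ (by positivity))
  norm_num

theorem e5 : (35.65 : ℝ) ≤ Real.exp (hh 5) := by
  refine e_step (by norm_num) e4 (q := 1.2488) (by norm_num) ?_ (by norm_num)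
  refine le_trans ?_ (exp_ge _ (by positivity))
  norm_num

theorem e6 : (42.75 : ℝ) ≤ Real.exp (hh 6) := by
  refine e_step (by norm_num) e5 (q := 1.1993) (by norm_num) ?_ (by norm_num)
  refine le_trans ?_ (exp_ge _ (by positivity))
  norm_num

theorem e7 : (49.85 : ℝ) ≤ Real.exp (hh 7) := by
  refine e_step (by norm_num) e6 (q := 1.1663) (by norm_num) ?_ (by norm_num)
  refine le_trans ?_ (exp_ge _ (by positivity))
  norm_num

theorem e_big (n : ℕ) (hn : 7 ≤ n) : (6.64 : ℝ) * ((n : ℝ) + 1 / 2) ≤ Real.exp (hh n) := by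
  induction n, hn using Nat.le_induction with
  | base =>
    have := e7
    push_cast
    linarith
  | succ m hm ih =>
    rw [hh_succ, Real.exp_add]
    have h1 : 1 + 2 / (2 * (m : ℝ) + 1) ≤ Real.exp (2 / (2 * (m : ℝ) + 1)) := by
      have := Real.add_one_le_exp (2 / (2 * (m : ℝ) + 1))
      linarith
    have h0 : (0 : ℝ) ≤ (m : ℝ) := Nat.cast_nonneg m
    refine le_trans (le_of_eq ?_) (mul_le_mul ih h1 (by positivity) (Real.exp_pos _).le)
    push_cast
    field_simp
    ring

theorem sqrt_le' {x r : ℝ} (hr : 0 ≤ r) (h : x ≤ r ^ 2) : √x ≤ r := Real.sqrt_le_iff.2 ⟨hr, h⟩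

theorem le_isq {n r : ℝ} (hn : 0 < n) (hr : 0 < r) (h : r ^ 2 * n ≤ 1) : r ≤ 1 / √n := by
  have h1 : 0 < √n := Real.sqrt_pos.2 hn
  rw [le_div_iff₀ h1]
  have h2 : √n ≤ 1 / r := by
    refine sqrt_le' (by positivity) ?_
    rw [div_pow, one_pow, le_div_iff₀ (by positivity)]
    linarith
  calc r * √n ≤ r * (1 / r) := mul_le_mul_of_nonneg_left h2 hr.le
    _ = 1 := by field_simp

/-- a piece of the numerical check -/
theorem piece {n : ℝ} {s t u v : ℝ} (hn : 1 ≤ n) (hs : √(n - 1) ≤ s)
    (ht : t ≤ 1 / √n) (hu0 : 0 ≤ u) (hv0 : 0 ≤ v) (ht2 : t ≤ 3 / 2)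
    (hu : 2 * 3.1416 * n * s ≤ u ^ 2) (hv : 3.1416 * (3 / 2 - t) ≤ v ^ 2) :
    1 + √(2 * Real.pi * n * √(n - 1)) + 2 * (n + 1) * √(Real.pi * (3 / 2 - 1 / √n)) ≤
      1 + u + 2 * (n + 1) * v := by
  have hπ := Real.pi_lt_d4
  have hπ0 := Real.pi_pos
  have hs0 : 0 ≤ s := (Real.sqrt_nonneg _).trans hs
  have h1 : √(2 * Real.pi * n * √(n - 1)) ≤ u := by
    refine sqrt_le' hu0 (le_trans ?_ hu)
    have : 2 * Real.pi * n * √(n - 1) ≤ 2 * Real.pi * n * s := mul_le_mul_of_nonneg_left hs (by positivity)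
    have h2 : 2 * Real.pi * n * s ≤ 2 * 3.1416 * n * s := by
      apply mul_le_mul_of_nonneg_right _ hs0
      nlinarith
    linarith
  have h2 : √(Real.pi * (3 / 2 - 1 / √n)) ≤ v := by
    refine sqrt_le' hv0 (le_trans ?_ hv)
    have h3 : Real.pi * (3 / 2 - 1 / √n) ≤ Real.pi * (3 / 2 - t) :=
      mul_le_mul_of_nonneg_left (by linarith) hπ0.le
    have h4 : Real.pi * (3 / 2 - t) ≤ 3.1416 * (3 / 2 - t) :=
      mul_le_mul_of_nonneg_right hπ.le (by linarith)
    linarith
  have h3 : 2 * (n + 1) * √(Real.pi * (3 / 2 - 1 / √n)) ≤ 2 * (n + 1) * v :=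
    mul_le_mul_of_nonneg_left h2 (by linarith)
  linarith

theorem BB_le (n : ℕ) (hn : 1 ≤ n) : BB n ≤ Real.exp (hh n) := by
  unfold BB
  rcases Nat.lt_or_ge n 7 with h7 | h7
  · interval_cases n
    · have h := piece (n := 1) (s := 0) (t := 1) (u := 0) (v := 1.2535) le_rfl (by simp) (by simp)
        le_rfl (by norm_num) (by norm_num) (by norm_num) (by norm_num)
      have := e1
      push_cast
      refine h.trans ?_
      norm_num at this ⊢
      linarith
    · have h := piece (n := 2) (s := 1) (t := 0.7071) (u := 3.546) (v := 1.5784) (by norm_num)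
        (by norm_num) (le_isq (by norm_num) (by norm_num) (by norm_num)) (by norm_num)
        (by norm_num) (by norm_num) (by norm_num) (by norm_num)
      have := e2
      push_cast
      refine h.trans ?_
      norm_num at this ⊢
      linarith
    · have h := piece (n := 3) (s := 1.4143) (t := 0.577) (u := 5.17) (v := 1.704) (by norm_num)
        (sqrt_le' (by norm_num) (by norm_num)) (le_isq (by norm_num) (by norm_num) (by norm_num))
        (by norm_num) (by norm_num) (by norm_num) (by norm_num) (by norm_num)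
      have := e3
      push_cast
      refine h.trans ?_
      norm_num at this ⊢
      linarith
    · have h := piece (n := 4) (s := 1.733) (t := 0.5) (u := 6.61) (v := 1.773) (by norm_num)
        (sqrt_le' (by norm_num) (by norm_num)) (le_isq (by norm_num) (by norm_num) (by norm_num))
        (by norm_num) (by norm_num) (by norm_num) (by norm_num) (by norm_num)
      have := e4
      push_cast
      refine h.trans ?_
      norm_num at this ⊢
      linarith
    · have h := piece (n := 5) (s := 2) (t := 0.447) (u := 7.94) (v := 1.82) (by norm_num)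
        (sqrt_le' (by norm_num) (by norm_num)) (le_isq (by norm_num) (by norm_num) (by norm_num))
        (by norm_num) (by norm_num) (by norm_num) (by norm_num) (by norm_num)
      have := e5
      push_cast
      refine h.trans ?_
      norm_num at this ⊢
      linarith
    · have h := piece (n := 6) (s := 2.237) (t := 0.408) (u := 9.2) (v := 1.853) (by norm_num)
        (sqrt_le' (by norm_num) (by norm_num)) (le_isq (by norm_num) (by norm_num) (by norm_num))
        (by norm_num) (by norm_num) (by norm_num) (by norm_num) (by norm_num)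
      have := e6
      push_cast
      refine h.trans ?_
      norm_num at this ⊢
      linarith
  · have hr : (7 : ℝ) ≤ n := by exact_mod_cast h7
    have hs : √((n : ℝ) - 1) ≤ (n : ℝ) / 2.64 := by
      refine sqrt_le' (by positivity) ?_
      rw [div_pow, le_div_iff₀ (by norm_num)]
      nlinarith
    have h := piece (n := (n : ℝ)) (s := n / 2.64) (t := 0) (u := 1.543 * n) (v := 2.171)
      (by linarith) hs (by positivity) (by positivity) (by norm_num) (by norm_num)
      (by
        have : 2 * 3.1416 * (n : ℝ) * (n / 2.64) = 2.38 * (n : ℝ) ^ 2 := by ring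
        rw [this, mul_pow]
        nlinarith [sq_nonneg (n : ℝ)]) (by norm_num)
    refine h.trans (le_trans ?_ (e_big n h7))
    linarith

end Pool.Agent.D0H14.BC
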