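import Pool.Agent.Y282.RB.Stm4
import Pool.Agent.D0H14.BC.Num

/-!
# Project BC (helper14), MP_dd244f_an slot 3: `T ^ n` on the angular modes `m ≠ 2 n`

Statements of the parts for other formalisers.  `Tn` is `Pool.Agent.Y282.RB.Tn` (the literal
Fourier multiplier with symbol `(conj ξ / ξ) ^ n`), `hh n = ∑ l < n, 2 / (2 l + 1)` is in
`Pool.Agent.D0H14.BC.Num`.
-/

set_option autoImplicit false

open MeasureTheory Set Filter
open scoped SchwartzMap ContDiff ENNReal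

namespace Pool.Agent.D0H14.BC

open Pool.Agent.Y282.RB (Tn)

/-- smooth functions with compact support in `(0, ∞)` -/
def Ha (G : ℝ → ℂ) : Prop :=
  ContDiff ℝ ∞ G ∧ HasCompactSupport G ∧ ∃ r : ℝ, 0 < r ∧ ∀ x, x ≤ r → G x = 0

/-- the one-dimensional operator -/
noncomputable def W (κ : ℝ → ℝ) (ε : ℝ) (G : ℝ → ℂ) (x : ℝ) : ℂ :=
  G x - ∫ y in Ioi (0 : ℝ), (κ y : ℂ) * G (x * Real.exp (ε * y))

/-- module INT: interpolation between `L ^ 2` and the sup norm on the half-line.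
Proof (about 250 lines).  Cells `[i/N, (i+1)/N)`, `1 ≤ i < M`, step functions
`S_a = ∑ a_i 1_(cell i)`.  (1) For a step function choose smooth `F_j` in `Ha`, `|F_j| ≤ max |a_i|`,
`F_j → S_a` pointwise EVERYWHERE (differences of `Real.smoothTransition (1 + j (x - i/N))`);
dominated convergence gives `W F_j → W S_a` pointwise (kernel integrable, `F_j` bounded).
(2) `t_m = N ∫_(cell m) W S_a = ∑ a_i k m i`, `k m i = N ∫_(cell m) W 1_(cell i)`;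
`∑ |t_m|^2 ≤ N ∫ |W F_j|^2`-limit `≤ ∑ |a_i|^2` (Cauchy-Schwarz on each cell, hypothesis, limit);
`|t_m| ≤ B max |a_i|`.  (3) `Pool.Agent.R227.IT.rt2` with `p₀ = 2`, `h₀ = 1`, `p₁ → ∞`,
`h₁ = B * (card)^(1/p₁)` (finite sets): `∑ |t_m|^p ≤ B^(p-2) ∑ |a_i|^p`.
(4) `G` in `Ha`, `a_i = G (i/N)`: `S_a → G` uniformly, `W S_a → W G` uniformly (`B` times),
cell averages of `W S_a` converge to `W G` pointwise (`W G` is continuous), Riemann sums of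
`|G|^p`, Fatou on `(0, R)`, `R → ∞`. -/
def S_INT : Prop := ∀ (κ : ℝ → ℝ) (ε B p : ℝ), Continuous κ → IntegrableOn κ (Ioi 0) →
  1 + ∫ y in Ioi (0 : ℝ), |κ y| ≤ B → 2 ≤ p →
  (∀ G : ℝ → ℂ, Ha G →
    ∫⁻ x in Ioi (0 : ℝ), ‖W κ ε G x‖ₑ ^ (2 : ℝ) ≤ ∫⁻ x in Ioi (0 : ℝ), ‖G x‖ₑ ^ (2 : ℝ)) →
  ∀ G : ℝ → ℂ, Ha G →
    ∫⁻ x in Ioi (0 : ℝ), ‖W κ ε G x‖ₑ ^ p ≤
      ENNReal.ofReal (B ^ (p - 2)) * ∫⁻ x in Ioi (0 : ℝ), ‖G x‖ₑ ^ p

/-- module POL: polar coordinates (see `Pool.Agent.Y282.RB.A3` for the Bochner version;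
`Complex.lintegral_comp_polarCoord_symm`). About 40 lines. -/
def S_POL : Prop := ∀ (p : ℝ), 0 < p → ∀ f : ℂ → ℂ, Measurable f →
  (∀ z : ℂ, ‖f z‖ = ‖f ((‖z‖ : ℝ) : ℂ)‖) →
  ∫⁻ z : ℂ, ‖f z‖ₑ ^ p =
    ENNReal.ofReal Real.pi * ∫⁻ t in Ioi (0 : ℝ), ‖f ((√t : ℝ) : ℂ)‖ₑ ^ p

/-- module TR: the multiplier is its own transpose (its symbol is even).
`Pool.Agent.Y282.RB.K` and `Pool.Agent.TH55.PowA` contain integrability lemmas for `Tn`;
Fubini or `VectorFourier.integral_fourierIntegral_smul_eq_flip`. About 60 lines. -/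
def S_TR : Prop := ∀ (n : ℕ) (f g : 𝓢(ℂ, ℂ)), ∫ z : ℂ, Tn n f z * g z = ∫ z : ℂ, f z * Tn n g z

/-- `f (a z) = a ^ m f z` for `|a| = 1` -/
def Cl (m : ℤ) (f : ℂ → ℂ) : Prop := ∀ a z : ℂ, ‖a‖ = 1 → f (a * z) = a ^ m * f z

/-- compact support in the punctured plane -/
def Ann (f : ℂ → ℂ) : Prop := HasCompactSupport f ∧ ∃ r : ℝ, 0 < r ∧ ∀ z : ℂ, ‖z‖ ≤ r → f z = 0

/-- module FIN: from functions supported in annuli to all Schwartz functions of the class.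
Adapt `Pool.Agent.Y282.RB.K` (there: `m = 2 n`); the truncation is `χ (|z|^2) f z`, no need to
divide by powers of `z`. About 80 lines. -/
def S_FIN : Prop := ∀ (n : ℕ) (m : ℤ) (p C : ℝ), 1 ≤ n → 2 ≤ p → 0 ≤ C →
  (∀ f : 𝓢(ℂ, ℂ), Cl m f → Ann f →
    eLpNorm (Tn n f) (ENNReal.ofReal p) (volume : Measure ℂ)
      ≤ ENNReal.ofReal C * eLpNorm (⇑f) (ENNReal.ofReal p) (volume : Measure ℂ)) →
  ∀ f : 𝓢(ℂ, ℂ), Cl m f →
    eLpNorm (Tn n f) (ENNReal.ofReal p) (volume : Measure ℂ)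
      ≤ ENNReal.ofReal C * eLpNorm (⇑f) (ENNReal.ofReal p) (volume : Measure ℂ)

/-- module LOWB: the comparison with the conjectured constant:
`(l + 1 - s) / (l + s) ≥ exp (2 (1 - 2 s) / (2 l + 1))` for `0 < s ≤ 1/2`, strict for `s < 1/2`
(`log ((1 + u) / (1 - u)) ≥ 2 u`, `u = (1 - 2 s) / (2 l + 1)`), and the product formula
`Pool.Agent.Y282.RB.K3.main`. About 40 lines. -/
def S_LOWB : Prop := ∀ (n : ℕ) (p : ℝ), 1 ≤ n → 2 ≤ p →
  Real.exp ((1 - 2 / p) * hh n) ≤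
    (ascPochhammer ℝ n).eval (1 - 1 / p) / (ascPochhammer ℝ n).eval (1 / p) ∧
  (2 < p → Real.exp ((1 - 2 / p) * hh n) <
    (ascPochhammer ℝ n).eval (1 - 1 / p) / (ascPochhammer ℝ n).eval (1 / p))

end Pool.Agent.D0H14.BC
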