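import Pool.Agent.TH55.PowB
import Pool.Agent.D0H14.BC.Stm

/-! Rotations: the class of `T ^ n f`. -/

set_option autoImplicit false

open MeasureTheory Set Filter
open scoped SchwartzMap ContDiff

namespace Pool.Agent.D0H14.BC

open Pool.Agent.Y282.RB (Tn)
open Pool.Agent.TH55.PowA (T Ft bs sm Adm T_cont bs_meas bs_norm_le)

theorem int_rot {a : ℂ} (ha : ‖a‖ = 1) (F : ℂ → ℂ) : ∫ ξ, F (a * ξ) = ∫ ξ, F ξ := by
  let c : Circle := ⟨a, mem_sphere_zero_iff_norm.2 ha⟩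
  have h := (rotation c).measurePreserving.integral_comp
    (rotation c).toHomeomorph.measurableEmbedding F
  simpa [rotation_apply] using h

theorem sm_rot {a : ℂ} (ha : ‖a‖ = 1) (x ξ : ℂ) : sm (a * x) (a * ξ) = sm x ξ := by
  have h : a.re * a.re + a.im * a.im = 1 := by
    rw [← Complex.normSq_apply, Complex.normSq_eq_norm_sq, ha]
    norm_num
  unfold sm
  simp only [Complex.mul_re, Complex.mul_im]
  linear_combination (x.re * ξ.re + x.im * ξ.im) * h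

theorem bs_rot {a : ℂ} (ha : ‖a‖ = 1) (ξ : ℂ) : bs (a * ξ) = (a ^ (2 : ℤ))⁻¹ * bs ξ := by
  have ha0 : a ≠ 0 := by
    rw [← norm_ne_zero_iff, ha]
    norm_num
  have hc : a * (starRingEnd ℂ) a = 1 := by
    rw [Complex.mul_conj, Complex.normSq_eq_norm_sq, ha]
    simp
  have h1 : (starRingEnd ℂ) a = a⁻¹ := (inv_eq_of_mul_eq_one_right hc).symm
  unfold bs
  rw [map_mul, h1]
  rcases eq_or_ne ξ 0 with h | h
  · subst h; simp
  · field_simp

theorem Ft_rot {m : ℤ} {f : 𝓢(ℂ, ℂ)} (hf : Cl m f) {a : ℂ} (ha : ‖a‖ = 1) (ξ : ℂ) :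
    Ft f (a * ξ) = a ^ m * Ft f ξ := by
  unfold Ft
  rw [← int_rot ha, ← integral_const_mul]
  refine integral_congr_ae (Eventually.of_forall fun x => ?_)
  simp only
  rw [sm_rot ha, hf a x ha]
  ring

theorem Tn_eq (n : ℕ) (f : 𝓢(ℂ, ℂ)) : Tn n f = T (fun ξ => bs ξ ^ n) f := rfl

theorem Tn_class {m : ℤ} (n : ℕ) {f : 𝓢(ℂ, ℂ)} (hf : Cl m f) : Cl (m - 2 * n) (Tn n f) := by
  intro a z ha
  rw [Tn_eq]
  have ha0 : a ≠ 0 := by
    rw [← norm_ne_zero_iff, ha]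
    norm_num
  unfold T
  rw [← int_rot ha, ← integral_const_mul]
  refine integral_congr_ae (Eventually.of_forall fun ξ => ?_)
  simp only
  rw [sm_rot ha, bs_rot ha, Ft_rot hf ha, mul_pow, zpow_sub₀ ha0, zpow_mul, zpow_natCast, inv_pow]
  ring

theorem Tn_cont (n : ℕ) (f : 𝓢(ℂ, ℂ)) : Continuous (Tn n f) := by
  rw [Tn_eq]
  exact T_cont ⟨bs_meas.pow_const n, fun ξ => by
    rw [norm_pow]
    exact pow_le_one₀ (norm_nonneg _) (bs_norm_le ξ)⟩ f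

theorem cl_norm {m : ℤ} {F : ℂ → ℂ} (h : Cl m F) (z : ℂ) : ‖F z‖ = ‖F ((‖z‖ : ℝ) : ℂ)‖ := by
  rcases eq_or_ne z 0 with h0 | h0
  · subst h0; simp
  · have hn : (‖z‖ : ℂ) ≠ 0 := Complex.ofReal_ne_zero.2 (norm_ne_zero_iff.2 h0)
    have ha : ‖z / (‖z‖ : ℂ)‖ = 1 := by
      rw [norm_div, Complex.norm_real, norm_norm]
      exact div_self (norm_ne_zero_iff.2 h0)
    have h3 := h (z / (‖z‖ : ℂ)) (‖z‖ : ℂ) ha
    rw [div_mul_cancel₀ _ hn] at h3
    rw [h3, norm_mul, norm_zpow, ha, one_zpow, one_mul]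

end Pool.Agent.D0H14.BC
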