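import Pool.Agent.D0H14.BC.Rep3
import Pool.Agent.D0H14.BC.Rot

/-! The representation for the modes `m < n`, by transposition. -/

set_option autoImplicit false

open MeasureTheory Set Filter Topology
open scoped SchwartzMap ContDiff

namespace Pool.Agent.D0H14.BC

open Pool.Agent.Y282.RB (Tn)

theorem int_nsq (φ : ℝ → ℂ) :
    ∫ z : ℂ, φ (Complex.normSq z) = (Real.pi : ℂ) * ∫ x in Ioi (0 : ℝ), φ x := by
  rw [← Complex.integral_comp_polarCoord_symm]
  have h1 : ∀ q : ℝ × ℝ, q.1 • φ (Complex.normSq (Complex.polarCoord.symm q)) =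
      ((q.1 : ℂ) * φ (q.1 ^ 2)) * 1 := by
    intro q
    have : Complex.normSq (Complex.polarCoord.symm q) = q.1 ^ 2 := by
      rw [Complex.normSq_eq_norm_sq, Complex.norm_polarCoord_symm, sq_abs]
    rw [this, Complex.real_smul, mul_one]
  simp_rw [h1]
  rw [polarCoord_target, Measure.volume_eq_prod,
    setIntegral_prod_mul (fun r : ℝ => (r : ℂ) * φ (r ^ 2)) (fun _ : ℝ => (1 : ℂ))]
  have h2 : ∫ _y in Ioo (-Real.pi) Real.pi, (1 : ℂ) = 2 * Real.pi := by
    rw [setIntegral_const, Measure.real, Real.volume_Ioo, ENNReal.toReal_ofReal (by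
      have := Real.pi_pos
      linarith), Complex.real_smul]
    push_cast
    ring
  rw [h2]
  have h3 := integral_comp_rpow_Ioi_of_pos (g := φ) (p := 2) (by norm_num)
  have h4 : ∫ x in Ioi (0 : ℝ), (2 * x ^ ((2 : ℝ) - 1)) • φ (x ^ (2 : ℝ))
      = 2 * ∫ x in Ioi (0 : ℝ), (x : ℂ) * φ (x ^ 2) := by
    rw [← integral_const_mul]
    refine setIntegral_congr_fun measurableSet_Ioi (fun x _ => ?_)
    have e : (2 : ℝ) - 1 = 1 := by norm_num
    simp only [e, Real.rpow_one, Real.rpow_two, Complex.real_smul]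
    push_cast
    ring
  rw [h4] at h3
  rw [← h3]
  ring

theorem sqrt_nsq (z : ℂ) : √(Complex.normSq z) = ‖z‖ := rfl

theorem sqrt_exp (x : ℝ) (t : ℝ) (ht : 0 < t) : Real.exp (Real.log t / 2 + x) = √(t * Real.exp (2 * x)) := by
  rw [← Real.sqrt_sq (Real.exp_pos (Real.log t / 2 + x)).le]
  congr 1
  rw [← Real.exp_nat_mul]
  push_cast
  have : (2 : ℝ) * (Real.log t / 2 + x) = Real.log t + 2 * x := by ring
  rw [this, Real.exp_add, Real.exp_log ht]

/-- the radial part -/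
noncomputable def rd (f : 𝓢(ℂ, ℂ)) (t : ℝ) : ℂ := f ((√t : ℝ) : ℂ)

theorem rd_cont (f : 𝓢(ℂ, ℂ)) : Continuous (rd f) :=
  f.continuous.comp (Complex.continuous_ofReal.comp Real.continuous_sqrt)

theorem Ann_rad {f : 𝓢(ℂ, ℂ)} (hA : Ann f) : ∃ r R : ℝ, 0 < r ∧ 0 < R ∧ (∀ z : ℂ, ‖z‖ ≤ r → f z = 0) ∧
    ∀ z : ℂ, R ≤ ‖z‖ → f z = 0 := by
  obtain ⟨hc, r, hr, hz⟩ := hA
  obtain ⟨R, hR⟩ := hc.isCompact.isBounded.subset_closedBall 0
  refine ⟨r, max R 0 + 1, hr, by positivity, hz, fun z hz => ?_⟩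
  by_contra h
  have h1 : z ∈ tsupport f := subset_tsupport f (Function.mem_support.2 h)
  have h2 := hR h1
  rw [mem_closedBall_zero_iff] at h2
  have := le_max_left R 0
  linarith

theorem rd_Ha {f : 𝓢(ℂ, ℂ)} (hA : Ann f) : Ha (rd f) := by
  obtain ⟨r, R, hr, hR0, hz, hR⟩ := Ann_rad hA
  have h0 : ∀ x, x ≤ r ^ 2 → rd f x = 0 := by
    intro x hx
    unfold rd
    rw [hz]
    rw [Complex.norm_real, Real.norm_of_nonneg (Real.sqrt_nonneg _)]
    exact Real.sqrt_le_iff.2 ⟨hr.le, hx⟩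
  have h1 : ∀ x, R ^ 2 ≤ x → rd f x = 0 := by
    intro x hx
    unfold rd
    rw [hR]
    rw [Complex.norm_real, Real.norm_of_nonneg (Real.sqrt_nonneg _)]
    exact Real.le_sqrt_of_sq_le hx
  refine ⟨?_, ?_, r ^ 2, by positivity, h0⟩
  · rw [contDiff_iff_contDiffAt]
    intro x
    rcases lt_or_ge x (r ^ 2) with hx | hx
    · refine (contDiffAt_const (c := (0 : ℂ))).congr_of_eventuallyEq ?_
      filter_upwards [Iio_mem_nhds hx] with y hy
      exact h0 y (le_of_lt hy)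
    · have hx0 : 0 < x := by
        have : 0 < r ^ 2 := by positivity
        linarith
      have e1 : ContDiffAt ℝ ∞ (fun x : ℝ => ((√x : ℝ) : ℂ)) x :=
        Complex.ofRealCLM.contDiff.contDiffAt.comp x (Real.contDiffAt_sqrt hx0.ne')
      exact ((f.smooth ⊤).contDiffAt).comp x e1
  · refine HasCompactSupport.intro (isCompact_Icc (a := r ^ 2) (b := R ^ 2)) fun x hx => ?_
    rw [mem_Icc, not_and_or, not_le, not_le] at hx
    rcases hx with hx | hx
    · exact h0 x hx.le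
    · exact h1 x hx.le

theorem Ha_rad {G : ℝ → ℂ} (hG : Ha G) : ∃ r R : ℝ, 0 < r ∧ 0 < R ∧ (∀ x, x ≤ r → G x = 0) ∧
    (∀ x, R ≤ x → G x = 0) ∧ ∃ M : ℝ, 0 ≤ M ∧ ∀ x, ‖G x‖ ≤ M := by
  obtain ⟨hs, hc, r, hr, hz⟩ := hG
  obtain ⟨R, hR⟩ := hc.isCompact.isBounded.subset_closedBall 0
  obtain ⟨M, hM⟩ := hs.continuous.bounded_above_of_compact_support hc
  refine ⟨r, max R 0 + 1, hr, by positivity, hz, fun x hx => ?_, M, (norm_nonneg _).trans (hM 0), hM⟩
  by_contra h
  have h1 : x ∈ tsupport G := subset_tsupport G (Function.mem_support.2 h)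
  have h2 := hR h1
  rw [mem_closedBall_zero_iff, Real.norm_eq_abs] at h2
  have := le_max_left R 0
  have := le_abs_self x
  linarith

theorem zpow_smooth (m : ℤ) {z : ℂ} (hz : z ≠ 0) : ContDiffAt ℝ ∞ (fun z : ℂ => z ^ m) z := by
  rcases m with k | k
  · simpa using (contDiff_id.pow k).contDiffAt
  · simp only [zpow_negSucc]
    exact ContDiffAt.inv ((contDiff_id.pow (k + 1)).contDiffAt) (pow_ne_zero _ hz)

/-- functions of a class with prescribed radial part -/
theorem mk (m : ℤ) {G : ℝ → ℂ} (hG : Ha G) : ∃ f : 𝓢(ℂ, ℂ), Cl m f ∧ Ann f ∧ ∀ t, 0 < t → rd f t = G t := by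
  obtain ⟨r, R, hr, hR0, hz, hR, -⟩ := Ha_rad hG
  obtain ⟨F, hF⟩ : ∃ F : ℂ → ℂ, F = fun z => (z / (‖z‖ : ℂ)) ^ m * G (Complex.normSq z) := ⟨_, rfl⟩
  have hns : ContDiff ℝ ∞ (Complex.normSq : ℂ → ℝ) := by
    have e : (Complex.normSq : ℂ → ℝ) = fun z => z.re * z.re + z.im * z.im := by
      funext z
      exact Complex.normSq_apply z
    rw [e]
    exact (Complex.reCLM.contDiff.mul Complex.reCLM.contDiff).add
      (Complex.imCLM.contDiff.mul Complex.imCLM.contDiff)
  have hs : ContDiff ℝ ∞ F := by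
    rw [contDiff_iff_contDiffAt]
    intro z
    rcases eq_or_ne z 0 with h0 | h0
    · subst h0
      refine (contDiffAt_const (c := (0 : ℂ))).congr_of_eventuallyEq ?_
      have h1 : ∀ᶠ z : ℂ in 𝓝 0, Complex.normSq z < r := by
        have := Complex.continuous_normSq.tendsto (0 : ℂ)
        rw [map_zero] at this
        exact this.eventually (Iio_mem_nhds hr)
      filter_upwards [h1] with y hy
      rw [hF]
      simp only
      rw [hz _ hy.le, mul_zero]
    · rw [hF]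
      refine ContDiffAt.mul ?_ ((hG.1.comp hns).contDiffAt)
      have h1 : ContDiffAt ℝ ∞ (fun z : ℂ => z / (‖z‖ : ℂ)) z := by
        simp only [div_eq_mul_inv]
        refine contDiffAt_id.mul (ContDiffAt.inv ?_ (Complex.ofReal_ne_zero.2 (norm_ne_zero_iff.2 h0)))
        exact Complex.ofRealCLM.contDiff.contDiffAt.comp z (contDiffAt_norm ℝ h0)
      have h2 : z / (‖z‖ : ℂ) ≠ 0 := div_ne_zero h0 (Complex.ofReal_ne_zero.2 (norm_ne_zero_iff.2 h0))
      exact (zpow_smooth m h2).comp z h1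
  have hc : HasCompactSupport F := by
    refine HasCompactSupport.intro (isCompact_closedBall (0 : ℂ) (R + 1)) fun w hw => ?_
    rw [Metric.mem_closedBall, dist_zero_right, not_le] at hw
    rw [hF]
    simp only
    rw [hR, mul_zero]
    rw [Complex.normSq_eq_norm_sq]
    nlinarith
  refine ⟨hc.toSchwartzMap hs, ?_, ⟨hc, √r, Real.sqrt_pos.2 hr, fun z hz' => ?_⟩, fun t ht => ?_⟩
  · intro a z ha
    show F (a * z) = a ^ m * F z
    rw [hF]
    simp only
    have e : Complex.normSq (a * z) = Complex.normSq z := by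
      rw [map_mul, Complex.normSq_eq_norm_sq a, ha]
      ring
    rw [e, norm_mul, ha, one_mul, mul_div_assoc, mul_zpow, mul_assoc]
  · show F z = 0
    rw [hF]
    simp only
    rw [hz, mul_zero]
    rw [Complex.normSq_eq_norm_sq]
    calc ‖z‖ ^ 2 ≤ √r ^ 2 := pow_le_pow_left₀ (norm_nonneg _) hz' 2
      _ = r := Real.sq_sqrt hr.le
  · show F ((√t : ℝ) : ℂ) = G t
    rw [hF]
    simp only
    have h1 : 0 < √t := Real.sqrt_pos.2 ht
    rw [Complex.norm_real, Real.norm_of_nonneg h1.le, div_self (Complex.ofReal_ne_zero.2 h1.ne'),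
      one_zpow, one_mul, Complex.normSq_ofReal, Real.mul_self_sqrt ht.le]

theorem W_int {κ : ℝ → ℝ} (hκ : Continuous κ) (hi : IntegrableOn κ (Ioi 0)) (ε : ℝ) {G : ℝ → ℂ}
    (hG : Continuous G) {M : ℝ} (hM : ∀ x, ‖G x‖ ≤ M) (x : ℝ) :
    IntegrableOn (fun y : ℝ => (κ y : ℂ) * G (x * Real.exp (ε * y))) (Ioi 0) := by
  refine (hi.norm.mul_const M).mono' ?_ (Eventually.of_forall fun y => ?_)
  · exact ((Complex.continuous_ofReal.comp hκ).mul (hG.comp (by fun_prop))).aestronglyMeasurable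
  · rw [norm_mul, Complex.norm_real]
    gcongr
    exact hM _

theorem W_cont {κ : ℝ → ℝ} (hκ : Continuous κ) (hi : IntegrableOn κ (Ioi 0)) (ε : ℝ) {G : ℝ → ℂ}
    (hG : Continuous G) {M : ℝ} (hM : ∀ x, ‖G x‖ ≤ M) : Continuous (W κ ε G) := by
  unfold W
  refine hG.sub ?_
  refine continuous_of_dominated (bound := fun y => ‖κ y‖ * M) (fun x => ?_) (fun x => ?_)
    (hi.norm.mul_const M) ?_
  · exact (W_int hκ hi ε hG hM x).aestronglyMeasurable
  · refine Eventually.of_forall fun y => ?_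
    rw [norm_mul, Complex.norm_real]
    gcongr
    exact hM _
  · refine Eventually.of_forall fun y => ?_
    exact continuous_const.mul (hG.comp (by fun_prop))

end Pool.Agent.D0H14.BC
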