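import Pool.Agent.D0H14.BC.In

/-! The representation for the modes `m < n`, by transposition: the end. -/

set_option autoImplicit false

open MeasureTheory Set Filter Topology
open scoped SchwartzMap ContDiff

namespace Pool.Agent.D0H14.BC

open Pool.Agent.Y282.RB (Tn)

theorem swap {κ : ℝ → ℝ} (hκ : Continuous κ) (hi : IntegrableOn κ (Ioi 0)) {A G : ℝ → ℂ}
    (hA : Ha A) (hG : Ha G) :
    ∫ t in Ioi (0 : ℝ), A t * ∫ y in Ioi (0 : ℝ), ((κ y * Real.exp (2 * y) : ℝ) : ℂ) *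
      G (t * Real.exp (2 * y)) =
    ∫ s in Ioi (0 : ℝ), G s * ∫ y in Ioi (0 : ℝ), (κ y : ℂ) * A (s * Real.exp (-2 * y)) := by
  obtain ⟨rA, RA, hrA, hRA, a1, a2, MA, hMA0, hMA⟩ := Ha_rad hA
  obtain ⟨rG, RG, hrG, hRG, g1, g2, MG, hMG0, hMG⟩ := Ha_rad hG
  have cA : Continuous A := hA.1.continuous
  have cG : Continuous G := hG.1.continuous
  have iA : IntegrableOn (fun t => ‖A t‖) (Ioi 0) :=
    (cA.integrable_of_hasCompactSupport hA.2.1).norm.integrableOn
  have iG : IntegrableOn (fun t => ‖G t‖) (Ioi 0) :=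
    (cG.integrable_of_hasCompactSupport hG.2.1).norm.integrableOn
  have I1 : Integrable (Function.uncurry fun t y : ℝ => A t * (((κ y * Real.exp (2 * y) : ℝ) : ℂ) *
      G (t * Real.exp (2 * y)))) ((volume.restrict (Ioi (0 : ℝ))).prod (volume.restrict (Ioi (0 : ℝ)))) := by
    have hb := (iA.mul_const (MG * (RG / rA))).mul_prod hi.norm
    refine hb.mono' ?_ (Eventually.of_forall fun z => ?_)
    · apply Continuous.aestronglyMeasurable
      unfold Function.uncurry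
      fun_prop
    · unfold Function.uncurry
      simp only
      rw [norm_mul, norm_mul, Complex.norm_real, norm_mul]
      by_cases h1 : z.1 ≤ rA
      · rw [a1 _ h1]; simp
      by_cases h2 : RG ≤ z.1 * Real.exp (2 * z.2)
      · rw [g2 _ h2]
        simp only [norm_zero, mul_zero]
        positivity
      push Not at h1 h2
      have h3 : ‖Real.exp (2 * z.2)‖ ≤ RG / rA := by
        rw [Real.norm_of_nonneg (Real.exp_pos _).le, le_div_iff₀ hrA]
        nlinarith [Real.exp_pos (2 * z.2)]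
      calc ‖A z.1‖ * (‖κ z.2‖ * ‖Real.exp (2 * z.2)‖ * ‖G (z.1 * Real.exp (2 * z.2))‖)
          ≤ ‖A z.1‖ * (‖κ z.2‖ * (RG / rA) * MG) := by
            gcongr
            exact hMG _
        _ = ‖A z.1‖ * (MG * (RG / rA)) * ‖κ z.2‖ := by ring
  have I2 : Integrable (Function.uncurry fun s y : ℝ => G s * ((κ y : ℂ) * A (s * Real.exp (-2 * y))))
      ((volume.restrict (Ioi (0 : ℝ))).prod (volume.restrict (Ioi (0 : ℝ)))) := by
    have hb := (iG.mul_const MA).mul_prod hi.norm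
    refine hb.mono' ?_ (Eventually.of_forall fun z => ?_)
    · apply Continuous.aestronglyMeasurable
      unfold Function.uncurry
      fun_prop
    · unfold Function.uncurry
      simp only
      rw [norm_mul, norm_mul, Complex.norm_real]
      calc ‖G z.1‖ * (‖κ z.2‖ * ‖A (z.1 * Real.exp (-2 * z.2))‖)
          ≤ ‖G z.1‖ * (‖κ z.2‖ * MA) := by
            gcongr
            exact hMA _
        _ = ‖G z.1‖ * MA * ‖κ z.2‖ := by ring
  have e1 : ∀ t : ℝ, A t * ∫ y in Ioi (0 : ℝ), ((κ y * Real.exp (2 * y) : ℝ) : ℂ) *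
      G (t * Real.exp (2 * y)) = ∫ y in Ioi (0 : ℝ), A t * (((κ y * Real.exp (2 * y) : ℝ) : ℂ) *
      G (t * Real.exp (2 * y))) := fun t => (integral_const_mul _ _).symm
  have e2 : ∀ s : ℝ, G s * ∫ y in Ioi (0 : ℝ), (κ y : ℂ) * A (s * Real.exp (-2 * y)) =
      ∫ y in Ioi (0 : ℝ), G s * ((κ y : ℂ) * A (s * Real.exp (-2 * y))) :=
    fun t => (integral_const_mul _ _).symm
  simp only [e1, e2]
  rw [integral_integral_swap I1, integral_integral_swap I2]
  congr 1
  funext y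
  have h3 := integral_comp_mul_right_Ioi (fun s : ℝ => A (s * Real.exp (-2 * y)) * G s) 0
    (Real.exp_pos (2 * y))
  rw [zero_mul] at h3
  have h4 : ∀ t : ℝ, t * Real.exp (2 * y) * Real.exp (-2 * y) = t := by
    intro t
    rw [mul_assoc, ← Real.exp_add]
    have : 2 * y + -2 * y = 0 := by ring
    rw [this, Real.exp_zero, mul_one]
  simp only [h4] at h3
  have h5 : ∫ t in Ioi (0 : ℝ), A t * (((κ y * Real.exp (2 * y) : ℝ) : ℂ) * G (t * Real.exp (2 * y))) =
      ((κ y * Real.exp (2 * y) : ℝ) : ℂ) * ∫ t in Ioi (0 : ℝ), A t * G (t * Real.exp (2 * y)) := by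
    rw [← integral_const_mul]
    congr 1
    funext t
    ring
  have h6 : ∫ s in Ioi (0 : ℝ), G s * ((κ y : ℂ) * A (s * Real.exp (-2 * y))) =
      (κ y : ℂ) * ∫ s in Ioi (0 : ℝ), A (s * Real.exp (-2 * y)) * G s := by
    rw [← integral_const_mul]
    congr 1
    funext t
    ring
  rw [h5, h6, h3, Complex.real_smul]
  generalize ∫ s in Ioi (0 : ℝ), A (s * Real.exp (-2 * y)) * G s = J
  have h7 : (Real.exp (2 * y) : ℂ) ≠ 0 := Complex.ofReal_ne_zero.2 (Real.exp_pos _).ne'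
  push_cast
  field_simp

theorem to_t {κ : ℝ → ℝ} {f : 𝓢(ℂ, ℂ)} {F : ℂ → ℂ} (h : ∀ x : ℝ, F ((Real.exp x : ℝ) : ℂ) =
    f ((Real.exp x : ℝ) : ℂ) - ∫ y in Ioi (0 : ℝ), (κ y : ℂ) * f ((Real.exp (x + y) : ℝ) : ℂ))
    {t : ℝ} (ht : 0 < t) : F ((√t : ℝ) : ℂ) =
      rd f t - ∫ y in Ioi (0 : ℝ), (κ y : ℂ) * rd f (t * Real.exp (2 * y)) := by
  have h1 := h (Real.log t / 2)
  have h2 : Real.exp (Real.log t / 2) = √t := by
    have := sqrt_exp 0 t ht
    simpa using this
  simp only [sqrt_exp _ t ht] at h1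
  rw [h2] at h1
  exact h1

theorem inn (hTR : S_TR) (n : ℕ) (m : ℤ) (hn : 1 ≤ n) (hm : m < n) : ∃ κ : ℝ → ℝ,
    Continuous κ ∧ IntegrableOn κ (Ioi 0) ∧ 1 + ∫ y in Ioi (0 : ℝ), |κ y| ≤ Real.exp (hh n) ∧
    ∀ f : 𝓢(ℂ, ℂ), Cl m f → Ann f → ∀ t : ℝ, 0 < t → Tn n f ((√t : ℝ) : ℂ) = W κ (-2) (rd f) t := by
  obtain ⟨m', hm'⟩ : ∃ m' : ℕ, (m' : ℤ) = 2 * n - m := ⟨(2 * n - m).toNat, by omega⟩
  obtain ⟨κ, hκ, hi, hB, hF⟩ := outB n m' hn (by omega)
  refine ⟨κ, hκ, hi, hB, fun f hf hA => ?_⟩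
  have hfa := rd_Ha hA
  obtain ⟨_, _, _, _, _, _, M, hM0, hM⟩ := Ha_rad hfa
  have cT : Continuous fun t : ℝ => Tn n f ((√t : ℝ) : ℂ) :=
    (Tn_cont n f).comp (Complex.continuous_ofReal.comp Real.continuous_sqrt)
  have cW : Continuous (W κ (-2) (rd f)) := W_cont hκ hi _ hfa.1.continuous hM
  have cD : Continuous fun t : ℝ => Tn n f ((√t : ℝ) : ℂ) - W κ (-2) (rd f) t := cT.sub cW
  have key : ∀ χ : ℝ → ℝ, ContDiff ℝ ∞ χ → HasCompactSupport χ → tsupport χ ⊆ Ioi 0 →
      ∫ t, χ t • (Tn n f ((√t : ℝ) : ℂ) - W κ (-2) (rd f) t) = 0 := by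
    intro χ h1 h2 h3
    obtain ⟨G, hGd⟩ : ∃ G : ℝ → ℂ, G = fun t => (χ t : ℂ) := ⟨_, rfl⟩
    have hG : Ha G := by
      rw [hGd]
      refine ⟨Complex.ofRealCLM.contDiff.comp h1, h2.comp_left (g := fun y : ℝ => (y : ℂ)) (by simp), ?_⟩
      rcases (tsupport χ).eq_empty_or_nonempty with he | he
      · refine ⟨1, one_pos, fun x _ => ?_⟩
        have : χ x = 0 := by
          by_contra hx
          have := subset_tsupport χ (Function.mem_support.2 hx)
          rw [he] at this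
          exact this
        show ((χ x : ℝ) : ℂ) = 0
        rw [this, Complex.ofReal_zero]
      · obtain ⟨x0, hx0, hmin⟩ := h2.isCompact.exists_isMinOn he continuousOn_id
        have hx0' : 0 < x0 := h3 hx0
        refine ⟨x0 / 2, by positivity, fun x hx => ?_⟩
        have : χ x = 0 := by
          by_contra hx'
          have := hmin (subset_tsupport χ (Function.mem_support.2 hx'))
          simp only [id] at this
          change x0 ≤ x at this
          linarith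
        show ((χ x : ℝ) : ℂ) = 0
        rw [this, Complex.ofReal_zero]
    obtain ⟨g, hg1, hg2, hg3⟩ := mk (m' : ℤ) hG
    have hgf := (hF g hg1 hg2).2
    have hTg : ∀ t, 0 < t → Tn n g ((√t : ℝ) : ℂ) = rd g t - ∫ y in Ioi (0 : ℝ),
        ((κ y * Real.exp (2 * y) : ℝ) : ℂ) * rd g (t * Real.exp (2 * y)) :=
      fun t ht => to_t hgf ht
    have hcf := Tn_class n hf
    have hcg := Tn_class n hg1
    -- polar coordinates
    have P : ∀ {a b : ℤ} {F H : ℂ → ℂ}, a + b = 0 → Cl a F → Cl b H →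
        ∫ z, F z * H z = (Real.pi : ℂ) * ∫ t in Ioi (0 : ℝ), F ((√t : ℝ) : ℂ) * H ((√t : ℝ) : ℂ) := by
      intro a b F H hab hF' hH'
      rw [← int_nsq (fun t => F ((√t : ℝ) : ℂ) * H ((√t : ℝ) : ℂ))]
      refine integral_congr_ae ?_
      have h0 : ∀ᵐ z : ℂ, z ≠ 0 := by
        rw [ae_iff]
        simp
      filter_upwards [h0] with z hz
      rw [sqrt_nsq]
      have hn' : (‖z‖ : ℂ) ≠ 0 := Complex.ofReal_ne_zero.2 (norm_ne_zero_iff.2 hz)
      have ha : ‖z / (‖z‖ : ℂ)‖ = 1 := by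
        rw [norm_div, Complex.norm_real, norm_norm]
        exact div_self (norm_ne_zero_iff.2 hz)
      have f3 := hF' (z / (‖z‖ : ℂ)) (‖z‖ : ℂ) ha
      have h3' := hH' (z / (‖z‖ : ℂ)) (‖z‖ : ℂ) ha
      rw [div_mul_cancel₀ _ hn'] at f3 h3'
      have ha0 : z / (‖z‖ : ℂ) ≠ 0 := div_ne_zero hz hn'
      rw [f3, h3', mul_mul_mul_comm, ← zpow_add₀ ha0, hab, zpow_zero, one_mul]
    have hTRf := hTR n f g
    rw [P (by rw [hm']; ring) hcf hg1, P (by rw [hm']; ring) hf hcg] at hTRf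
    have hpi : (Real.pi : ℂ) ≠ 0 := Complex.ofReal_ne_zero.2 Real.pi_ne_zero
    have hT2 := mul_left_cancel₀ hpi hTRf
    -- rewrite both sides
    have L1 : ∫ t in Ioi (0 : ℝ), Tn n f ((√t : ℝ) : ℂ) * g ((√t : ℝ) : ℂ) =
        ∫ t in Ioi (0 : ℝ), Tn n f ((√t : ℝ) : ℂ) * G t := by
      refine setIntegral_congr_fun measurableSet_Ioi fun t ht => ?_
      rw [← hg3 t ht]
      rfl
    have cG : Continuous G := hG.1.continuous
    obtain ⟨_, _, _, _, _, _, N, hN0, hN⟩ := Ha_rad hG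
    have R1 : ∫ t in Ioi (0 : ℝ), f ((√t : ℝ) : ℂ) * Tn n g ((√t : ℝ) : ℂ) =
        (∫ t in Ioi (0 : ℝ), rd f t * G t) - ∫ t in Ioi (0 : ℝ), rd f t * ∫ y in Ioi (0 : ℝ),
          ((κ y * Real.exp (2 * y) : ℝ) : ℂ) * G (t * Real.exp (2 * y)) := by
      have cL : Continuous fun t : ℝ => f ((√t : ℝ) : ℂ) * Tn n g ((√t : ℝ) : ℂ) :=
        (rd_cont f).mul ((Tn_cont n g).comp (Complex.continuous_ofReal.comp Real.continuous_sqrt))
      have sL : HasCompactSupport fun t : ℝ => f ((√t : ℝ) : ℂ) * Tn n g ((√t : ℝ) : ℂ) :=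
        hfa.2.1.mul_right (f' := fun t : ℝ => Tn n g ((√t : ℝ) : ℂ))
      have cM : Continuous fun t : ℝ => rd f t * G t := (rd_cont f).mul cG
      have sM : HasCompactSupport fun t : ℝ => rd f t * G t := hfa.2.1.mul_right
      have iL : IntegrableOn (fun t : ℝ => f ((√t : ℝ) : ℂ) * Tn n g ((√t : ℝ) : ℂ)) (Ioi 0) :=
        (cL.integrable_of_hasCompactSupport sL).integrableOn
      have iM : IntegrableOn (fun t : ℝ => rd f t * G t) (Ioi 0) :=
        (cM.integrable_of_hasCompactSupport sM).integrableOn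
      have eq : ∀ t ∈ Ioi (0 : ℝ), rd f t * ∫ y in Ioi (0 : ℝ),
          ((κ y * Real.exp (2 * y) : ℝ) : ℂ) * G (t * Real.exp (2 * y)) =
          rd f t * G t - f ((√t : ℝ) : ℂ) * Tn n g ((√t : ℝ) : ℂ) := by
        intro t ht
        have h5 := hTg t ht
        rw [hg3 t ht] at h5
        have h6 : ∫ y in Ioi (0 : ℝ), ((κ y * Real.exp (2 * y) : ℝ) : ℂ) * rd g (t * Real.exp (2 * y)) =
            ∫ y in Ioi (0 : ℝ), ((κ y * Real.exp (2 * y) : ℝ) : ℂ) * G (t * Real.exp (2 * y)) := by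
          refine setIntegral_congr_fun measurableSet_Ioi fun y _ => ?_
          rw [hg3 _ (mul_pos ht (Real.exp_pos _))]
        rw [h6] at h5
        rw [h5]
        unfold rd
        ring
      rw [setIntegral_congr_fun measurableSet_Ioi eq, integral_sub iM iL]
      ring
    rw [L1, R1, swap hκ hi hfa hG] at hT2
    -- conclude
    have cM : Continuous fun t : ℝ => rd f t * G t := (rd_cont f).mul cG
    have sM : HasCompactSupport fun t : ℝ => rd f t * G t := hfa.2.1.mul_right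
    have cD2 : Continuous fun t : ℝ => G t * (Tn n f ((√t : ℝ) : ℂ) - W κ (-2) (rd f) t) := cG.mul cD
    have hGs : HasCompactSupport G := hG.2.1
    have i1 : IntegrableOn (fun t : ℝ => rd f t * G t) (Ioi 0) :=
      (cM.integrable_of_hasCompactSupport sM).integrableOn
    have i2 : IntegrableOn (fun t : ℝ => Tn n f ((√t : ℝ) : ℂ) * G t) (Ioi 0) :=
      ((cT.mul cG).integrable_of_hasCompactSupport hGs.mul_left).integrableOn
    have i3 : IntegrableOn (fun t : ℝ => G t * (Tn n f ((√t : ℝ) : ℂ) - W κ (-2) (rd f) t)) (Ioi 0) :=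
      (cD2.integrable_of_hasCompactSupport hGs.mul_right).integrableOn
    have eq3 : ∀ s ∈ Ioi (0 : ℝ), G s * ∫ y in Ioi (0 : ℝ), (κ y : ℂ) * rd f (s * Real.exp (-2 * y)) =
        rd f s * G s - Tn n f ((√s : ℝ) : ℂ) * G s +
          G s * (Tn n f ((√s : ℝ) : ℂ) - W κ (-2) (rd f) s) := by
      intro s _
      unfold W
      ring
    have i12 : IntegrableOn (fun t : ℝ => rd f t * G t - Tn n f ((√t : ℝ) : ℂ) * G t) (Ioi 0) :=
      i1.sub i2
    rw [setIntegral_congr_fun measurableSet_Ioi eq3, integral_add i12 i3,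
      integral_sub i1 i2] at hT2
    have hfin : ∫ t in Ioi (0 : ℝ), G t * (Tn n f ((√t : ℝ) : ℂ) - W κ (-2) (rd f) t) = 0 := by
      linear_combination hT2
    have hall : ∫ t, χ t • (Tn n f ((√t : ℝ) : ℂ) - W κ (-2) (rd f) t) =
        ∫ t in Ioi (0 : ℝ), χ t • (Tn n f ((√t : ℝ) : ℂ) - W κ (-2) (rd f) t) := by
      symm
      refine setIntegral_eq_integral_of_forall_compl_eq_zero fun t ht => ?_
      have : χ t = 0 := by
        by_contra hx
        exact ht (h3 (subset_tsupport χ (Function.mem_support.2 hx)))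
      rw [this, zero_smul]
    rw [hall, ← hfin, hGd]
    refine setIntegral_congr_fun measurableSet_Ioi fun t _ => ?_
    simp only
    rw [Complex.real_smul]
  have hae := isOpen_Ioi.ae_eq_zero_of_integral_contDiff_smul_eq_zero
    (cD.locallyIntegrable.locallyIntegrableOn (Ioi (0 : ℝ))) key
  have hEq : EqOn (fun t : ℝ => Tn n f ((√t : ℝ) : ℂ)) (W κ (-2) (rd f)) (Ioi 0) := by
    refine Measure.eqOn_open_of_ae_eq (μ := volume) ?_ isOpen_Ioi cT.continuousOn cW.continuousOn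
    rw [Filter.EventuallyEq, ae_restrict_iff' measurableSet_Ioi]
    filter_upwards [hae] with t ht h
    exact sub_eq_zero.1 (ht h)
  exact fun t ht => hEq ht

end Pool.Agent.D0H14.BC
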