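import Pool.Agent.D0H14.BC.Stm
import Pool.Agent.R227.IT1

/-! INT, first file: the matrix inequality with the sup norm as end point. -/

set_option autoImplicit false

open MeasureTheory Set Filter Topology
open scoped ENNReal ContDiff

namespace Pool.Agent.D0H14.BC.Int

theorem rtinf {B p : ℝ} (hB : 1 ≤ B) (hp : 2 ≤ p) (S S' : Finset ℤ) (k : ℤ → ℤ → ℂ)
    (H0 : ∀ a : ℤ → ℂ, ∑ m ∈ S', ‖∑ n ∈ S, a n * k m n‖ ^ (2 : ℝ) ≤ ∑ n ∈ S, ‖a n‖ ^ (2 : ℝ))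
    (H1 : ∀ (a : ℤ → ℂ) (M : ℝ), (∀ n ∈ S, ‖a n‖ ≤ M) → ∀ m ∈ S', ‖∑ n ∈ S, a n * k m n‖ ≤ B * M)
    (a : ℤ → ℂ) :
    ∑ m ∈ S', ‖∑ n ∈ S, a n * k m n‖ ^ p ≤ B ^ (p - 2) * ∑ n ∈ S, ‖a n‖ ^ p := by
  have hB0 : 0 < B := by linarith
  have hp0 : 0 < p := by linarith
  rcases hp.eq_or_lt with h | h
  · subst h
    have := H0 a
    simpa using this
  rcases S'.eq_empty_or_nonempty with he | he
  · subst he
    rw [Finset.sum_empty]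
    positivity
  have hc : 0 < (S'.card : ℝ) := by exact_mod_cast he.card_pos
  set c : ℝ := (S'.card : ℝ) with hcd
  have hA : 0 ≤ ∑ n ∈ S, ‖a n‖ ^ p := Finset.sum_nonneg fun n _ => by positivity
  -- the bound for finite p₁
  have key : ∀ p₁ : ℝ, p < p₁ → ∑ m ∈ S', ‖∑ n ∈ S, a n * k m n‖ ^ p ≤
      ((B * c ^ (1 / p₁)) ^ (1 - (1 / p - 1 / p₁) / (1 / 2 - 1 / p₁)) *
        1 ^ ((1 / p - 1 / p₁) / (1 / 2 - 1 / p₁))) ^ p * ∑ n ∈ S, ‖a n‖ ^ p := by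
    intro p₁ hp1
    have hp10 : 0 < p₁ := by linarith
    refine Pool.Agent.R227.IT.rt2 2 p₁ p 1 (B * c ^ (1 / p₁)) (by norm_num) h hp1 (by norm_num)
      (by positivity) S S' k (fun b => by simpa using H0 b) (fun b => ?_) _ rfl a
    have hb : 0 ≤ ∑ n ∈ S, ‖b n‖ ^ p₁ := Finset.sum_nonneg fun n _ => by positivity
    have hM : ∀ n ∈ S, ‖b n‖ ≤ (∑ n ∈ S, ‖b n‖ ^ p₁) ^ (1 / p₁) := by
      intro n hn
      have h1 : ‖b n‖ ^ p₁ ≤ ∑ n ∈ S, ‖b n‖ ^ p₁ :=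
        Finset.single_le_sum (f := fun n => ‖b n‖ ^ p₁) (fun i _ => by positivity) hn
      calc ‖b n‖ = (‖b n‖ ^ p₁) ^ (1 / p₁) := by
            rw [← Real.rpow_mul (norm_nonneg _), mul_one_div_cancel hp10.ne', Real.rpow_one]
        _ ≤ _ := by gcongr
    calc ∑ m ∈ S', ‖∑ n ∈ S, b n * k m n‖ ^ p₁
        ≤ ∑ m ∈ S', (B * (∑ n ∈ S, ‖b n‖ ^ p₁) ^ (1 / p₁)) ^ p₁ :=
          Finset.sum_le_sum fun m hm =>
            Real.rpow_le_rpow (norm_nonneg _) (H1 b _ hM m hm) hp10.le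
      _ = (B * c ^ (1 / p₁)) ^ p₁ * ∑ n ∈ S, ‖b n‖ ^ p₁ := by
          rw [Finset.sum_const, nsmul_eq_mul, Real.mul_rpow hB0.le (by positivity),
            Real.mul_rpow hB0.le (by positivity), ← Real.rpow_mul hb, ← Real.rpow_mul hc.le,
            one_div_mul_cancel hp10.ne', Real.rpow_one, Real.rpow_one]
          ring
  -- the limit
  have l1 : Tendsto (fun p₁ : ℝ => 1 / p₁) atTop (𝓝 0) := by
    simpa using tendsto_inv_atTop_zero (𝕜 := ℝ)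
  have l2 : Tendsto (fun p₁ : ℝ => 1 - (1 / p - 1 / p₁) / (1 / 2 - 1 / p₁)) atTop
      (𝓝 (1 - (1 / p - 0) / (1 / 2 - 0))) :=
    tendsto_const_nhds.sub ((tendsto_const_nhds.sub l1).div (tendsto_const_nhds.sub l1) (by norm_num))
  have l3 : Tendsto (fun p₁ : ℝ => B * c ^ (1 / p₁)) atTop (𝓝 (B * c ^ (0 : ℝ))) :=
    tendsto_const_nhds.mul ((Real.continuousAt_const_rpow hc.ne').tendsto.comp l1)
  have l4 : Tendsto (fun p₁ : ℝ => (((B * c ^ (1 / p₁)) ^ (1 - (1 / p - 1 / p₁) / (1 / 2 - 1 / p₁)) *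
        1 ^ ((1 / p - 1 / p₁) / (1 / 2 - 1 / p₁))) ^ p * ∑ n ∈ S, ‖a n‖ ^ p)) atTop
      (𝓝 (((B * c ^ (0 : ℝ)) ^ (1 - (1 / p - 0) / (1 / 2 - 0)) * 1) ^ p * ∑ n ∈ S, ‖a n‖ ^ p)) := by
    refine Tendsto.mul ?_ tendsto_const_nhds
    refine Tendsto.rpow_const (Tendsto.mul ?_ ?_) (Or.inr hp0.le)
    · refine l3.rpow l2 (Or.inl ?_)
      rw [Real.rpow_zero, mul_one]
      exact hB0.ne'
    · simp only [Real.one_rpow]
      exact tendsto_const_nhds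
  have l5 := ge_of_tendsto l4 (by
    filter_upwards [eventually_gt_atTop p] with p₁ hp1
    exact key p₁ hp1)
  refine l5.trans (le_of_eq ?_)
  congr 1
  rw [Real.rpow_zero, mul_one, mul_one, ← Real.rpow_mul hB0.le]
  congr 1
  field_simp
  ring

end Pool.Agent.D0H14.BC.Int
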