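import Pool.Agent.D0H14.BC.IntA

/-! INT, second file: cells, averages, step functions. -/

set_option autoImplicit false

open MeasureTheory Set Filter Topology
open scoped ENNReal ContDiff

namespace Pool.Agent.D0H14.BC.Int

/-- the cells -/
def cell (N : ℕ) (i : ℤ) : Set ℝ := Ico ((i : ℝ) / N) (((i : ℝ) + 1) / N)

theorem mem_cell {N : ℕ} (hN : 1 ≤ N) (i : ℤ) (x : ℝ) : x ∈ cell N i ↔ ⌊(N : ℝ) * x⌋ = i := by
  have hN0 : (0 : ℝ) < N := by exact_mod_cast hN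
  rw [Int.floor_eq_iff]
  unfold cell
  rw [mem_Ico, div_le_iff₀ hN0, lt_div_iff₀ hN0, mul_comm x]

theorem cell_meas (N : ℕ) (i : ℤ) : MeasurableSet (cell N i) := measurableSet_Ico

theorem cell_vol {N : ℕ} (hN : 1 ≤ N) (i : ℤ) : volume (cell N i) = ENNReal.ofReal (1 / N) := by
  unfold cell
  rw [Real.volume_Ico]
  congr 1
  ring

/-- averages over the cells -/
noncomputable def av (N : ℕ) (i : ℤ) (H : ℝ → ℂ) : ℂ := (N : ℂ) * ∫ x in cell N i, H x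

theorem av_sq {N : ℕ} (hN : 1 ≤ N) (i : ℤ) {H : ℝ → ℂ} (hH : Measurable H) :
    ‖av N i H‖ₑ ^ (2 : ℝ) ≤ N * ∫⁻ x in cell N i, ‖H x‖ₑ ^ (2 : ℝ) := by
  have hN0 : (0 : ℝ) < N := by exact_mod_cast hN
  have h1 : ‖av N i H‖ₑ ≤ N * ∫⁻ x in cell N i, ‖H x‖ₑ := by
    unfold av
    rw [enorm_mul]
    refine mul_le_mul' (le_of_eq ?_) (enorm_integral_le_lintegral_enorm _)
    rw [← ofReal_norm, Complex.norm_natCast, ENNReal.ofReal_natCast]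
  have h2 : ∫⁻ x in cell N i, ‖H x‖ₑ ≤ (∫⁻ x in cell N i, ‖H x‖ₑ ^ (2 : ℝ)) ^ (1 / (2 : ℝ)) *
      (ENNReal.ofReal (1 / N)) ^ (1 / (2 : ℝ)) := by
    have h3 := ENNReal.lintegral_mul_le_Lp_mul_Lq (volume.restrict (cell N i))
      (p := 2) (q := 2) Real.HolderConjugate.two_two
      (f := fun x => ‖H x‖ₑ) (g := fun _ => 1) hH.enorm.aemeasurable aemeasurable_const
    have e : ((fun x => ‖H x‖ₑ) * fun _ => (1 : ℝ≥0∞)) = fun x => ‖H x‖ₑ := by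
      funext x
      simp
    rw [e] at h3
    simpa [cell_vol hN i] using h3
  calc ‖av N i H‖ₑ ^ (2 : ℝ) ≤ (N * ((∫⁻ x in cell N i, ‖H x‖ₑ ^ (2 : ℝ)) ^ (1 / (2 : ℝ)) *
      (ENNReal.ofReal (1 / N)) ^ (1 / (2 : ℝ)))) ^ (2 : ℝ) :=
        ENNReal.rpow_le_rpow (h1.trans (by gcongr)) (by norm_num)
    _ = ((N : ℝ≥0∞) ^ (2 : ℝ) * ENNReal.ofReal (1 / N)) * ∫⁻ x in cell N i, ‖H x‖ₑ ^ (2 : ℝ) := by
        rw [ENNReal.mul_rpow_of_nonneg _ _ (by norm_num), ENNReal.mul_rpow_of_nonneg _ _ (by norm_num),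
          ← ENNReal.rpow_mul, ← ENNReal.rpow_mul]
        norm_num
        ring
    _ = N * ∫⁻ x in cell N i, ‖H x‖ₑ ^ (2 : ℝ) := by
        congr 1
        have e1 : (N : ℝ≥0∞) = ENNReal.ofReal N := (ENNReal.ofReal_natCast N).symm
        rw [e1, ENNReal.ofReal_rpow_of_nonneg hN0.le (by norm_num),
          ← ENNReal.ofReal_mul (by positivity)]
        congr 1
        rw [Real.rpow_two]
        field_simp

theorem cell_disj {N : ℕ} (hN : 1 ≤ N) (S : Finset ℤ) :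
    Set.PairwiseDisjoint (S : Set ℤ) (cell N) := by
  intro i _ j _ hij
  rw [Function.onFun, Set.disjoint_left]
  intro x hx hx'
  rw [mem_cell hN] at hx hx'
  exact hij (hx.symm.trans hx')

theorem sum_cell {N : ℕ} (hN : 1 ≤ N) {S : Finset ℤ} (hS : ∀ i ∈ S, 1 ≤ i) (f : ℝ → ℝ≥0∞) :
    ∑ i ∈ S, ∫⁻ x in cell N i, f x ≤ ∫⁻ x in Ioi (0 : ℝ), f x := by
  rw [← lintegral_biUnion_finset (cell_disj hN S) (fun i _ => cell_meas N i)]
  refine lintegral_mono_set ?_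
  intro x hx
  simp only [mem_iUnion] at hx
  obtain ⟨i, hi, hx⟩ := hx
  have h1 : (1 : ℝ) ≤ i := by exact_mod_cast hS i hi
  have hN0 : (0 : ℝ) < N := by exact_mod_cast hN
  exact lt_of_lt_of_le (by positivity) hx.1

theorem av_sum_sq {N : ℕ} (hN : 1 ≤ N) {S : Finset ℤ} (hS : ∀ i ∈ S, 1 ≤ i) {H : ℝ → ℂ}
    (hH : Measurable H) :
    ∑ i ∈ S, ‖av N i H‖ₑ ^ (2 : ℝ) ≤ N * ∫⁻ x in Ioi (0 : ℝ), ‖H x‖ₑ ^ (2 : ℝ) := by
  calc ∑ i ∈ S, ‖av N i H‖ₑ ^ (2 : ℝ) ≤ ∑ i ∈ S, N * ∫⁻ x in cell N i, ‖H x‖ₑ ^ (2 : ℝ) :=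
        Finset.sum_le_sum fun i _ => av_sq hN i hH
    _ = N * ∑ i ∈ S, ∫⁻ x in cell N i, ‖H x‖ₑ ^ (2 : ℝ) := by rw [Finset.mul_sum]
    _ ≤ _ := by
        gcongr
        exact sum_cell hN hS _

/-- indicator of a cell -/
noncomputable def ee (N : ℕ) (i : ℤ) (x : ℝ) : ℂ := if ⌊(N : ℝ) * x⌋ = i then 1 else 0

theorem ee_meas (N : ℕ) (i : ℤ) : Measurable (ee N i) := by
  unfold ee
  refine Measurable.ite ?_ measurable_const measurable_const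
  have h : Measurable fun x : ℝ => ⌊(N : ℝ) * x⌋ := Int.measurable_floor.comp (measurable_const_mul _)
  exact h (measurableSet_singleton i)

theorem ee_norm (N : ℕ) (i : ℤ) (x : ℝ) : ‖ee N i x‖ ≤ 1 := by
  unfold ee
  split_ifs <;> simp

/-- step functions -/
noncomputable def St (N : ℕ) (S : Finset ℤ) (a : ℤ → ℂ) (x : ℝ) : ℂ := ∑ i ∈ S, a i * ee N i x

theorem St_eq (N : ℕ) (S : Finset ℤ) (a : ℤ → ℂ) (x : ℝ) :
    St N S a x = if ⌊(N : ℝ) * x⌋ ∈ S then a ⌊(N : ℝ) * x⌋ else 0 := by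
  unfold St ee
  simp

theorem St_meas (N : ℕ) (S : Finset ℤ) (a : ℤ → ℂ) : Measurable (St N S a) := by
  unfold St
  exact Finset.measurable_fun_sum S fun i _ => (ee_meas N i).const_mul _

theorem St_norm (N : ℕ) (S : Finset ℤ) (a : ℤ → ℂ) {M : ℝ} (hM0 : 0 ≤ M) (hM : ∀ i ∈ S, ‖a i‖ ≤ M) (x : ℝ) :
    ‖St N S a x‖ ≤ M := by
  rw [St_eq]
  split_ifs with h
  · exact hM _ h
  · simpa using hM0

theorem St_lint {N : ℕ} (hN : 1 ≤ N) {S : Finset ℤ} (hS : ∀ i ∈ S, 1 ≤ i) (a : ℤ → ℂ) {q : ℝ}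
    (hq : 0 < q) : N * ∫⁻ x in Ioi (0 : ℝ), ‖St N S a x‖ₑ ^ q = ∑ i ∈ S, ‖a i‖ₑ ^ q := by
  have hN0 : (0 : ℝ) < N := by exact_mod_cast hN
  have h1 : ∫⁻ x in Ioi (0 : ℝ), ‖St N S a x‖ₑ ^ q = ∫⁻ x in ⋃ i ∈ S, cell N i, ‖St N S a x‖ₑ ^ q := by
    have h2 : (Ioi (0 : ℝ)) = (⋃ i ∈ S, cell N i) ∪ (Ioi (0 : ℝ) \ ⋃ i ∈ S, cell N i) := by
      rw [union_diff_cancel]
      intro x hx
      simp only [mem_iUnion] at hx
      obtain ⟨i, hi, hx⟩ := hx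
      have h1 : (1 : ℝ) ≤ i := by exact_mod_cast hS i hi
      exact lt_of_lt_of_le (by positivity) hx.1
    have hm : MeasurableSet (⋃ i ∈ S, cell N i) := S.measurableSet_biUnion fun i _ => cell_meas N i
    nth_rw 1 [h2]
    rw [lintegral_union (measurableSet_Ioi.diff hm) disjoint_sdiff_right]
    have h3 : ∫⁻ x in Ioi (0 : ℝ) \ ⋃ i ∈ S, cell N i, ‖St N S a x‖ₑ ^ q = 0 := by
      rw [setLIntegral_congr_fun (g := fun _ => 0) (measurableSet_Ioi.diff hm) ?_]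
      · simp
      · intro x hx
        simp only
        rw [St_eq, if_neg]
        · simp [hq]
        · intro h
          apply hx.2
          simp only [mem_iUnion]
          exact ⟨_, h, (mem_cell hN _ x).2 rfl⟩
    rw [h3, add_zero]
  rw [h1, lintegral_biUnion_finset (cell_disj hN S) (fun i _ => cell_meas N i), Finset.mul_sum]
  refine Finset.sum_congr rfl fun i hi => ?_
  have h4 : ∫⁻ x in cell N i, ‖St N S a x‖ₑ ^ q = ∫⁻ _ in cell N i, ‖a i‖ₑ ^ q := by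
    refine setLIntegral_congr_fun (cell_meas N i) fun x hx => ?_
    rw [St_eq, (mem_cell hN i x).1 hx, if_pos hi]
  rw [h4, setLIntegral_const, cell_vol hN, mul_comm (‖a i‖ₑ ^ q), ← mul_assoc]
  have e1 : (N : ℝ≥0∞) = ENNReal.ofReal N := (ENNReal.ofReal_natCast N).symm
  rw [e1, ← ENNReal.ofReal_mul hN0.le, mul_one_div_cancel hN0.ne', ENNReal.ofReal_one, one_mul]

end Pool.Agent.D0H14.BC.Int
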