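import Pool.Agent.D0H14.BC.IntB
import Pool.Agent.D0H14.BC.In

/-! INT, third file: smooth approximation of step functions; the discrete inequality. -/

set_option autoImplicit false

open MeasureTheory Set Filter Topology
open scoped ENNReal ContDiff

namespace Pool.Agent.D0H14.BC.Int

open Pool.Agent.D0H14.BC (W Ha W_cont W_int)

/-! ### the operator on bounded functions -/

theorem Wint {κ : ℝ → ℝ} (hκ : Continuous κ) (hi : IntegrableOn κ (Ioi 0)) (ε : ℝ) {G : ℝ → ℂ}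
    (hG : Measurable G) {M : ℝ} (hM : ∀ x, ‖G x‖ ≤ M) (x : ℝ) :
    IntegrableOn (fun y : ℝ => (κ y : ℂ) * G (x * Real.exp (ε * y))) (Ioi 0) := by
  refine (hi.norm.mul_const M).mono' ?_ (Eventually.of_forall fun y => ?_)
  · apply Measurable.aestronglyMeasurable
    exact (Complex.measurable_ofReal.comp hκ.measurable).mul (hG.comp (by fun_prop))
  · rw [norm_mul, Complex.norm_real]
    gcongr
    exact hM _

theorem Wbound {κ : ℝ → ℝ} {B : ℝ} (hκ : Continuous κ) (hi : IntegrableOn κ (Ioi 0))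
    (hB : 1 + ∫ y in Ioi (0 : ℝ), |κ y| ≤ B) (ε : ℝ) {G : ℝ → ℂ}
    (hG : Measurable G) {M : ℝ} (hM0 : 0 ≤ M) (hM : ∀ x, ‖G x‖ ≤ M) (x : ℝ) :
    ‖W κ ε G x‖ ≤ B * M := by
  unfold W
  have h1 : ‖∫ y in Ioi (0 : ℝ), (κ y : ℂ) * G (x * Real.exp (ε * y))‖ ≤
      ∫ y in Ioi (0 : ℝ), |κ y| * M := by
    refine (norm_integral_le_integral_norm _).trans ?_
    refine integral_mono_of_nonneg (Eventually.of_forall fun y => norm_nonneg _)
      (hi.abs.mul_const M) (Eventually.of_forall fun y => ?_)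
    simp only
    rw [norm_mul, Complex.norm_real, Real.norm_eq_abs]
    gcongr
    exact hM _
  rw [integral_mul_const] at h1
  calc ‖G x - ∫ y in Ioi (0 : ℝ), (κ y : ℂ) * G (x * Real.exp (ε * y))‖
      ≤ ‖G x‖ + ‖∫ y in Ioi (0 : ℝ), (κ y : ℂ) * G (x * Real.exp (ε * y))‖ := norm_sub_le _ _
    _ ≤ M + (∫ y in Ioi (0 : ℝ), |κ y|) * M := add_le_add (hM x) h1
    _ = (1 + ∫ y in Ioi (0 : ℝ), |κ y|) * M := by ring
    _ ≤ B * M := by gcongr

theorem Wtend {κ : ℝ → ℝ} (hκ : Continuous κ) (hi : IntegrableOn κ (Ioi 0)) (ε : ℝ)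
    {F : ℕ → ℝ → ℂ} {G : ℝ → ℂ} (hF : ∀ j, Measurable (F j)) {M : ℝ} (hM : ∀ j x, ‖F j x‖ ≤ M)
    (ht : ∀ x, Tendsto (fun j => F j x) atTop (𝓝 (G x))) (x : ℝ) :
    Tendsto (fun j => W κ ε (F j) x) atTop (𝓝 (W κ ε G x)) := by
  unfold W
  refine (ht x).sub ?_
  refine tendsto_integral_of_dominated_convergence (fun y => ‖κ y‖ * M) (fun j => ?_)
    (hi.norm.mul_const M) (fun j => Eventually.of_forall fun y => ?_)
    (Eventually.of_forall fun y => ?_)
  · exact (Wint hκ hi ε (hF j) (hM j) x).aestronglyMeasurable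
  · rw [norm_mul, Complex.norm_real]
    gcongr
    exact hM _ _
  · exact tendsto_const_nhds.mul (ht _)

theorem Wsum {κ : ℝ → ℝ} (hκ : Continuous κ) (hi : IntegrableOn κ (Ioi 0)) (ε : ℝ) (N : ℕ)
    (S : Finset ℤ) (a : ℤ → ℂ) (x : ℝ) :
    W κ ε (St N S a) x = ∑ i ∈ S, a i * W κ ε (ee N i) x := by
  unfold W St
  have h1 : ∀ y : ℝ, (κ y : ℂ) * ∑ i ∈ S, a i * ee N i (x * Real.exp (ε * y)) =
      ∑ i ∈ S, a i * ((κ y : ℂ) * ee N i (x * Real.exp (ε * y))) := by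
    intro y
    rw [Finset.mul_sum]
    exact Finset.sum_congr rfl fun i _ => by ring
  simp only [h1]
  rw [integral_finsetSum S fun i _ => (Wint hκ hi ε (ee_meas N i) (ee_norm N i) x).const_mul _,
    ← Finset.sum_sub_distrib]
  refine Finset.sum_congr rfl fun i _ => ?_
  rw [integral_const_mul]
  ring

/-! ### smooth approximation -/

noncomputable def sg (N j : ℕ) (s : ℝ) : ℝ := Real.smoothTransition (1 + ((j : ℝ) + 2 * N) * s)

theorem sg_one {N j : ℕ} {s : ℝ} (hs : 0 ≤ s) : sg N j s = 1 := by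
  unfold sg
  apply Real.smoothTransition.one_of_one_le
  have : 0 ≤ ((j : ℝ) + 2 * N) * s := by positivity
  linarith

theorem sg_zero {N j : ℕ} {s : ℝ} (hs : 1 + ((j : ℝ) + 2 * N) * s ≤ 0) : sg N j s = 0 :=
  Real.smoothTransition.zero_of_nonpos hs

theorem sg_tend (N : ℕ) (s : ℝ) : Tendsto (fun j => sg N j s) atTop (𝓝 (if 0 ≤ s then 1 else 0)) := by
  split_ifs with h
  · exact tendsto_const_nhds.congr fun j => (sg_one h).symm
  · push Not at h
    refine tendsto_const_nhds.congr' ?_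
    obtain ⟨j0, hj0⟩ := exists_nat_ge (-1 / s)
    filter_upwards [eventually_ge_atTop j0] with j hj
    refine (sg_zero ?_).symm
    have h1 : (j0 : ℝ) ≤ j := by exact_mod_cast hj
    have h2 : -1 / s ≤ j := hj0.trans h1
    have h3 : (j : ℝ) * s ≤ -1 := by
      rw [div_le_iff_of_neg h] at h2
      linarith
    have h4 : 2 * (N : ℝ) * s ≤ 0 := by
      have : (0 : ℝ) ≤ N := Nat.cast_nonneg N
      nlinarith
    nlinarith

noncomputable def ch (N j : ℕ) (i : ℤ) (x : ℝ) : ℂ :=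
  ((sg N j (x - i / N) - sg N j (x - (i + 1) / N) : ℝ) : ℂ)

theorem ch_tend {N : ℕ} (hN : 1 ≤ N) (i : ℤ) (x : ℝ) :
    Tendsto (fun j => ch N j i x) atTop (𝓝 (ee N i x)) := by
  have h1 : Tendsto (fun j => ch N j i x) atTop
      (𝓝 (((if 0 ≤ x - i / N then 1 else 0) - (if 0 ≤ x - (i + 1) / N then 1 else 0) : ℝ) : ℂ)) :=
    (Complex.continuous_ofReal.tendsto _).comp ((sg_tend N _).sub (sg_tend N _))
  have hN0 : (0 : ℝ) < N := by exact_mod_cast hN
  have hlt : (i : ℝ) / N < (i + 1) / N := by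
    apply div_lt_div_of_pos_right _ hN0
    linarith
  have h2 : ee N i x = (((if 0 ≤ x - i / N then 1 else 0) -
      (if 0 ≤ x - (i + 1) / N then 1 else 0) : ℝ) : ℂ) := by
    have hm := mem_cell hN i x
    unfold cell at hm
    unfold ee
    by_cases c1 : (i : ℝ) / N ≤ x
    · by_cases c2 : ((i : ℝ) + 1) / N ≤ x
      · rw [if_neg, if_pos (by linarith), if_pos (by linarith)]
        · simp
        · rw [← hm]
          intro h
          exact absurd h.2 (not_lt.2 c2)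
      · rw [if_pos, if_pos (by linarith), if_neg (by linarith)]
        · simp
        · rw [← hm]
          exact ⟨c1, not_le.1 c2⟩
    · rw [if_neg, if_neg (by linarith), if_neg (by
        intro h
        apply c1
        linarith)]
      · simp
      · rw [← hm]
        intro h
        exact c1 h.1
  rw [h2]
  exact h1

theorem sg_smooth (N j : ℕ) : ContDiff ℝ ∞ (sg N j) := by
  unfold sg
  exact Real.smoothTransition.contDiff.comp (contDiff_const.add (contDiff_const.mul contDiff_id))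

theorem ch_smooth (N j : ℕ) (i : ℤ) : ContDiff ℝ ∞ (ch N j i) := by
  unfold ch
  refine Complex.ofRealCLM.contDiff.comp (ContDiff.sub ?_ ?_)
  · exact (sg_smooth N j).comp (contDiff_id.sub contDiff_const)
  · exact (sg_smooth N j).comp (contDiff_id.sub contDiff_const)

theorem ch_norm (N j : ℕ) (i : ℤ) (x : ℝ) : ‖ch N j i x‖ ≤ 1 := by
  unfold ch
  rw [Complex.norm_real, Real.norm_eq_abs, abs_le]
  unfold sg
  constructor <;> linarith [Real.smoothTransition.nonneg (1 + ((j : ℝ) + 2 * N) * (x - i / N)),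
    Real.smoothTransition.le_one (1 + ((j : ℝ) + 2 * N) * (x - i / N)),
    Real.smoothTransition.nonneg (1 + ((j : ℝ) + 2 * N) * (x - (i + 1) / N)),
    Real.smoothTransition.le_one (1 + ((j : ℝ) + 2 * N) * (x - (i + 1) / N))]

theorem ch_left {N j : ℕ} (hN : 1 ≤ N) {i : ℤ} (hi : 1 ≤ i) {x : ℝ} (hx : x ≤ 1 / (2 * N)) :
    ch N j i x = 0 := by
  have hN0 : (0 : ℝ) < N := by exact_mod_cast hN
  have hi1 : (1 : ℝ) ≤ i := by exact_mod_cast hi
  have hj : (0 : ℝ) ≤ j := Nat.cast_nonneg j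
  have key : ∀ c : ℝ, 1 ≤ c → 1 + ((j : ℝ) + 2 * N) * (x - c / N) ≤ 0 := by
    intro c hc
    have h1 : x - c / N ≤ -(1 / (2 * N)) := by
      have : 1 / (N : ℝ) ≤ c / N := by gcongr
      have e : 1 / (N : ℝ) = 1 / (2 * N) + 1 / (2 * N) := by field_simp; norm_num
      linarith
    have h2 : ((j : ℝ) + 2 * N) * (x - c / N) ≤ (2 * N) * (-(1 / (2 * N))) := by
      have h3 : x - c / N ≤ 0 := h1.trans (by
        have : (0 : ℝ) ≤ 1 / (2 * N) := by positivity
        linarith)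
      nlinarith
    have h4 : (2 * (N : ℝ)) * (-(1 / (2 * N))) = -1 := by field_simp
    linarith
  unfold ch
  rw [sg_zero (key _ hi1), sg_zero (key _ (by linarith))]
  simp

theorem ch_right {N j : ℕ} {i : ℤ} {x : ℝ} (hN : 1 ≤ N) (hx : ((i : ℝ) + 1) / N ≤ x) : ch N j i x = 0 := by
  have hN0 : (0 : ℝ) < N := by exact_mod_cast hN
  have hlt : (i : ℝ) / N ≤ (i + 1) / N := by
    gcongr
    linarith
  unfold ch
  rw [sg_one (by linarith), sg_one (by linarith)]
  simp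

noncomputable def Fj (N j : ℕ) (S : Finset ℤ) (a : ℤ → ℂ) (x : ℝ) : ℂ := ∑ i ∈ S, a i * ch N j i x

theorem Fj_tend {N : ℕ} (hN : 1 ≤ N) (S : Finset ℤ) (a : ℤ → ℂ) (x : ℝ) :
    Tendsto (fun j => Fj N j S a x) atTop (𝓝 (St N S a x)) :=
  tendsto_finsetSum _ fun i _ => tendsto_const_nhds.mul (ch_tend hN i x)

theorem Fj_smooth (N j : ℕ) (S : Finset ℤ) (a : ℤ → ℂ) : ContDiff ℝ ∞ (Fj N j S a) := by
  unfold Fj
  exact ContDiff.sum fun i _ => contDiff_const.mul (ch_smooth N j i)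

theorem Fj_norm (N j : ℕ) (S : Finset ℤ) (a : ℤ → ℂ) (x : ℝ) : ‖Fj N j S a x‖ ≤ ∑ i ∈ S, ‖a i‖ := by
  unfold Fj
  refine (norm_sum_le _ _).trans (Finset.sum_le_sum fun i _ => ?_)
  rw [norm_mul]
  exact mul_le_of_le_one_right (norm_nonneg _) (ch_norm N j i x)

theorem ex_R (N : ℕ) (S : Finset ℤ) : ∃ R : ℝ, ∀ i ∈ S, ((i : ℝ) + 1) / N ≤ R := by
  refine ⟨∑ i ∈ S, |((i : ℝ) + 1) / N|, fun i hi => ?_⟩
  exact (le_abs_self _).trans
    (Finset.single_le_sum (f := fun i : ℤ => |((i : ℝ) + 1) / N|) (fun _ _ => abs_nonneg _) hi)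

theorem Fj_Ha {N : ℕ} (hN : 1 ≤ N) (j : ℕ) {S : Finset ℤ} (hS : ∀ i ∈ S, 1 ≤ i) (a : ℤ → ℂ) :
    Ha (Fj N j S a) := by
  obtain ⟨R, hR⟩ := ex_R N S
  have hN0 : (0 : ℝ) < N := by exact_mod_cast hN
  refine ⟨Fj_smooth N j S a, ?_, 1 / (2 * N), by positivity, fun x hx => ?_⟩
  · refine HasCompactSupport.intro (isCompact_Icc (a := 1 / (2 * (N : ℝ))) (b := R)) fun x hx => ?_
    rw [mem_Icc, not_and_or, not_le, not_le] at hx
    unfold Fj
    refine Finset.sum_eq_zero fun i hi => ?_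
    rcases hx with hx | hx
    · rw [ch_left hN (hS i hi) hx.le, mul_zero]
    · rw [ch_right hN ((hR i hi).trans hx.le), mul_zero]
  · unfold Fj
    refine Finset.sum_eq_zero fun i hi => ?_
    rw [ch_left hN (hS i hi) hx, mul_zero]

theorem Wee_meas {κ : ℝ → ℝ} (hκ : Continuous κ) (hi : IntegrableOn κ (Ioi 0)) (ε : ℝ) {N : ℕ}
    (hN : 1 ≤ N) (i : ℤ) : Measurable (W κ ε (ee N i)) := by
  refine measurable_of_tendsto_metrizable (f := fun j => W κ ε (ch N j i)) (fun j => ?_) ?_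
  · exact (W_cont hκ hi ε (ch_smooth N j i).continuous (ch_norm N j i)).measurable
  · rw [tendsto_pi_nhds]
    exact fun x => Wtend hκ hi ε (fun j => (ch_smooth N j i).continuous.measurable)
      (fun j => ch_norm N j i) (ch_tend hN i) x

theorem WSt_meas {κ : ℝ → ℝ} (hκ : Continuous κ) (hi : IntegrableOn κ (Ioi 0)) (ε : ℝ) {N : ℕ}
    (hN : 1 ≤ N) (S : Finset ℤ) (a : ℤ → ℂ) : Measurable (W κ ε (St N S a)) := by
  have : W κ ε (St N S a) = fun x => ∑ i ∈ S, a i * W κ ε (ee N i) x :=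
    funext fun x => Wsum hκ hi ε N S a x
  rw [this]
  exact Finset.measurable_fun_sum S fun i _ => (Wee_meas hκ hi ε hN i).const_mul _

theorem cell_fin {N : ℕ} (hN : 1 ≤ N) (i : ℤ) : volume (cell N i) ≠ ⊤ := by
  rw [cell_vol hN]
  exact ENNReal.ofReal_ne_top

theorem cell_int {N : ℕ} (hN : 1 ≤ N) (i : ℤ) {H : ℝ → ℂ} (hH : Measurable H) {M : ℝ}
    (hM : ∀ x, ‖H x‖ ≤ M) : IntegrableOn H (cell N i) := by
  refine (integrableOn_const (C := M) (cell_fin hN i)).mono' hH.aestronglyMeasurable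
    (Eventually.of_forall hM)

theorem av_tend {N : ℕ} (hN : 1 ≤ N) (i : ℤ) {F : ℕ → ℝ → ℂ} {G : ℝ → ℂ} (hF : ∀ j, Measurable (F j))
    {M : ℝ} (hM : ∀ j x, ‖F j x‖ ≤ M) (ht : ∀ x, Tendsto (fun j => F j x) atTop (𝓝 (G x))) :
    Tendsto (fun j => av N i (F j)) atTop (𝓝 (av N i G)) := by
  unfold av
  refine tendsto_const_nhds.mul ?_
  exact tendsto_integral_of_dominated_convergence (fun _ => M)
    (fun j => (hF j).aestronglyMeasurable) (integrableOn_const (C := M) (cell_fin hN i))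
    (fun j => Eventually.of_forall (hM j)) (Eventually.of_forall ht)

theorem av_norm {N : ℕ} (hN : 1 ≤ N) (i : ℤ) {H : ℝ → ℂ} {M : ℝ} (hM : ∀ x ∈ cell N i, ‖H x‖ ≤ M) :
    ‖av N i H‖ ≤ M := by
  have hN0 : (0 : ℝ) < N := by exact_mod_cast hN
  unfold av
  rw [norm_mul, Complex.norm_natCast]
  have h1 := norm_setIntegral_le_of_norm_le_const (lt_top_iff_ne_top.2 (cell_fin hN i)) hM
  rw [Measure.real, cell_vol hN, ENNReal.toReal_ofReal (by positivity)] at h1
  calc (N : ℝ) * ‖∫ x in cell N i, H x‖ ≤ N * (M * (1 / N)) := by gcongr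
    _ = M := by field_simp

theorem av_W {κ : ℝ → ℝ} {B : ℝ} (hκ : Continuous κ) (hi : IntegrableOn κ (Ioi 0))
    (hB : 1 + ∫ y in Ioi (0 : ℝ), |κ y| ≤ B) (ε : ℝ) {N : ℕ} (hN : 1 ≤ N) (S : Finset ℤ)
    (a : ℤ → ℂ) (m : ℤ) :
    av N m (W κ ε (St N S a)) = ∑ i ∈ S, a i * av N m (W κ ε (ee N i)) := by
  unfold av
  have h1 : W κ ε (St N S a) = fun x => ∑ i ∈ S, a i * W κ ε (ee N i) x :=
    funext fun x => Wsum hκ hi ε N S a x
  rw [h1, integral_finsetSum S fun i _ => ?_, Finset.mul_sum]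
  · refine Finset.sum_congr rfl fun i _ => ?_
    rw [integral_const_mul]
    ring
  · exact (cell_int hN m (Wee_meas hκ hi ε hN i)
      (Wbound hκ hi hB ε (ee_meas N i) zero_le_one (ee_norm N i))).const_mul _

end Pool.Agent.D0H14.BC.Int
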