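import Pool.Agent.D0H14.BC.IntC

/-! INT, fourth file: the discrete inequality and the limit. -/

set_option autoImplicit false

open MeasureTheory Set Filter Topology
open scoped ENNReal ContDiff

namespace Pool.Agent.D0H14.BC.Int

open Pool.Agent.D0H14.BC (W Ha W_cont W_int Ha_rad S_INT)

theorem conv {ι : Type} (S : Finset ι) (x : ι → ℂ) {q : ℝ} (hq : 0 < q) :
    ENNReal.ofReal (∑ m ∈ S, ‖x m‖ ^ q) = ∑ m ∈ S, ‖x m‖ₑ ^ q := by
  rw [ENNReal.ofReal_sum_of_nonneg fun m _ => by positivity]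
  refine Finset.sum_congr rfl fun m _ => ?_
  rw [← ENNReal.ofReal_rpow_of_nonneg (norm_nonneg _) hq.le, ofReal_norm]

theorem lint_tend {F : ℕ → ℝ → ℂ} {G : ℝ → ℂ} (hF : ∀ j, Measurable (F j)) {M R : ℝ}
    (hM : ∀ j x, ‖F j x‖ ≤ M) (hR : ∀ j x, R ≤ x → F j x = 0)
    (ht : ∀ x, Tendsto (fun j => F j x) atTop (𝓝 (G x))) {q : ℝ} (hq : 0 < q) :
    Tendsto (fun j => ∫⁻ x in Ioi (0 : ℝ), ‖F j x‖ₑ ^ q) atTop
      (𝓝 (∫⁻ x in Ioi (0 : ℝ), ‖G x‖ₑ ^ q)) := by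
  refine tendsto_lintegral_of_dominated_convergence
    (fun x => (Iio R).indicator (fun _ => ENNReal.ofReal M ^ q) x)
    (fun j => (hF j).enorm.pow_const q) (fun j => Eventually.of_forall fun x => ?_) ?_
    (Eventually.of_forall fun x => ?_)
  · simp only
    by_cases hx : x < R
    · rw [indicator_of_mem (show x ∈ Iio R from hx)]
      refine ENNReal.rpow_le_rpow ?_ hq.le
      rw [← ofReal_norm]
      exact ENNReal.ofReal_le_ofReal (hM j x)
    · rw [hR j x (not_lt.1 hx)]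
      simp [hq]
  · rw [lintegral_indicator measurableSet_Iio, Measure.restrict_restrict measurableSet_Iio,
      setLIntegral_const]
    refine ENNReal.mul_ne_top (ENNReal.rpow_ne_top_of_nonneg hq.le ENNReal.ofReal_ne_top) ?_
    have : Iio R ∩ Ioi 0 = Ioo 0 R := by
      ext x
      simp only [mem_inter_iff, mem_Iio, mem_Ioi, mem_Ioo]
      tauto
    rw [this, Real.volume_Ioo]
    exact ENNReal.ofReal_ne_top
  · exact ((ENNReal.continuous_rpow_const (y := q)).tendsto _).comp ((continuous_enorm.tendsto _).comp (ht x))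

variable {κ : ℝ → ℝ} {ε B : ℝ}

theorem L2step (hκ : Continuous κ) (hi : IntegrableOn κ (Ioi 0))
    (hB : 1 + ∫ y in Ioi (0 : ℝ), |κ y| ≤ B)
    (hL2 : ∀ G : ℝ → ℂ, Ha G →
      ∫⁻ x in Ioi (0 : ℝ), ‖W κ ε G x‖ₑ ^ (2 : ℝ) ≤ ∫⁻ x in Ioi (0 : ℝ), ‖G x‖ₑ ^ (2 : ℝ))
    {N : ℕ} (hN : 1 ≤ N) {S : Finset ℤ} (hS : ∀ i ∈ S, 1 ≤ i) (a : ℤ → ℂ) :
    ∑ m ∈ S, ‖av N m (W κ ε (St N S a))‖ₑ ^ (2 : ℝ) ≤ ∑ i ∈ S, ‖a i‖ₑ ^ (2 : ℝ) := by
  obtain ⟨R, hR⟩ := ex_R N S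
  have hM0 : 0 ≤ ∑ i ∈ S, ‖a i‖ := Finset.sum_nonneg fun _ _ => norm_nonneg _
  have hF0 : ∀ j x, R ≤ x → Fj N j S a x = 0 := by
    intro j x hx
    unfold Fj
    refine Finset.sum_eq_zero fun i hi => ?_
    rw [ch_right hN ((hR i hi).trans hx), mul_zero]
  have hWc : ∀ j, Measurable (W κ ε (Fj N j S a)) := fun j =>
    (W_cont hκ hi ε (Fj_smooth N j S a).continuous (Fj_norm N j S a)).measurable
  have hWb : ∀ j x, ‖W κ ε (Fj N j S a) x‖ ≤ B * ∑ i ∈ S, ‖a i‖ := fun j x =>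
    Wbound hκ hi hB ε (Fj_smooth N j S a).continuous.measurable hM0 (Fj_norm N j S a) x
  have hWt : ∀ x, Tendsto (fun j => W κ ε (Fj N j S a) x) atTop (𝓝 (W κ ε (St N S a) x)) := fun x =>
    Wtend hκ hi ε (fun j => (Fj_smooth N j S a).continuous.measurable) (fun j => Fj_norm N j S a)
      (Fj_tend hN S a) x
  have l1 : Tendsto (fun j => ∑ m ∈ S, ‖av N m (W κ ε (Fj N j S a))‖ₑ ^ (2 : ℝ)) atTop
      (𝓝 (∑ m ∈ S, ‖av N m (W κ ε (St N S a))‖ₑ ^ (2 : ℝ))) := by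
    refine tendsto_finsetSum _ fun m _ => ?_
    exact ((ENNReal.continuous_rpow_const (y := (2 : ℝ))).tendsto _).comp
      ((continuous_enorm.tendsto _).comp (av_tend hN m hWc hWb hWt))
  have l2 : Tendsto (fun j => (N : ℝ≥0∞) * ∫⁻ x in Ioi (0 : ℝ), ‖Fj N j S a x‖ₑ ^ (2 : ℝ)) atTop
      (𝓝 (N * ∫⁻ x in Ioi (0 : ℝ), ‖St N S a x‖ₑ ^ (2 : ℝ))) :=
    ENNReal.Tendsto.const_mul (lint_tend (fun j => (Fj_smooth N j S a).continuous.measurable)
      (fun j => Fj_norm N j S a) hF0 (Fj_tend hN S a) two_pos) (Or.inr (ENNReal.natCast_ne_top N))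
  rw [St_lint hN hS a two_pos] at l2
  refine le_of_tendsto_of_tendsto' l1 l2 fun j => ?_
  exact (av_sum_sq hN hS (hWc j)).trans (mul_le_mul_right (hL2 _ (Fj_Ha hN j hS a)) _)

theorem disc (hκ : Continuous κ) (hi : IntegrableOn κ (Ioi 0))
    (hB : 1 + ∫ y in Ioi (0 : ℝ), |κ y| ≤ B)
    (hL2 : ∀ G : ℝ → ℂ, Ha G →
      ∫⁻ x in Ioi (0 : ℝ), ‖W κ ε G x‖ₑ ^ (2 : ℝ) ≤ ∫⁻ x in Ioi (0 : ℝ), ‖G x‖ₑ ^ (2 : ℝ))
    {N : ℕ} (hN : 1 ≤ N) {S : Finset ℤ} (hS : ∀ i ∈ S, 1 ≤ i) {p : ℝ} (hp : 2 ≤ p) (a : ℤ → ℂ) :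
    ∑ m ∈ S, ‖av N m (W κ ε (St N S a))‖ₑ ^ p ≤
      ENNReal.ofReal (B ^ (p - 2)) * ∑ i ∈ S, ‖a i‖ₑ ^ p := by
  have hp0 : 0 < p := by linarith
  have hB1 : 1 ≤ B := by
    have : 0 ≤ ∫ y in Ioi (0 : ℝ), |κ y| := integral_nonneg fun y => abs_nonneg _
    linarith
  have hw := fun b m => av_W hκ hi hB ε hN S b m
  have key := rtinf hB1 hp S S (fun m n => av N m (W κ ε (ee N n))) (fun b => ?_) (fun b M hM m hm => ?_) a
  · simp only [← hw] at key
    have h1 := ENNReal.ofReal_le_ofReal key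
    rwa [conv S _ hp0, ENNReal.ofReal_mul (by positivity), conv S _ hp0] at h1
  · simp only [← hw]
    have h0 : 0 ≤ ∑ n ∈ S, ‖b n‖ ^ (2 : ℝ) := Finset.sum_nonneg fun _ _ => by positivity
    rw [← ENNReal.ofReal_le_ofReal_iff h0, conv S _ two_pos, conv S _ two_pos]
    exact L2step hκ hi hB hL2 hN hS b
  · simp only [← hw]
    have hM0 : 0 ≤ M := (norm_nonneg _).trans (hM m hm)
    exact av_norm hN m fun x _ => Wbound hκ hi hB ε (St_meas N S b) hM0 (St_norm N S b hM0 hM) x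

theorem W_sub (hκ : Continuous κ) (hi : IntegrableOn κ (Ioi 0)) (ε : ℝ) {F G : ℝ → ℂ}
    (hF : Measurable F) (hG : Measurable G) {M : ℝ} (hFM : ∀ x, ‖F x‖ ≤ M) (hGM : ∀ x, ‖G x‖ ≤ M)
    (x : ℝ) : W κ ε (fun x => F x - G x) x = W κ ε F x - W κ ε G x := by
  unfold W
  have e : ∀ y : ℝ, (κ y : ℂ) * (F (x * Real.exp (ε * y)) - G (x * Real.exp (ε * y))) =
      (κ y : ℂ) * F (x * Real.exp (ε * y)) - (κ y : ℂ) * G (x * Real.exp (ε * y)) := fun y => by ring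
  simp only [e]
  rw [integral_sub (Wint hκ hi ε hF hFM x) (Wint hκ hi ε hG hGM x)]
  ring

theorem av_sub_const {N : ℕ} (hN : 1 ≤ N) (m : ℤ) {H : ℝ → ℂ} (hH : Measurable H) {M : ℝ}
    (hM : ∀ x, ‖H x‖ ≤ M) (c : ℂ) : av N m H - c = av N m (fun x => H x - c) := by
  have hN0 : (0 : ℝ) < N := by exact_mod_cast hN
  have hN0' : (N : ℂ) ≠ 0 := by
    have : N ≠ 0 := by omega
    exact_mod_cast this
  unfold av
  rw [integral_sub (cell_int hN m hH hM) (integrableOn_const (cell_fin hN m)), setIntegral_const,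
    Measure.real, cell_vol hN, ENNReal.toReal_ofReal (by positivity), Complex.real_smul]
  push_cast
  field_simp

theorem t_INT : S_INT := by
  intro κ ε B p hκ hi hB hp hL2 G hG
  obtain ⟨r, R, hr, hR0, hGr, hGR, M, hM0, hM⟩ := Ha_rad hG
  have hp0 : 0 < p := by linarith
  have hGc : Continuous G := hG.1.continuous
  have hB1 : 1 ≤ B := by
    have : 0 ≤ ∫ y in Ioi (0 : ℝ), |κ y| := integral_nonneg fun y => abs_nonneg _
    linarith
  obtain ⟨C, hC⟩ := ContDiff.lipschitzWith_of_hasCompactSupport hG.2.1 hG.1 (by norm_num)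
  obtain ⟨n0, hn0, hn1⟩ : ∃ n0 : ℕ, R ≤ n0 ∧ 1 ≤ n0 :=
    ⟨⌈R⌉₊ + 1, by push_cast; linarith [Nat.le_ceil R], by omega⟩
  -- the steps
  obtain ⟨S, hSd⟩ : ∃ S : ℕ → Finset ℤ, S = fun N : ℕ => Finset.Icc (1 : ℤ) ((N : ℤ) * N) := ⟨_, rfl⟩
  have hS : ∀ N, ∀ i ∈ S N, 1 ≤ i := by
    intro N i hi
    rw [hSd] at hi
    exact (Finset.mem_Icc.1 hi).1
  obtain ⟨s, hsd⟩ : ∃ s : ℕ → ℝ → ℂ, s = fun N => St N (S N) fun i => G ((i : ℝ) / N) := ⟨_, rfl⟩
  have hs : ∀ N : ℕ, n0 ≤ N → ∀ x, s N x = G ((⌊(N : ℝ) * x⌋ : ℝ) / N) := by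
    intro N hN x
    have hN0 : (0 : ℝ) < N := by exact_mod_cast (show 0 < N by omega)
    have hNR : R ≤ N := hn0.trans (by exact_mod_cast hN)
    rw [hsd]
    simp only
    rw [St_eq]
    split_ifs with h
    · rfl
    · rw [hSd] at h
      simp only [Finset.mem_Icc, not_and_or, not_le] at h
      rcases h with h | h
      · symm
        apply hGr
        have h1 : (⌊(N : ℝ) * x⌋ : ℝ) ≤ 0 := by
          have : ⌊(N : ℝ) * x⌋ ≤ 0 := by omega
          exact_mod_cast this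
        have : (⌊(N : ℝ) * x⌋ : ℝ) / N ≤ 0 := div_nonpos_of_nonpos_of_nonneg h1 hN0.le
        linarith
      · symm
        apply hGR
        rw [le_div_iff₀ hN0]
        have h1 : ((N : ℝ) * N) ≤ (⌊(N : ℝ) * x⌋ : ℝ) := by exact_mod_cast h.le
        nlinarith
  have hfl : ∀ N : ℕ, n0 ≤ N → ∀ x : ℝ, (⌊(N : ℝ) * x⌋ : ℝ) / N ≤ x ∧ x - 1 / N ≤ (⌊(N : ℝ) * x⌋ : ℝ) / N := by
    intro N hN x
    have hN0 : (0 : ℝ) < N := by exact_mod_cast (show 0 < N by omega)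
    constructor
    · rw [div_le_iff₀ hN0]
      have := Int.floor_le ((N : ℝ) * x)
      linarith
    · rw [le_div_iff₀ hN0]
      have := Int.sub_one_lt_floor ((N : ℝ) * x)
      have e : (x - 1 / N) * N = N * x - 1 := by field_simp
      linarith
  have hsG : ∀ N : ℕ, n0 ≤ N → ∀ x, ‖s N x - G x‖ ≤ C / N := by
    intro N hN x
    have hN0 : (0 : ℝ) < N := by exact_mod_cast (show 0 < N by omega)
    rw [hs N hN x, ← dist_eq_norm]
    have hd : dist ((⌊(N : ℝ) * x⌋ : ℝ) / N) x ≤ 1 / N := by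
      rw [Real.dist_eq, abs_le]
      have := hfl N hN x
      constructor <;> linarith [show (0 : ℝ) ≤ 1 / N by positivity]
    calc dist (G ((⌊(N : ℝ) * x⌋ : ℝ) / N)) (G x) ≤ C * dist ((⌊(N : ℝ) * x⌋ : ℝ) / N) x :=
          hC.dist_le_mul _ _
      _ ≤ C * (1 / N) := mul_le_mul_of_nonneg_left hd C.2
      _ = C / N := by ring
  have hsm : ∀ N, Measurable (s N) := by
    intro N
    rw [hsd]
    exact St_meas N (S N) _
  have hsM : ∀ N x, ‖s N x‖ ≤ M := by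
    intro N x
    rw [hsd]
    exact St_norm N (S N) _ hM0 (fun i _ => hM _) x
  have hWG : Continuous (W κ ε G) := W_cont hκ hi ε hGc hM
  -- the averages
  obtain ⟨E, hEd⟩ : ∃ E : ℕ → ℝ → ℂ, E = fun N => St N (S N) fun m => av N m (W κ ε (s N)) := ⟨_, rfl⟩
  have hWsm : ∀ N, n0 ≤ N → Measurable (W κ ε (s N)) := by
    intro N hN
    rw [hsd]
    exact WSt_meas hκ hi ε (hn1.trans hN) (S N) _
  have hE : ∀ x, 0 < x → Tendsto (fun N => E N x) atTop (𝓝 (W κ ε G x)) := by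
    intro x hx
    rw [Metric.tendsto_atTop]
    intro δ hδ
    obtain ⟨η, hη, hηc⟩ := Metric.continuous_iff.1 hWG x (δ / 2) (by positivity)
    obtain ⟨n2, hn2⟩ := exists_nat_gt (max (max (1 / x) x) (max (1 / η) (2 * (B * C) / δ)))
    refine ⟨max n0 n2, fun N hN => ?_⟩
    have hNn0 : n0 ≤ N := (le_max_left _ _).trans hN
    have hNn2 : (n2 : ℝ) ≤ N := by exact_mod_cast (le_max_right _ _).trans hN
    have hN0 : (0 : ℝ) < N := by exact_mod_cast (show 0 < N by omega)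
    have b1 : 1 / x < N := lt_of_le_of_lt ((le_max_left _ _).trans (le_max_left _ _)) (hn2.trans_le hNn2)
    have b2 : x < N := lt_of_le_of_lt ((le_max_right _ _).trans (le_max_left _ _)) (hn2.trans_le hNn2)
    have b3 : 1 / η < N := lt_of_le_of_lt ((le_max_left _ _).trans (le_max_right _ _)) (hn2.trans_le hNn2)
    have b4 : 2 * (B * C) / δ < N :=
      lt_of_le_of_lt ((le_max_right _ _).trans (le_max_right _ _)) (hn2.trans_le hNn2)
    have hmem : ⌊(N : ℝ) * x⌋ ∈ S N := by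
      rw [hSd]
      simp only [Finset.mem_Icc]
      constructor
      · rw [Int.le_floor]
        rw [div_lt_iff₀ hx] at b1
        push_cast
        exact b1.le
      · have h1 := Int.floor_le ((N : ℝ) * x)
        have h2 : (⌊(N : ℝ) * x⌋ : ℝ) ≤ (N : ℝ) * N := by nlinarith
        exact_mod_cast h2
    have hEx : E N x = av N ⌊(N : ℝ) * x⌋ (W κ ε (s N)) := by
      rw [hEd]
      simp only
      rw [St_eq, if_pos hmem]
    have hN1 : 1 ≤ N := hn1.trans hNn0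
    have hWb : ∀ y, ‖W κ ε (s N) y‖ ≤ B * M := Wbound hκ hi hB ε (hsm N) hM0 (hsM N)
    rw [dist_eq_norm, hEx, av_sub_const hN1 _ (hWsm N hNn0) hWb]
    have hCN : 0 ≤ (C : ℝ) / N := by positivity
    have hlt : B * (C / N) + δ / 2 < δ := by
      rw [div_lt_iff₀ hδ] at b4
      have : B * (C / N) < δ / 2 := by
        rw [← mul_div_assoc, div_lt_iff₀ hN0]
        linarith
      linarith
    refine lt_of_le_of_lt (av_norm hN1 _ fun y hy => ?_) hlt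
    have hyc : ‖W κ ε G y - W κ ε G x‖ ≤ δ / 2 := by
      rw [← dist_eq_norm]
      refine (hηc y ?_).le
      rw [mem_cell hN1] at hy
      have h1 := hfl N hNn0 x
      have h2 := hfl N hNn0 y
      rw [hy] at h2
      have h3 : 1 / (N : ℝ) < η := by
        rw [div_lt_iff₀ hη] at b3
        rw [div_lt_iff₀ hN0]
        linarith
      rw [Real.dist_eq, abs_lt]
      have h4 : y ∈ cell N ⌊(N : ℝ) * x⌋ := (mem_cell hN1 _ _).2 hy
      have h5 : x ∈ cell N ⌊(N : ℝ) * x⌋ := (mem_cell hN1 _ _).2 rfl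
      unfold cell at h4 h5
      have e : ((⌊(N : ℝ) * x⌋ : ℝ) + 1) / N = (⌊(N : ℝ) * x⌋ : ℝ) / N + 1 / N := by ring
      rw [mem_Ico, e] at h4 h5
      constructor <;> linarith [h4.1, h4.2, h5.1, h5.2]
    have hd : ‖W κ ε (s N) y - W κ ε G y‖ ≤ B * (C / N) := by
      rw [← W_sub hκ hi ε (hsm N) hGc.measurable (hsM N) hM]
      exact Wbound hκ hi hB ε ((hsm N).sub hGc.measurable) hCN (hsG N hNn0) y
    calc ‖W κ ε (s N) y - W κ ε G x‖
        = ‖(W κ ε (s N) y - W κ ε G y) + (W κ ε G y - W κ ε G x)‖ := by congr 1; ring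
      _ ≤ _ := (norm_add_le _ _).trans (add_le_add hd hyc)
  have hEm : ∀ N, Measurable (E N) := by
    intro N
    rw [hEd]
    exact St_meas N (S N) _
  -- the inequality for the steps
  have hEle : ∀ N : ℕ, n0 ≤ N → ∫⁻ x in Ioi (0 : ℝ), ‖E N x‖ₑ ^ p ≤
      ENNReal.ofReal (B ^ (p - 2)) * ∫⁻ x in Ioi (0 : ℝ), ‖s N x‖ₑ ^ p := by
    intro N hN
    have hN1 : 1 ≤ N := hn1.trans hN
    have hNt : (N : ℝ≥0∞) ≠ ⊤ := ENNReal.natCast_ne_top N
    have hNz : (N : ℝ≥0∞) ≠ 0 := by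
      have : N ≠ 0 := by omega
      exact_mod_cast this
    rw [← ENNReal.mul_le_mul_iff_right hNz hNt, mul_left_comm, hEd, hsd]
    simp only
    rw [St_lint hN1 (hS N) _ hp0, St_lint hN1 (hS N) _ hp0]
    exact disc hκ hi hB hL2 hN1 (hS N) hp _
  -- limits
  have hlim : Tendsto (fun n : ℕ => ∫⁻ x in Ioi (0 : ℝ), ‖s (n + n0) x‖ₑ ^ p) atTop
      (𝓝 (∫⁻ x in Ioi (0 : ℝ), ‖G x‖ₑ ^ p)) := by
    refine lint_tend (R := R + 1) (fun n => hsm _) (fun n x => hsM _ x) (fun n x hx => ?_)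
      (fun x => ?_) hp0
    · have hN : n0 ≤ n + n0 := by omega
      have hN0 : (1 : ℝ) ≤ ((n + n0 : ℕ) : ℝ) := by exact_mod_cast (show 1 ≤ n + n0 by omega)
      rw [hs _ hN]
      apply hGR
      have h1 := (hfl _ hN x).2
      have h2 : 1 / ((n + n0 : ℕ) : ℝ) ≤ 1 := by
        rw [div_le_one (by linarith)]
        exact hN0
      linarith
    · rw [Metric.tendsto_atTop]
      intro δ hδ
      obtain ⟨n2, hn2⟩ := exists_nat_gt ((C : ℝ) / δ)
      refine ⟨n2, fun n hn => ?_⟩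
      have hN : n0 ≤ n + n0 := by omega
      have hN0 : (0 : ℝ) < ((n + n0 : ℕ) : ℝ) := by exact_mod_cast (show 0 < n + n0 by omega)
      rw [dist_eq_norm]
      refine (hsG _ hN x).trans_lt ?_
      rw [div_lt_iff₀ hN0]
      rw [div_lt_iff₀ hδ] at hn2
      have : (n2 : ℝ) ≤ ((n + n0 : ℕ) : ℝ) := by exact_mod_cast (show n2 ≤ n + n0 by omega)
      nlinarith
  have hlim2 := ENNReal.Tendsto.const_mul (a := ENNReal.ofReal (B ^ (p - 2))) hlim
    (Or.inr ENNReal.ofReal_ne_top)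
  calc ∫⁻ x in Ioi (0 : ℝ), ‖W κ ε G x‖ₑ ^ p
      = ∫⁻ x in Ioi (0 : ℝ), liminf (fun n : ℕ => ‖E (n + n0) x‖ₑ ^ p) atTop := by
        refine setLIntegral_congr_fun measurableSet_Ioi fun x hx => ?_
        have h1 : Tendsto (fun n : ℕ => ‖E (n + n0) x‖ₑ ^ p) atTop (𝓝 (‖W κ ε G x‖ₑ ^ p)) :=
          ((ENNReal.continuous_rpow_const (y := p)).tendsto _).comp
            ((continuous_enorm.tendsto _).comp ((hE x hx).comp (tendsto_add_atTop_nat n0)))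
        exact h1.liminf_eq.symm
    _ ≤ liminf (fun n : ℕ => ∫⁻ x in Ioi (0 : ℝ), ‖E (n + n0) x‖ₑ ^ p) atTop :=
        lintegral_liminf_le fun n => (hEm _).enorm.pow_const p
    _ ≤ liminf (fun n : ℕ => ENNReal.ofReal (B ^ (p - 2)) *
          ∫⁻ x in Ioi (0 : ℝ), ‖s (n + n0) x‖ₑ ^ p) atTop :=
        liminf_le_liminf (Eventually.of_forall fun n => hEle _ (by omega))
    _ = _ := hlim2.liminf_eq

end Pool.Agent.D0H14.BC.Int
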