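import Pool.Agent.D0H14.BC.Four

/-! Norms through the Fourier transform. -/

set_option autoImplicit false

open MeasureTheory Set FourierTransform Finset
open scoped ENNReal

namespace Pool.Agent.D0H14.BC

theorem n2_eq {f : ℝ → ℂ} (hf : MemLp f 2 volume) :
    eLpNorm f 2 volume = ENNReal.ofReal (√(∫ x, ‖f x‖ ^ 2)) := by
  rw [hf.eLpNorm_eq_integral_rpow_norm (by norm_num) (by norm_num), Real.sqrt_eq_rpow]
  simp

theorem planch {f : ℝ → ℂ} (h1 : Integrable f) (h2 : MemLp f 2 volume) :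
    eLpNorm (𝓕 f) 2 volume = eLpNorm f 2 volume := by
  rw [eLpNorm_eq_lintegral_rpow_enorm_toReal (by norm_num) (by norm_num),
    eLpNorm_eq_lintegral_rpow_enorm_toReal (by norm_num) (by norm_num)]
  have h := Pool.Agent.H153R4.plancherel f h1 h2
  simp only [ENNReal.toReal_ofNat, ENNReal.rpow_ofNat]
  rw [h]

theorem four_add {f g : ℝ → ℂ} (hf : Integrable f) (hg : Integrable g) (ξ : ℝ) :
    𝓕 (fun x => f x + g x) ξ = 𝓕 f ξ + 𝓕 g ξ := by
  have hc : ∀ {f : ℝ → ℂ}, Integrable f →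
      Integrable (fun v : ℝ => Complex.exp (((-2 * Real.pi * v * ξ : ℝ) : ℂ) * Complex.I) • f v) := by
    intro f hf
    refine hf.bdd_mul (c := 1) (by fun_prop) (Filter.Eventually.of_forall fun y => ?_)
    rw [Complex.norm_exp_ofReal_mul_I]
  rw [Real.fourier_real_eq_integral_exp_smul, Real.fourier_real_eq_integral_exp_smul,
    Real.fourier_real_eq_integral_exp_smul, ← integral_add (hc hf) (hc hg)]
  refine integral_congr_ae (Filter.Eventually.of_forall fun y => ?_)
  simp only [smul_add]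

theorem ct_int {f : ℝ → ℝ} (hf : IntegrableOn f (Ioi 0)) : Integrable (ct f) := by
  have : ct f = (Ioi (0 : ℝ)).indicator (fun y => (f y : ℂ)) := rfl
  rw [this, integrable_indicator_iff measurableSet_Ioi]
  exact hf.ofReal

theorem cn_int {f : ℝ → ℝ} (hf : IntegrableOn f (Iio 0)) : Integrable (cn f) := by
  have : cn f = (Iio (0 : ℝ)).indicator (fun y => (f y : ℂ)) := rfl
  rw [this, integrable_indicator_iff measurableSet_Iio]
  exact hf.ofReal

theorem ct_memLp {f : ℝ → ℝ} (hf : IntegrableOn f (Ioi 0))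
    (hf2 : IntegrableOn (fun y => f y ^ 2) (Ioi 0)) : MemLp (ct f) 2 volume := by
  rw [memLp_two_iff_integrable_sq_norm (ct_int hf).aestronglyMeasurable]
  have : (fun x => ‖ct f x‖ ^ 2) = (Ioi (0 : ℝ)).indicator (fun y => f y ^ 2) := by
    funext x
    simp only [ct, indicator]
    split_ifs <;> simp
  rw [this, integrable_indicator_iff measurableSet_Ioi]
  exact hf2

theorem cn_memLp {f : ℝ → ℝ} (hf : IntegrableOn f (Iio 0))
    (hf2 : IntegrableOn (fun y => f y ^ 2) (Iio 0)) : MemLp (cn f) 2 volume := by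
  rw [memLp_two_iff_integrable_sq_norm (cn_int hf).aestronglyMeasurable]
  have : (fun x => ‖cn f x‖ ^ 2) = (Iio (0 : ℝ)).indicator (fun y => f y ^ 2) := by
    funext x
    simp only [cn, indicator]
    split_ifs <;> simp
  rw [this, integrable_indicator_iff measurableSet_Iio]
  exact hf2

/-- norm of a function given by two formulas -/
theorem n2_two {f g : ℝ → ℝ} (hf : IntegrableOn f (Ioi 0))
    (hf2 : IntegrableOn (fun y => f y ^ 2) (Ioi 0)) (hg : IntegrableOn g (Iio 0))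
    (hg2 : IntegrableOn (fun y => g y ^ 2) (Iio 0)) :
    eLpNorm (fun x => ct f x + cn g x) 2 volume =
      ENNReal.ofReal (√((∫ y in Ioi (0 : ℝ), f y ^ 2) + ∫ y in Iio (0 : ℝ), g y ^ 2)) := by
  rw [show (fun x => ct f x + cn g x) = ct f + cn g from rfl,
    n2_eq ((ct_memLp hf hf2).add (cn_memLp hg hg2))]
  simp only [Pi.add_apply]
  congr 2
  rw [← integral_indicator measurableSet_Ioi, ← integral_indicator measurableSet_Iio,
    ← integral_add]
  · refine integral_congr_ae (Filter.Eventually.of_forall fun x => ?_)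
    rcases lt_trichotomy x 0 with h | h | h
    · simp [ct, cn, indicator, h, not_lt.2 h.le]
    · subst h
      simp [ct, cn, indicator]
    · simp [ct, cn, indicator, h, not_lt.2 h.le]
  · rwa [integrable_indicator_iff measurableSet_Ioi]
  · rwa [integrable_indicator_iff measurableSet_Iio]

theorem n2_ct {f : ℝ → ℝ} (hf : IntegrableOn f (Ioi 0))
    (hf2 : IntegrableOn (fun y => f y ^ 2) (Ioi 0)) :
    eLpNorm (ct f) 2 volume = ENNReal.ofReal (√(∫ y in Ioi (0 : ℝ), f y ^ 2)) := by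
  rw [n2_eq (ct_memLp hf hf2), ← integral_indicator measurableSet_Ioi]
  congr 2
  refine integral_congr_ae (Filter.Eventually.of_forall fun x => ?_)
  simp only [ct, indicator]
  split_ifs <;> simp

/-! ### exponential sums -/

/-- `∑ x_j e ^ (-a_j y)` -/
noncomputable def eN (S : Finset ℕ) (x a : ℕ → ℝ) (y : ℝ) : ℝ := ∑ j ∈ S, x j * Real.exp (-(a j * y))

theorem eN_cont (S : Finset ℕ) (x a : ℕ → ℝ) : Continuous (eN S x a) := by
  unfold eN
  fun_prop

theorem eN_int {S : Finset ℕ} (x : ℕ → ℝ) {a : ℕ → ℝ} (ha : ∀ j ∈ S, 0 < a j) :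
    IntegrableOn (eN S x a) (Ioi 0) := by
  unfold eN
  exact integrable_finsetSum _ fun j hj => (io0 (a j) (ha j hj)).const_mul _

theorem eN_sq (S : Finset ℕ) (x a : ℕ → ℝ) (y : ℝ) :
    eN S x a y ^ 2 = ∑ i ∈ S, ∑ j ∈ S, x i * x j * Real.exp (-((a i + a j) * y)) := by
  rw [sq, eN, sum_mul_sum]
  refine sum_congr rfl fun i _ => sum_congr rfl fun j _ => ?_
  rw [add_mul, neg_add, Real.exp_add]
  ring

theorem eN_sq_int {S : Finset ℕ} (x : ℕ → ℝ) {a : ℕ → ℝ} (ha : ∀ j ∈ S, 0 < a j) :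
    IntegrableOn (fun y => eN S x a y ^ 2) (Ioi 0) := by
  simp only [eN_sq]
  exact integrable_finsetSum _ fun i hi => integrable_finsetSum _ fun j hj =>
    (io0 (a i + a j) (add_pos (ha i hi) (ha j hj))).const_mul _

theorem eN_sq_integral {S : Finset ℕ} (x : ℕ → ℝ) {a : ℕ → ℝ} (ha : ∀ j ∈ S, 0 < a j) :
    ∫ y in Ioi (0 : ℝ), eN S x a y ^ 2 = ∑ i ∈ S, ∑ j ∈ S, x i * x j / (a i + a j) := by
  simp only [eN_sq]
  rw [integral_finsetSum _ fun i hi => integrable_finsetSum _ fun j hj =>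
    (io0 (a i + a j) (add_pos (ha i hi) (ha j hj))).const_mul _]
  refine sum_congr rfl fun i hi => ?_
  rw [integral_finsetSum _ fun j hj =>
    (io0 (a i + a j) (add_pos (ha i hi) (ha j hj))).const_mul _]
  refine sum_congr rfl fun j hj => ?_
  rw [integral_const_mul, mom0 _ (add_pos (ha i hi) (ha j hj)), mul_one_div]

theorem yN_int {S : Finset ℕ} (x : ℕ → ℝ) {a : ℕ → ℝ} (ha : ∀ j ∈ S, 0 < a j) :
    IntegrableOn (fun y => y * eN S x a y) (Ioi 0) := by
  unfold eN
  simp only [mul_sum]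
  refine integrable_finsetSum _ fun j hj => ?_
  have h := (io1 (a j) (ha j hj)).const_mul (x j)
  refine h.congr (Filter.Eventually.of_forall fun y => ?_)
  simp only
  ring

theorem yN_sq_int {S : Finset ℕ} (x : ℕ → ℝ) {a : ℕ → ℝ} (ha : ∀ j ∈ S, 0 < a j) :
    IntegrableOn (fun y => (y * eN S x a y) ^ 2) (Ioi 0) := by
  simp only [mul_pow, eN_sq, mul_sum]
  refine integrable_finsetSum _ fun i hi => integrable_finsetSum _ fun j hj => ?_
  have h := (io2 (a i + a j) (add_pos (ha i hi) (ha j hj))).const_mul (x i * x j)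
  refine h.congr (Filter.Eventually.of_forall fun y => ?_)
  simp only
  ring

theorem ymN_int {S : Finset ℕ} (x : ℕ → ℝ) {a : ℕ → ℝ} (ha : ∀ j ∈ S, 0 < a j) (m : ℝ) :
    IntegrableOn (fun y => (y - m) * eN S x a y) (Ioi 0) := by
  have h := (yN_int x ha).sub ((eN_int x ha).const_mul m)
  refine h.congr (Filter.Eventually.of_forall fun y => ?_)
  simp only [Pi.sub_apply]
  ring

theorem ymN_sq_int {S : Finset ℕ} (x : ℕ → ℝ) {a : ℕ → ℝ} (ha : ∀ j ∈ S, 0 < a j) (m : ℝ) :
    IntegrableOn (fun y => ((y - m) * eN S x a y) ^ 2) (Ioi 0) := by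
  have h : IntegrableOn (fun y => y * eN S x a y ^ 2) (Ioi 0) := by
    simp only [eN_sq, mul_sum]
    refine integrable_finsetSum _ fun i hi => integrable_finsetSum _ fun j hj => ?_
    have h := (io1 (a i + a j) (add_pos (ha i hi) (ha j hj))).const_mul (x i * x j)
    refine h.congr (Filter.Eventually.of_forall fun y => ?_)
    simp only
    ring
  have h2 := ((yN_sq_int x ha).sub (h.const_mul (2 * m))).add ((eN_sq_int x ha).const_mul (m ^ 2))
  refine h2.congr (Filter.Eventually.of_forall fun y => ?_)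
  simp only [Pi.sub_apply, Pi.add_apply]
  ring

theorem cexp_norm (ξ y : ℝ) : ‖Complex.exp (-(sv ξ * y))‖ = 1 := by
  have : -(sv ξ * y) = ((-(2 * Real.pi * ξ * y) : ℝ) : ℂ) * Complex.I := by
    unfold sv
    push_cast
    ring
  rw [this, Complex.norm_exp_ofReal_mul_I]

theorem int_c {f : ℝ → ℝ} (hf : IntegrableOn f (Ioi 0)) (ξ : ℝ) :
    IntegrableOn (fun y : ℝ => Complex.exp (-(sv ξ * y)) * (f y : ℂ)) (Ioi 0) := by
  have h1 := hf.ofReal (𝕜 := ℂ)
  refine h1.bdd_mul (c := 1) (by fun_prop) (Filter.Eventually.of_forall fun y => ?_)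
  rw [cexp_norm]

theorem four_eN {S : Finset ℕ} (x : ℕ → ℝ) {a : ℕ → ℝ} (ha : ∀ j ∈ S, 0 < a j) (ξ : ℝ) :
    𝓕 (ct (eN S x a)) ξ = ∑ j ∈ S, (x j : ℂ) / (sv ξ + a j) := by
  rw [four_ct]
  have e : ∀ y : ℝ, Complex.exp (-(sv ξ * y)) * ((eN S x a y : ℝ) : ℂ) =
      ∑ j ∈ S, (x j : ℂ) * (Complex.exp (-(sv ξ * y)) * ((Real.exp (-(a j * y)) : ℝ) : ℂ)) := by
    intro y
    unfold eN
    push_cast
    rw [mul_sum]
    refine sum_congr rfl fun j _ => ?_
    ring
  simp only [e]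
  rw [integral_finsetSum _ fun j hj => ((int_c (io0 (a j) (ha j hj)) ξ).const_mul _)]
  refine sum_congr rfl fun j hj => ?_
  rw [integral_const_mul]
  have := four_E (a j) (ha j hj) ξ
  rw [four_ct] at this
  rw [this]
  ring

theorem four_yN {S : Finset ℕ} (x : ℕ → ℝ) {a : ℕ → ℝ} (ha : ∀ j ∈ S, 0 < a j) (m ξ : ℝ) :
    𝓕 (ct (fun y => (y - m) * eN S x a y)) ξ =
      ∑ j ∈ S, (x j : ℂ) / (sv ξ + a j) ^ 2 - m * ∑ j ∈ S, (x j : ℂ) / (sv ξ + a j) := by
  rw [four_ct]
  have e : ∀ y : ℝ, Complex.exp (-(sv ξ * y)) * (((y - m) * eN S x a y : ℝ) : ℂ) =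
      ∑ j ∈ S, ((x j : ℂ) * (Complex.exp (-(sv ξ * y)) * ((y * Real.exp (-(a j * y)) : ℝ) : ℂ)) -
        (m * x j : ℂ) * (Complex.exp (-(sv ξ * y)) * ((Real.exp (-(a j * y)) : ℝ) : ℂ))) := by
    intro y
    unfold eN
    push_cast
    rw [mul_sum, mul_sum]
    refine sum_congr rfl fun j _ => ?_
    ring
  simp only [e]
  have hi : ∀ j ∈ S, Integrable (fun y : ℝ =>
      (x j : ℂ) * (Complex.exp (-(sv ξ * y)) * ((y * Real.exp (-(a j * y)) : ℝ) : ℂ)) -
        (m * x j : ℂ) * (Complex.exp (-(sv ξ * y)) * ((Real.exp (-(a j * y)) : ℝ) : ℂ)))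
      (volume.restrict (Ioi 0)) := fun j hj =>
    ((int_c (io1 (a j) (ha j hj)) ξ).const_mul _).sub
      ((int_c (io0 (a j) (ha j hj)) ξ).const_mul _)
  rw [integral_finsetSum _ hi, mul_sum, ← sum_sub_distrib]
  refine sum_congr rfl fun j hj => ?_
  rw [integral_sub ((int_c (io1 (a j) (ha j hj)) ξ).const_mul _)
    ((int_c (io0 (a j) (ha j hj)) ξ).const_mul _), integral_const_mul, integral_const_mul]
  have h1 := four_E (a j) (ha j hj) ξ
  have h2 := four_Y (a j) (ha j hj) ξ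
  rw [four_ct] at h1 h2
  rw [h1, h2, one_div_pow]
  ring

end Pool.Agent.D0H14.BC
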