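import Pool.Agent.D0H14.BC.Ker

/-! The kernels of Blaschke products. -/

set_option autoImplicit false

open MeasureTheory Set FourierTransform Finset
open scoped ENNReal

namespace Pool.Agent.D0H14.BC

/-- the Blaschke product -/
noncomputable def Bl (S : Finset ℕ) (a : ℕ → ℝ) (z : ℂ) : ℂ := ∏ j ∈ S, (z - a j) / (z + a j)

/-- `∑ (1 / (a_l - z) + 1 / (z + a_l))` -/
noncomputable def Ps (S : Finset ℕ) (a : ℕ → ℝ) (z : ℂ) : ℂ :=
  ∑ j ∈ S, (1 / (z + a j) + 1 / (a j - z))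

theorem Bl_norm {S : Finset ℕ} {a : ℕ → ℝ} (ha : ∀ j ∈ S, 0 < a j) (ξ : ℝ) :
    ‖Bl S a (sv ξ)‖ = 1 := by
  unfold Bl
  rw [norm_prod]
  refine prod_eq_one fun j hj => ?_
  rw [norm_div]
  have h : ‖sv ξ - a j‖ = ‖sv ξ + a j‖ := by
    have e : sv ξ - a j = -(starRingEnd ℂ) (sv ξ + a j) := by
      rw [map_add, sv, map_mul, Complex.conj_ofReal, Complex.conj_ofReal, Complex.conj_I]
      ring
    rw [e, norm_neg, RCLike.norm_conj]
  rw [h]
  exact div_self (norm_ne_zero_iff.2 (sv_add_ne ξ (ha j hj)))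

theorem Bl_deriv (S : Finset ℕ) (a : ℕ → ℝ) (z : ℂ) (h1 : ∀ j ∈ S, z + a j ≠ 0)
    (h2 : ∀ j ∈ S, (a j : ℂ) - z ≠ 0) : HasDerivAt (Bl S a) (-(Bl S a z * Ps S a z)) z := by
  induction S using Finset.induction_on with
  | empty =>
    have : Bl ∅ a = fun _ => (1 : ℂ) := by funext w; simp [Bl]
    rw [this]
    simpa [Ps] using hasDerivAt_const z (1 : ℂ)
  | insert i S hi ih =>
    have ih' := ih (fun j hj => h1 j (mem_insert_of_mem hj)) (fun j hj => h2 j (mem_insert_of_mem hj))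
    have hz1 := h1 i (mem_insert_self i S)
    have hz2 := h2 i (mem_insert_self i S)
    have e1 : Bl (insert i S) a = fun w => (w - a i) / (w + a i) * Bl S a w := by
      funext w
      unfold Bl
      rw [prod_insert hi]
    have hd : HasDerivAt (fun w : ℂ => (w - a i) / (w + a i))
        ((1 * (z + a i) - (z - a i) * 1) / (z + a i) ^ 2) z :=
      ((hasDerivAt_id z).sub_const _).div ((hasDerivAt_id z).add_const _) hz1
    have e2 : Ps (insert i S) a z = (1 / (z + a i) + 1 / (a i - z)) + Ps S a z := by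
      unfold Ps
      rw [sum_insert hi]
    rw [e2, e1]
    refine (hd.mul ih').congr_deriv ?_
    field_simp
    ring

theorem ev_ne (S : Finset ℕ) (a : ℕ → ℝ) (z : ℂ) (h1 : ∀ j ∈ S, z + a j ≠ 0) :
    ∀ᶠ w : ℂ in nhds z, ∀ j ∈ S, w + a j ≠ 0 := by
  rw [Filter.eventually_all_finset]
  intro j hj
  have : Continuous fun w : ℂ => w + a j := by fun_prop
  exact this.continuousAt.eventually_ne (h1 j hj)

theorem sum_deriv (S : Finset ℕ) (x a : ℕ → ℝ) (z : ℂ) (h1 : ∀ j ∈ S, z + a j ≠ 0) :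
    HasDerivAt (fun w : ℂ => ∑ j ∈ S, (x j : ℂ) / (w + a j)) (-∑ j ∈ S, (x j : ℂ) / (z + a j) ^ 2) z := by
  rw [← sum_neg_distrib]
  refine HasDerivAt.fun_sum fun j hj => ?_
  have hd := (hasDerivAt_const z (x j : ℂ)).div ((hasDerivAt_id z).add_const (a j : ℂ)) (h1 j hj)
  refine hd.congr_deriv ?_
  simp only [id]
  ring

theorem B_sq {S : Finset ℕ} {a β : ℕ → ℝ}
    (h : QN S a = PP S a - ∑ j ∈ S, Polynomial.C (β j) * PP (S.erase j) a)
    (ha : ∀ j ∈ S, 0 < a j) (ξ : ℝ) :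
    ∑ j ∈ S, (β j : ℂ) / (sv ξ + a j) ^ 2 = -(Bl S a (sv ξ) * Ps S a (sv ξ)) := by
  have h1 : ∀ j ∈ S, sv ξ + a j ≠ 0 := fun j hj => sv_add_ne ξ (ha j hj)
  have h2 : ∀ j ∈ S, (a j : ℂ) - sv ξ ≠ 0 := fun j hj => a_sub_sv_ne ξ (ha j hj)
  have d1 := sum_deriv S β a (sv ξ) h1
  have d2 := (Bl_deriv S a (sv ξ) h1 h2).const_sub 1
  have he : (fun w : ℂ => ∑ j ∈ S, (β j : ℂ) / (w + a j)) =ᶠ[nhds (sv ξ)] fun w => 1 - Bl S a w := by
    filter_upwards [ev_ne S a _ h1] with w hw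
    exact B_eval h w hw
  have := (d1.congr_of_eventuallyEq he.symm).unique d2
  rw [neg_neg] at this
  rw [← this, neg_neg]

theorem G_val {S : Finset ℕ} {a γ : ℕ → ℝ} {i : ℕ} (hi : i ∉ S)
    (h : QN S a = ∑ j ∈ insert i S, Polynomial.C (γ j) * PP ((insert i S).erase j) a) (s : ℂ)
    (hs : ∀ j ∈ insert i S, s + a j ≠ 0) :
    ∑ j ∈ insert i S, (γ j : ℂ) / (s + a j) = Bl S a s / (s + a i) := by
  rw [G_eval h s hs, prod_insert hi, Bl, prod_div_distrib, div_div, mul_comm (s + (a i : ℂ))]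

theorem G_sq {S : Finset ℕ} {a γ : ℕ → ℝ} {i : ℕ} (hi : i ∉ S)
    (h : QN S a = ∑ j ∈ insert i S, Polynomial.C (γ j) * PP ((insert i S).erase j) a)
    (ha : ∀ j ∈ insert i S, 0 < a j) (ξ : ℝ) :
    ∑ j ∈ insert i S, (γ j : ℂ) / (sv ξ + a j) ^ 2 =
      Bl S a (sv ξ) / (sv ξ + a i) * (Ps S a (sv ξ) + 1 / (sv ξ + a i)) := by
  have h1 : ∀ j ∈ insert i S, sv ξ + a j ≠ 0 := fun j hj => sv_add_ne ξ (ha j hj)
  have h1' : ∀ j ∈ S, sv ξ + a j ≠ 0 := fun j hj => h1 j (mem_insert_of_mem hj)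
  have h2 : ∀ j ∈ S, (a j : ℂ) - sv ξ ≠ 0 := fun j hj => a_sub_sv_ne ξ (ha j (mem_insert_of_mem hj))
  have hz := h1 i (mem_insert_self i S)
  have d1 := sum_deriv (insert i S) γ a (sv ξ) h1
  have d2 := (Bl_deriv S a (sv ξ) h1' h2).div ((hasDerivAt_id (sv ξ)).add_const (a i : ℂ)) hz
  have he : (fun w : ℂ => ∑ j ∈ insert i S, (γ j : ℂ) / (w + a j)) =ᶠ[nhds (sv ξ)]
      fun w => Bl S a w / (w + a i) := by
    filter_upwards [ev_ne (insert i S) a _ h1] with w hw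
    exact G_val hi h w hw
  have := (d1.congr_of_eventuallyEq he.symm).unique d2
  have h3 : ∑ j ∈ insert i S, (γ j : ℂ) / (sv ξ + a j) ^ 2 =
      -((-(Bl S a (sv ξ) * Ps S a (sv ξ)) * (sv ξ + a i) - Bl S a (sv ξ) * 1) / (sv ξ + a i) ^ 2) := by
    rw [← neg_eq_iff_eq_neg]
    exact this
  rw [h3]
  field_simp
  ring

end Pool.Agent.D0H14.BC
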