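import Pool.Agent.D0H14.BC.KerB

/-! Carlson's inequality and the integrals of the kernels. -/

set_option autoImplicit false

open MeasureTheory Set FourierTransform Finset
open scoped ENNReal

namespace Pool.Agent.D0H14.BC

theorem cauchy_full (m σ : ℝ) (hσ : 0 < σ) :
    Integrable (fun y : ℝ => (σ ^ 2 + (y - m) ^ 2)⁻¹) ∧
      ∫ y : ℝ, (σ ^ 2 + (y - m) ^ 2)⁻¹ = Real.pi / σ := by
  have e : ∀ y : ℝ, (σ ^ 2 + (y - m) ^ 2)⁻¹ = (σ ^ 2)⁻¹ * (1 + ((y - m) / σ) ^ 2)⁻¹ := by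
    intro y
    rw [← mul_inv]
    congr 1
    field_simp
  have hi : Integrable (fun y : ℝ => (1 + (y / σ) ^ 2)⁻¹) :=
    integrable_inv_one_add_sq.comp_div hσ.ne'
  simp only [e]
  refine ⟨(hi.comp_sub_right m).const_mul _, ?_⟩
  rw [integral_const_mul, integral_sub_right_eq_self (fun y : ℝ => (1 + (y / σ) ^ 2)⁻¹) m,
    Measure.integral_comp_div (fun y : ℝ => (1 + y ^ 2)⁻¹) σ, integral_univ_inv_one_add_sq,
    abs_of_pos hσ, smul_eq_mul]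
  field_simp

theorem cauchy_half (σ : ℝ) (hσ : 0 < σ) :
    ∫ y in Ioi (0 : ℝ), (σ ^ 2 + (y - 0) ^ 2)⁻¹ = Real.pi / σ / 2 := by
  have e : ∀ y : ℝ, (σ ^ 2 + (y - 0) ^ 2)⁻¹ = (σ ^ 2)⁻¹ * (1 + (σ⁻¹ * y) ^ 2)⁻¹ := by
    intro y
    rw [← mul_inv]
    congr 1
    field_simp
    ring
  simp only [e]
  rw [integral_const_mul, integral_comp_mul_left_Ioi (fun y : ℝ => (1 + y ^ 2)⁻¹) 0
    (inv_pos.2 hσ), mul_zero, integral_Ioi_inv_one_add_sq, Real.arctan_zero, smul_eq_mul]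
  field_simp
  ring

/-- Carlson's inequality -/
theorem carlson {f : ℝ → ℝ} {m P Q θ : ℝ} (hP : 0 < P) (hQ : 0 < Q) (hθ : 0 < θ)
    (hf : IntegrableOn f (Ioi 0))
    (h2 : IntegrableOn (fun y => f y ^ 2) (Ioi 0))
    (h3 : IntegrableOn (fun y => ((y - m) * f y) ^ 2) (Ioi 0))
    (hA : ∫ y in Ioi (0 : ℝ), f y ^ 2 ≤ P ^ 2)
    (hB : ∫ y in Ioi (0 : ℝ), ((y - m) * f y) ^ 2 ≤ Q ^ 2)
    (hJ : ∫ y in Ioi (0 : ℝ), ((Q / P) ^ 2 + (y - m) ^ 2)⁻¹ ≤ θ * (Real.pi / (Q / P))) :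
    ∫ y in Ioi (0 : ℝ), |f y| ≤ √(2 * θ * Real.pi * P * Q) := by
  have hπ := Real.pi_pos
  set σ := Q / P with hσd
  have hσ : 0 < σ := by positivity
  set l := √(θ * Real.pi * P / (2 * Q ^ 3)) with hld
  have hl : 0 < l := Real.sqrt_pos.2 (by positivity)
  have hl2 : l ^ 2 = θ * Real.pi * P / (2 * Q ^ 3) := Real.sq_sqrt (by positivity)
  have hci := (cauchy_full m σ hσ).1.integrableOn (s := Ioi (0 : ℝ))
  have hpt : ∀ y : ℝ, |f y| ≤ (l * (σ ^ 2 * f y ^ 2 + ((y - m) * f y) ^ 2) +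
      l⁻¹ * (σ ^ 2 + (y - m) ^ 2)⁻¹) / 2 := by
    intro y
    have hw : 0 < σ ^ 2 + (y - m) ^ 2 := by positivity
    have h1 : 0 ≤ (l * (σ ^ 2 + (y - m) ^ 2) * |f y| - 1) ^ 2 := sq_nonneg _
    have h4 : (l * (σ ^ 2 * f y ^ 2 + ((y - m) * f y) ^ 2) + l⁻¹ * (σ ^ 2 + (y - m) ^ 2)⁻¹) / 2 -
        |f y| = (l * (σ ^ 2 + (y - m) ^ 2) * |f y| - 1) ^ 2 / (2 * (l * (σ ^ 2 + (y - m) ^ 2))) := by
      rw [← sq_abs (f y)]
      have : ((y - m) * f y) ^ 2 = (y - m) ^ 2 * |f y| ^ 2 := by rw [mul_pow, sq_abs]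
      rw [this]
      field_simp
      ring
    have h5 : 0 ≤ (l * (σ ^ 2 + (y - m) ^ 2) * |f y| - 1) ^ 2 / (2 * (l * (σ ^ 2 + (y - m) ^ 2))) := by
      positivity
    linarith
  have hI : IntegrableOn (fun y => (l * (σ ^ 2 * f y ^ 2 + ((y - m) * f y) ^ 2) +
      l⁻¹ * (σ ^ 2 + (y - m) ^ 2)⁻¹) / 2) (Ioi 0) :=
    ((((h2.const_mul _).add h3).const_mul _).add (hci.const_mul _)).div_const _
  have h6 := integral_mono hf.abs hI hpt
  have h7 : ∫ y in Ioi (0 : ℝ), (l * (σ ^ 2 * f y ^ 2 + ((y - m) * f y) ^ 2) +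
      l⁻¹ * (σ ^ 2 + (y - m) ^ 2)⁻¹) / 2 = (l * (σ ^ 2 * (∫ y in Ioi (0 : ℝ), f y ^ 2) +
        ∫ y in Ioi (0 : ℝ), ((y - m) * f y) ^ 2) +
          l⁻¹ * ∫ y in Ioi (0 : ℝ), (σ ^ 2 + (y - m) ^ 2)⁻¹) / 2 := by
    have i1 : IntegrableOn (fun y => l * (σ ^ 2 * f y ^ 2 + ((y - m) * f y) ^ 2)) (Ioi 0) :=
      ((h2.const_mul (σ ^ 2)).add h3).const_mul l
    have i2 : IntegrableOn (fun y => l⁻¹ * (σ ^ 2 + (y - m) ^ 2)⁻¹) (Ioi 0) := hci.const_mul _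
    have i3 : IntegrableOn (fun y => σ ^ 2 * f y ^ 2) (Ioi 0) := h2.const_mul _
    rw [integral_div, integral_add i1 i2, integral_const_mul, integral_const_mul,
      integral_add i3 h3, integral_const_mul]
  rw [h7] at h6
  have h8 : σ ^ 2 * (∫ y in Ioi (0 : ℝ), f y ^ 2) ≤ Q ^ 2 := by
    calc _ ≤ σ ^ 2 * P ^ 2 := mul_le_mul_of_nonneg_left hA (sq_nonneg _)
      _ = Q ^ 2 := by rw [hσd]; field_simp
  have h9 : (∫ y in Ioi (0 : ℝ), |f y|) ≤ l * Q ^ 2 + l⁻¹ * (θ * (Real.pi / σ)) / 2 := by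
    have a1 : l * (σ ^ 2 * (∫ y in Ioi (0 : ℝ), f y ^ 2) +
        ∫ y in Ioi (0 : ℝ), ((y - m) * f y) ^ 2) ≤ l * (2 * Q ^ 2) :=
      mul_le_mul_of_nonneg_left (by linarith) hl.le
    have a2 : l⁻¹ * ∫ y in Ioi (0 : ℝ), (σ ^ 2 + (y - m) ^ 2)⁻¹ ≤ l⁻¹ * (θ * (Real.pi / σ)) :=
      mul_le_mul_of_nonneg_left hJ (inv_pos.2 hl).le
    linarith
  refine h9.trans (Real.le_sqrt_of_sq_le ?_)
  have h10 : l⁻¹ * (θ * (Real.pi / σ)) / 2 = l * Q ^ 2 := by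
    have : l * (l * Q ^ 2) = θ * (Real.pi / σ) / 2 := by
      rw [← mul_assoc, ← sq, hl2, hσd]
      field_simp
    field_simp
    field_simp at this
    linarith
  rw [h10]
  have : (l * Q ^ 2 + l * Q ^ 2) ^ 2 = 4 * l ^ 2 * Q ^ 4 := by ring
  rw [this, hl2]
  apply le_of_eq
  field_simp
  ring

/-! ### two-sided exponentials -/

theorem exn (a : ℝ) (ha : 0 < a) : IntegrableOn (fun y => Real.exp (a * y)) (Iio 0) :=
  (integrableOn_exp_mul_Iic ha 0).mono_set Iio_subset_Iic_self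

theorem exn_sq (a k : ℝ) (ha : 0 < a) :
    IntegrableOn (fun y => (k * Real.exp (a * y)) ^ 2) (Iio 0) ∧
      ∫ y in Iio (0 : ℝ), (k * Real.exp (a * y)) ^ 2 = k ^ 2 / (2 * a) := by
  have e : ∀ y : ℝ, (k * Real.exp (a * y)) ^ 2 = k ^ 2 * Real.exp ((2 * a) * y) := by
    intro y
    rw [mul_pow, ← Real.exp_nat_mul]
    congr 2
    push_cast
    ring
  simp only [e]
  refine ⟨(exn (2 * a) (by positivity)).const_mul _, ?_⟩
  rw [integral_const_mul, ← integral_Iic_eq_integral_Iio, integral_exp_mul_Iic (by positivity)]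
  simp
  ring

theorem exp_sq (a y : ℝ) : Real.exp (-(a * y)) ^ 2 = Real.exp (-(2 * a * y)) := by
  rw [← Real.exp_nat_mul]
  congr 1
  push_cast
  ring

/-- `e ^ (-a |x|)` -/
noncomputable def TE (a : ℝ) (x : ℝ) : ℂ :=
  ct (fun y => Real.exp (-(a * y))) x + cn (fun y => Real.exp (a * y)) x

theorem TE_norm {a : ℝ} (ha : 0 < a) : eLpNorm (TE a) 2 volume = ENNReal.ofReal (1 / √a) := by
  have h1 := exn_sq a 1 ha
  simp only [one_mul, one_pow] at h1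
  have h2 : IntegrableOn (fun y => Real.exp (-(a * y)) ^ 2) (Ioi 0) := by
    simp only [exp_sq]
    exact io0 (2 * a) (by positivity)
  have h3 := n2_two (io0 a ha) h2 (exn a ha) h1.1
  unfold TE
  rw [h3, h1.2]
  simp only [exp_sq]
  rw [mom0 (2 * a) (by positivity)]
  congr 1
  rw [show 1 / (2 * a) + 1 / (2 * a) = 1 / a by field_simp; norm_num, Real.sqrt_div zero_le_one,
    Real.sqrt_one]

theorem TE_int {a : ℝ} (ha : 0 < a) : Integrable (TE a) :=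
  (ct_int (io0 a ha)).add (cn_int (exn a ha))

theorem TE_memLp {a : ℝ} (ha : 0 < a) : MemLp (TE a) 2 volume := by
  refine ⟨(TE_int ha).aestronglyMeasurable, ?_⟩
  rw [TE_norm ha]
  exact ENNReal.ofReal_lt_top

theorem TE_four {a : ℝ} (ha : 0 < a) (ξ : ℝ) :
    𝓕 (TE a) ξ = 1 / (sv ξ + a) + 1 / (a - sv ξ) := by
  unfold TE
  rw [four_add (ct_int (io0 a ha)) (cn_int (exn a ha)), four_E a ha, four_N a ha]

theorem four_sum (S : Finset ℕ) (F : ℕ → ℝ → ℂ) (h : ∀ j ∈ S, Integrable (F j)) (ξ : ℝ) :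
    𝓕 (fun x => ∑ j ∈ S, F j x) ξ = ∑ j ∈ S, 𝓕 (F j) ξ := by
  induction S using Finset.induction_on with
  | empty =>
    simp only [sum_empty]
    rw [Real.fourier_real_eq_integral_exp_smul]
    simp
  | insert i S hi ih =>
    have h1 := ih fun j hj => h j (mem_insert_of_mem hj)
    have h2 : (fun x => ∑ j ∈ insert i S, F j x) = fun x => F i x + ∑ j ∈ S, F j x := by
      funext x
      rw [sum_insert hi]
    rw [h2, four_add (h i (mem_insert_self i S)) (integrable_finsetSum _ fun j hj =>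
      h j (mem_insert_of_mem hj)), h1, sum_insert hi]

end Pool.Agent.D0H14.BC
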