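import Pool.Agent.D0H14.BC.KerC

/-! The `L¹` norms of the kernels. -/

set_option autoImplicit false

open MeasureTheory Set FourierTransform Finset
open scoped ENNReal

namespace Pool.Agent.D0H14.BC

theorem le_of_n2 {f : ℝ → ℝ} {Q : ℝ} (hQ : 0 ≤ Q) (hf : IntegrableOn f (Ioi 0))
    (hf2 : IntegrableOn (fun y => f y ^ 2) (Ioi 0))
    (h : eLpNorm (ct f) 2 volume ≤ ENNReal.ofReal Q) : ∫ y in Ioi (0 : ℝ), f y ^ 2 ≤ Q ^ 2 := by
  rw [n2_ct hf hf2, ENNReal.ofReal_le_ofReal_iff hQ] at h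
  have h0 : 0 ≤ ∫ y in Ioi (0 : ℝ), f y ^ 2 := integral_nonneg fun y => sq_nonneg _
  have := pow_le_pow_left₀ (Real.sqrt_nonneg _) h 2
  rwa [Real.sq_sqrt h0] at this

theorem TEs_norm {S : Finset ℕ} {a : ℕ → ℝ} (ha : ∀ j ∈ S, 0 < a j) :
    eLpNorm (fun x => ∑ j ∈ S, TE (a j) x) 2 volume ≤ ENNReal.ofReal (∑ j ∈ S, 1 / √(a j)) := by
  have h1 := eLpNorm_sum_le (s := S) (f := fun j => TE (a j)) (p := 2) (μ := (volume : Measure ℝ))
    (fun j hj => (TE_int (ha j hj)).aestronglyMeasurable) (by norm_num)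
  have e : (∑ j ∈ S, fun x => TE (a j) x) = fun x => ∑ j ∈ S, TE (a j) x := by
    funext x
    simp
  have e' : (∑ j ∈ S, (fun j => TE (a j)) j) = fun x => ∑ j ∈ S, TE (a j) x := by
    funext x
    simp
  rw [e'] at h1
  refine h1.trans (le_of_eq ?_)
  rw [ENNReal.ofReal_sum_of_nonneg fun j _ => by positivity]
  exact sum_congr rfl fun j hj => TE_norm (ha j hj)

theorem TEs_int {S : Finset ℕ} {a : ℕ → ℝ} (ha : ∀ j ∈ S, 0 < a j) :
    Integrable (fun x => ∑ j ∈ S, TE (a j) x) :=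
  integrable_finsetSum _ fun j hj => TE_int (ha j hj)

theorem TEs_memLp {S : Finset ℕ} {a : ℕ → ℝ} (ha : ∀ j ∈ S, 0 < a j) :
    MemLp (fun x => ∑ j ∈ S, TE (a j) x) 2 volume :=
  memLp_finsetSum _ fun j hj => TE_memLp (ha j hj)

theorem TEs_four {S : Finset ℕ} {a : ℕ → ℝ} (ha : ∀ j ∈ S, 0 < a j) (ξ : ℝ) :
    𝓕 (fun x => ∑ j ∈ S, TE (a j) x) ξ = Ps S a (sv ξ) := by
  rw [four_sum S (fun j => TE (a j)) fun j hj => TE_int (ha j hj)]
  unfold Ps
  exact sum_congr rfl fun j hj => TE_four (ha j hj) ξ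

/-- the kernel of a Blaschke product -/
theorem KB {S : Finset ℕ} (hS : S.Nonempty) {a β : ℕ → ℝ}
    (h : QN S a = PP S a - ∑ j ∈ S, Polynomial.C (β j) * PP (S.erase j) a)
    (hβ : ∑ j ∈ S, β j = 2 * ∑ j ∈ S, a j)
    (ha : ∀ j ∈ S, 0 < a j) :
    ∫ y in Ioi (0 : ℝ), |eN S β a y| ≤ √(Real.pi * √(2 * ∑ j ∈ S, a j) * ∑ j ∈ S, 1 / √(a j)) := by
  have hs : 0 < ∑ j ∈ S, a j := sum_pos ha hS
  have hq : 0 < ∑ j ∈ S, 1 / √(a j) := sum_pos (fun j hj => by
    have := Real.sqrt_pos.2 (ha j hj)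
    positivity) hS
  have hA : ∫ y in Ioi (0 : ℝ), eN S β a y ^ 2 = 2 * ∑ j ∈ S, a j := by
    rw [eN_sq_integral β ha, ← hβ]
    refine sum_congr rfl fun i hi => ?_
    have h1 : ∑ j ∈ S, β j / (a i + a j) = 1 := by
      have h2 := B_eval h (a i : ℂ) (fun j hj => by
        have := add_pos (ha i hi) (ha j hj)
        exact_mod_cast this.ne')
      have h3 : ∏ j ∈ S, ((a i : ℂ) - a j) / ((a i : ℂ) + a j) = 0 :=
        prod_eq_zero hi (by simp)
      rw [h3, sub_zero] at h2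
      exact_mod_cast h2
    calc ∑ j ∈ S, β i * β j / (a i + a j) = β i * ∑ j ∈ S, β j / (a i + a j) := by
          rw [mul_sum]
          exact sum_congr rfl fun j _ => by ring
      _ = β i := by rw [h1, mul_one]
  have hB : ∫ y in Ioi (0 : ℝ), ((y - 0) * eN S β a y) ^ 2 ≤ (∑ j ∈ S, 1 / √(a j)) ^ 2 := by
    refine le_of_n2 hq.le (ymN_int β ha 0) (ymN_sq_int β ha 0) ?_
    rw [← planch (ct_int (ymN_int β ha 0)) (ct_memLp (ymN_int β ha 0) (ymN_sq_int β ha 0))]
    refine le_trans (le_of_eq ?_) (TEs_norm ha)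
    rw [← planch (TEs_int ha) (TEs_memLp ha)]
    refine eLpNorm_congr_norm_ae (Filter.Eventually.of_forall fun ξ => ?_)
    rw [four_yN β ha, TEs_four ha, B_sq h ha, Complex.ofReal_zero, zero_mul, sub_zero, norm_neg,
      norm_mul, Bl_norm ha, one_mul]
  have hP : 0 < √(2 * ∑ j ∈ S, a j) := Real.sqrt_pos.2 (by positivity)
  have := carlson (m := 0) (θ := 1 / 2) hP hq (by norm_num) (eN_int β ha) (eN_sq_int β ha)
    (ymN_sq_int β ha 0) (by rw [hA, Real.sq_sqrt (by positivity)]) hB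
    (by
      rw [cauchy_half _ (div_pos hq hP)]
      linarith)
  refine this.trans (le_of_eq ?_)
  congr 1
  ring

/-! ### the second factor -/

theorem G_P {S : Finset ℕ} {a γ : ℕ → ℝ} {i : ℕ} (hi : i ∉ S)
    (h : QN S a = ∑ j ∈ insert i S, Polynomial.C (γ j) * PP ((insert i S).erase j) a)
    (ha : ∀ j ∈ insert i S, 0 < a j) :
    ∫ y in Ioi (0 : ℝ), eN (insert i S) γ a y ^ 2 ≤ (√(1 / (2 * a i))) ^ 2 := by
  have hc := ha i (mem_insert_self i S)
  have ha' : ∀ j ∈ S, 0 < a j := fun j hj => ha j (mem_insert_of_mem hj)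
  have h2 : IntegrableOn (fun y => Real.exp (-(a i * y)) ^ 2) (Ioi 0) := by
    simp only [exp_sq]
    exact io0 (2 * a i) (by positivity)
  refine le_of_n2 (Real.sqrt_nonneg _) (eN_int γ ha) (eN_sq_int γ ha) ?_
  rw [← planch (ct_int (eN_int γ ha)) (ct_memLp (eN_int γ ha) (eN_sq_int γ ha))]
  have h3 : eLpNorm (ct fun y => Real.exp (-(a i * y))) 2 volume =
      ENNReal.ofReal (√(1 / (2 * a i))) := by
    rw [n2_ct (io0 (a i) hc) h2]
    simp only [exp_sq]
    rw [mom0 (2 * a i) (by positivity)]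
  rw [← h3, ← planch (ct_int (io0 (a i) hc)) (ct_memLp (io0 (a i) hc) h2)]
  refine le_of_eq (eLpNorm_congr_norm_ae (Filter.Eventually.of_forall fun ξ => ?_))
  rw [four_eN γ ha, four_E (a i) hc, G_val hi h _ fun j hj => sv_add_ne ξ (ha j hj), norm_div,
    Bl_norm ha', norm_div, norm_one]

/-- the auxiliary function -/
noncomputable def HF (a c : ℝ) (x : ℝ) : ℂ :=
  ct (fun y => (1 / (a - c) - 1 / (a + c)) * Real.exp (-(c * y)) -
    1 / (a - c) * Real.exp (-(a * y))) x + cn (fun y => 1 / (a + c) * Real.exp (a * y)) x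

theorem HF_p {a c : ℝ} (hc : 0 < c) (hac : c < a) :
    IntegrableOn (fun y => (1 / (a - c) - 1 / (a + c)) * Real.exp (-(c * y)) -
      1 / (a - c) * Real.exp (-(a * y))) (Ioi 0) ∧
    IntegrableOn (fun y => ((1 / (a - c) - 1 / (a + c)) * Real.exp (-(c * y)) -
      1 / (a - c) * Real.exp (-(a * y))) ^ 2) (Ioi 0) ∧
    ∫ y in Ioi (0 : ℝ), ((1 / (a - c) - 1 / (a + c)) * Real.exp (-(c * y)) -
      1 / (a - c) * Real.exp (-(a * y))) ^ 2 = 1 / (2 * a * (a + c) ^ 2) := by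
  have ha : 0 < a := hc.trans hac
  have h1 : 0 < a - c := by linarith
  set α := 1 / (a - c) - 1 / (a + c) with hα
  set δ := 1 / (a - c) with hδ
  have e : ∀ y : ℝ, (α * Real.exp (-(c * y)) - δ * Real.exp (-(a * y))) ^ 2 =
      (α ^ 2 * Real.exp (-(2 * c * y)) - 2 * α * δ * Real.exp (-((a + c) * y))) +
        δ ^ 2 * Real.exp (-(2 * a * y)) := by
    intro y
    have e3 : Real.exp (-((a + c) * y)) = Real.exp (-(a * y)) * Real.exp (-(c * y)) := by
      rw [← Real.exp_add]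
      congr 1
      ring
    rw [← exp_sq, ← exp_sq, e3]
    ring
  have i1 : IntegrableOn (fun y => α ^ 2 * Real.exp (-(2 * c * y))) (Ioi 0) :=
    (io0 (2 * c) (by positivity)).const_mul _
  have i2 : IntegrableOn (fun y => 2 * α * δ * Real.exp (-((a + c) * y))) (Ioi 0) :=
    (io0 (a + c) (by positivity)).const_mul _
  have i3 : IntegrableOn (fun y => δ ^ 2 * Real.exp (-(2 * a * y))) (Ioi 0) :=
    (io0 (2 * a) (by positivity)).const_mul _
  have i12 : IntegrableOn (fun y => α ^ 2 * Real.exp (-(2 * c * y)) -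
      2 * α * δ * Real.exp (-((a + c) * y))) (Ioi 0) := i1.sub i2
  refine ⟨((io0 c hc).const_mul _).sub ((io0 a ha).const_mul _), ?_, ?_⟩
  · simp only [e]
    exact i12.add i3
  · simp only [e]
    rw [integral_add i12 i3, integral_sub i1 i2, integral_const_mul, integral_const_mul,
      integral_const_mul, mom0 (2 * c) (by positivity), mom0 (a + c) (by positivity),
      mom0 (2 * a) (by positivity), hα, hδ]
    have h2 : a + c ≠ 0 := by positivity
    field_simp
    ring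

theorem HF_norm {a c : ℝ} (hc : 0 < c) (hac : c < a) :
    eLpNorm (HF a c) 2 volume = ENNReal.ofReal (1 / (√a * (a + c))) := by
  have ha : 0 < a := hc.trans hac
  obtain ⟨h1, h2, h3⟩ := HF_p hc hac
  have h4 := exn_sq a (1 / (a + c)) ha
  unfold HF
  rw [n2_two h1 h2 ((exn a ha).const_mul _) h4.1, h3, h4.2]
  congr 1
  have h5 : 0 < a + c := by positivity
  rw [Real.sqrt_eq_iff_mul_self_eq (by positivity) (by positivity)]
  have h6 : √a * √a = a := Real.mul_self_sqrt ha.le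
  have h7 : 1 / (√a * (a + c)) * (1 / (√a * (a + c))) = 1 / ((√a * √a) * (a + c) ^ 2) := by
    have := Real.sqrt_pos.2 ha
    field_simp
  rw [h7, h6]
  field_simp
  ring

theorem HF_int {a c : ℝ} (hc : 0 < c) (hac : c < a) : Integrable (HF a c) :=
  (ct_int (HF_p hc hac).1).add (cn_int ((exn a (hc.trans hac)).const_mul _))

theorem HF_memLp {a c : ℝ} (hc : 0 < c) (hac : c < a) : MemLp (HF a c) 2 volume := by
  refine ⟨(HF_int hc hac).aestronglyMeasurable, ?_⟩
  rw [HF_norm hc hac]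
  exact ENNReal.ofReal_lt_top

theorem HF_four {a c : ℝ} (hc : 0 < c) (hac : c < a) (ξ : ℝ) :
    𝓕 (HF a c) ξ = 1 / (sv ξ + c) * (1 / (sv ξ + a) + 1 / (a - sv ξ) - 2 / ((a : ℂ) + c)) := by
  have ha : 0 < a := hc.trans hac
  have n1 := sv_add_ne ξ hc
  have n2 := sv_add_ne ξ ha
  have n3 := a_sub_sv_ne ξ ha
  have n4 : (a : ℂ) - c ≠ 0 := by
    have : a - c ≠ 0 := by linarith
    exact_mod_cast this
  have n5 : (a : ℂ) + c ≠ 0 := by
    have : a + c ≠ 0 := by positivity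
    exact_mod_cast this
  have hcomb : 𝓕 (ct (fun y => (1 / (a - c) - 1 / (a + c)) * Real.exp (-(c * y)) -
      1 / (a - c) * Real.exp (-(a * y)))) ξ =
      (1 / ((a : ℂ) - c) - 1 / ((a : ℂ) + c)) * (1 / (sv ξ + c)) -
        1 / ((a : ℂ) - c) * (1 / (sv ξ + a)) := by
    have h1 := four_E c hc ξ
    have h2 := four_E a ha ξ
    rw [four_ct] at h1 h2 ⊢
    rw [← h1, ← h2, ← integral_const_mul, ← integral_const_mul, ← integral_sub
      ((int_c (io0 c hc) ξ).const_mul _) ((int_c (io0 a ha) ξ).const_mul _)]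
    refine integral_congr_ae (Filter.Eventually.of_forall fun y => ?_)
    simp only
    push_cast
    ring
  have hneg : 𝓕 (cn (fun y => 1 / (a + c) * Real.exp (a * y))) ξ =
      1 / ((a : ℂ) + c) * (1 / (a - sv ξ)) := by
    have h1 := four_N a ha ξ
    rw [four_cn] at h1 ⊢
    rw [← h1, ← integral_const_mul]
    refine integral_congr_ae (Filter.Eventually.of_forall fun y => ?_)
    simp only
    push_cast
    ring
  unfold HF
  rw [four_add (ct_int (HF_p hc hac).1) (cn_int ((exn a ha).const_mul _)), hcomb, hneg]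
  field_simp
  ring

/-- the centred first moment -/
noncomputable def F0 (c : ℝ) (y : ℝ) : ℝ := (y - 1 / (2 * c)) * Real.exp (-(c * y))

theorem F0_p {c : ℝ} (hc : 0 < c) : IntegrableOn (F0 c) (Ioi 0) ∧
    IntegrableOn (fun y => F0 c y ^ 2) (Ioi 0) ∧
    ∫ y in Ioi (0 : ℝ), F0 c y ^ 2 = (1 / (2 * c)) ^ 3 := by
  have e : ∀ y : ℝ, F0 c y ^ 2 = (y ^ 2 * Real.exp (-(2 * c * y)) -
      1 / c * (y * Real.exp (-(2 * c * y)))) + 1 / (4 * c ^ 2) * Real.exp (-(2 * c * y)) := by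
    intro y
    unfold F0
    rw [mul_pow, exp_sq]
    field_simp
    ring
  have i1 := io2 (2 * c) (by positivity)
  have i2 : IntegrableOn (fun y => 1 / c * (y * Real.exp (-(2 * c * y)))) (Ioi 0) :=
    (io1 (2 * c) (by positivity)).const_mul _
  have i3 : IntegrableOn (fun y => 1 / (4 * c ^ 2) * Real.exp (-(2 * c * y))) (Ioi 0) :=
    (io0 (2 * c) (by positivity)).const_mul _
  have i12 : IntegrableOn (fun y => y ^ 2 * Real.exp (-(2 * c * y)) -
      1 / c * (y * Real.exp (-(2 * c * y)))) (Ioi 0) := i1.sub i2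
  refine ⟨?_, ?_, ?_⟩
  · refine ((io1 c hc).sub ((io0 c hc).const_mul (1 / (2 * c)))).congr
      (Filter.Eventually.of_forall fun y => ?_)
    simp only [F0, Pi.sub_apply]
    ring
  · simp only [e]
    exact i12.add i3
  · simp only [e]
    rw [integral_add i12 i3, integral_sub i1 i2, integral_const_mul, integral_const_mul,
      mom0 (2 * c) (by positivity), mom1 (2 * c) (by positivity), mom2 (2 * c) (by positivity)]
    field_simp
    ring

theorem F0_four {c : ℝ} (hc : 0 < c) (ξ : ℝ) :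
    𝓕 (ct (F0 c)) ξ = 1 / (sv ξ + c) ^ 2 - 1 / (2 * (c : ℂ)) * (1 / (sv ξ + c)) := by
  have h1 := four_E c hc ξ
  have h2 := four_Y c hc ξ
  rw [four_ct] at h1 h2 ⊢
  rw [one_div_pow] at h2
  rw [← h2, ← h1, ← integral_const_mul, ← integral_sub
    (int_c (io1 c hc) ξ) ((int_c (io0 c hc) ξ).const_mul _)]
  refine integral_congr_ae (Filter.Eventually.of_forall fun y => ?_)
  simp only [F0]
  push_cast
  ring

/-- the kernel with a slow extra pole -/
theorem KA {S : Finset ℕ} {a γ : ℕ → ℝ} {i : ℕ} (hi : i ∉ S)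
    (h : QN S a = ∑ j ∈ insert i S, Polynomial.C (γ j) * PP ((insert i S).erase j) a)
    (ha : ∀ j ∈ insert i S, 0 < a j) (hlt : ∀ j ∈ S, a i < a j) :
    ∫ y in Ioi (0 : ℝ), |eN (insert i S) γ a y| ≤
      √(2 * Real.pi * √(1 / (2 * a i)) * (∑ j ∈ S, 1 / (√(a j) * (a j + a i)) + √((1 / (2 * a i)) ^ 3))) := by
  have hc := ha i (mem_insert_self i S)
  have ha' : ∀ j ∈ S, 0 < a j := fun j hj => ha j (mem_insert_of_mem hj)
  set c := a i with hcd
  set m : ℝ := ∑ j ∈ S, 2 / (a j + c) + 1 / (2 * c) with hm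
  have hQ : 0 < ∑ j ∈ S, 1 / (√(a j) * (a j + c)) + √((1 / (2 * c)) ^ 3) := by
    have h1 : 0 ≤ ∑ j ∈ S, 1 / (√(a j) * (a j + c)) := sum_nonneg fun j hj => by
      have := ha' j hj
      positivity
    have h2 : 0 < √((1 / (2 * c)) ^ 3) := Real.sqrt_pos.2 (by positivity)
    linarith
  have iH : Integrable (fun x => ∑ j ∈ S, HF (a j) c x) :=
    integrable_finsetSum _ fun j hj => HF_int hc (hlt j hj)
  have mH : MemLp (fun x => ∑ j ∈ S, HF (a j) c x) 2 volume :=
    memLp_finsetSum _ fun j hj => HF_memLp hc (hlt j hj)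
  obtain ⟨f1, f2, f3⟩ := F0_p hc
  have hB : ∫ y in Ioi (0 : ℝ), ((y - m) * eN (insert i S) γ a y) ^ 2 ≤
      (∑ j ∈ S, 1 / (√(a j) * (a j + c)) + √((1 / (2 * c)) ^ 3)) ^ 2 := by
    refine le_of_n2 hQ.le (ymN_int γ ha m) (ymN_sq_int γ ha m) ?_
    rw [← planch (ct_int (ymN_int γ ha m)) (ct_memLp (ymN_int γ ha m) (ymN_sq_int γ ha m))]
    have h1 : eLpNorm (fun x => (∑ j ∈ S, HF (a j) c x) + ct (F0 c) x) 2 volume ≤
        ENNReal.ofReal (∑ j ∈ S, 1 / (√(a j) * (a j + c)) + √((1 / (2 * c)) ^ 3)) := by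
      have h2 := eLpNorm_add_le (p := 2) iH.aestronglyMeasurable (ct_int f1).aestronglyMeasurable
        (by norm_num)
      refine h2.trans ?_
      rw [ENNReal.ofReal_add (sum_nonneg fun j hj => by
        have := ha' j hj
        positivity) (Real.sqrt_nonneg _)]
      refine add_le_add ?_ ?_
      · have h3 := eLpNorm_sum_le (s := S) (f := fun j => HF (a j) c) (p := 2)
          (μ := (volume : Measure ℝ))
          (fun j hj => (HF_int hc (hlt j hj)).aestronglyMeasurable) (by norm_num)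
        have e' : (∑ j ∈ S, (fun j => HF (a j) c) j) = fun x => ∑ j ∈ S, HF (a j) c x := by
          funext x
          simp
        rw [e'] at h3
        refine h3.trans (le_of_eq ?_)
        rw [ENNReal.ofReal_sum_of_nonneg fun j hj => by
          have := ha' j hj
          positivity]
        exact sum_congr rfl fun j hj => HF_norm hc (hlt j hj)
      · rw [n2_ct f1 f2, f3]
    refine le_trans (le_of_eq ?_) h1
    have e0 : (fun x => (∑ j ∈ S, HF (a j) c x) + ct (F0 c) x) =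
        (fun x => ∑ j ∈ S, HF (a j) c x) + ct (F0 c) := rfl
    rw [e0, ← planch (iH.add (ct_int f1)) (mH.add (ct_memLp f1 f2))]
    refine eLpNorm_congr_norm_ae (Filter.Eventually.of_forall fun ξ => ?_)
    have e1 : 𝓕 ((fun x => ∑ j ∈ S, HF (a j) c x) + ct (F0 c)) ξ =
        1 / (sv ξ + c) * (Ps S a (sv ξ) + 1 / (sv ξ + c) - m) := by
      have e2 : (fun x => ∑ j ∈ S, HF (a j) c x) + ct (F0 c) =
          fun x => (∑ j ∈ S, HF (a j) c x) + ct (F0 c) x := rfl
      rw [e2, four_add iH (ct_int f1), F0_four hc, four_sum S (fun j => HF (a j) c)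
        fun j hj => HF_int hc (hlt j hj)]
      have e3 : ∑ j ∈ S, 𝓕 (HF (a j) c) ξ = 1 / (sv ξ + c) *
          (Ps S a (sv ξ) - ∑ j ∈ S, 2 / ((a j : ℂ) + c)) := by
        rw [Ps, ← sum_sub_distrib, mul_sum]
        exact sum_congr rfl fun j hj => HF_four hc (hlt j hj) ξ
      rw [e3, hm]
      have n1 := sv_add_ne ξ hc
      push_cast
      field_simp
      ring
    rw [four_yN γ ha, e1, G_sq hi h ha, G_val hi h _ fun j hj => sv_add_ne ξ (ha j hj)]
    have e4 : Bl S a (sv ξ) / (sv ξ + a i) * (Ps S a (sv ξ) + 1 / (sv ξ + a i)) -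
        m * (Bl S a (sv ξ) / (sv ξ + a i)) =
        Bl S a (sv ξ) * (1 / (sv ξ + c) * (Ps S a (sv ξ) + 1 / (sv ξ + c) - m)) := by
      rw [← hcd]
      ring
    rw [e4, norm_mul (Bl S a (sv ξ)), Bl_norm ha', one_mul]
  have hP : 0 < √(1 / (2 * c)) := Real.sqrt_pos.2 (by positivity)
  have hσ := div_pos hQ hP
  have := carlson (m := m) (θ := 1) hP hQ (by norm_num) (eN_int γ ha) (eN_sq_int γ ha)
    (ymN_sq_int γ ha m) (G_P hi h ha) hB
    (by
      obtain ⟨g1, g2⟩ := cauchy_full m _ hσ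
      rw [one_mul, ← g2]
      exact setIntegral_le_integral g1 (Filter.Eventually.of_forall fun y => by positivity))
  refine this.trans (le_of_eq ?_)
  rw [mul_one]

/-- the kernel with a fast extra pole -/
theorem KBB {S : Finset ℕ} {a γ : ℕ → ℝ} {i : ℕ} (hi : i ∉ S)
    (h : QN S a = ∑ j ∈ insert i S, Polynomial.C (γ j) * PP ((insert i S).erase j) a)
    (ha : ∀ j ∈ insert i S, 0 < a j) :
    ∫ y in Ioi (0 : ℝ), |eN (insert i S) γ a y| ≤
      √(Real.pi * √(1 / (2 * a i)) * (1 / a i * ∑ j ∈ S, 1 / √(a j) + √(2 * (1 / (2 * a i)) ^ 3))) := by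
  have hc := ha i (mem_insert_self i S)
  have ha' : ∀ j ∈ S, 0 < a j := fun j hj => ha j (mem_insert_of_mem hj)
  set c := a i with hcd
  have hs0 : 0 ≤ ∑ j ∈ S, 1 / √(a j) := sum_nonneg fun j _ => by positivity
  have hQ : 0 < 1 / c * ∑ j ∈ S, 1 / √(a j) + √(2 * (1 / (2 * c)) ^ 3) := by
    have h2 : 0 < √(2 * (1 / (2 * c)) ^ 3) := Real.sqrt_pos.2 (by positivity)
    have h3 : 0 ≤ 1 / c * ∑ j ∈ S, 1 / √(a j) := by positivity
    linarith
  have y1 := io1 c hc
  have y2 : IntegrableOn (fun y => (y * Real.exp (-(c * y))) ^ 2) (Ioi 0) := by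
    simp only [mul_pow, exp_sq]
    exact io2 (2 * c) (by positivity)
  have y3 : ∫ y in Ioi (0 : ℝ), (y * Real.exp (-(c * y))) ^ 2 = 2 * (1 / (2 * c)) ^ 3 := by
    simp only [mul_pow, exp_sq]
    exact mom2 (2 * c) (by positivity)
  have hB : ∫ y in Ioi (0 : ℝ), ((y - 0) * eN (insert i S) γ a y) ^ 2 ≤
      (1 / c * ∑ j ∈ S, 1 / √(a j) + √(2 * (1 / (2 * c)) ^ 3)) ^ 2 := by
    refine le_of_n2 hQ.le (ymN_int γ ha 0) (ymN_sq_int γ ha 0) ?_
    rw [← planch (ct_int (ymN_int γ ha 0)) (ct_memLp (ymN_int γ ha 0) (ymN_sq_int γ ha 0))]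
    set u : ℝ → ℂ := fun ξ => ((1 / c : ℝ) : ℂ) • 𝓕 (fun x => ∑ j ∈ S, TE (a j) x) ξ with hu
    set v : ℝ → ℂ := 𝓕 (ct fun y => y * Real.exp (-(c * y))) with hv
    have mu : AEStronglyMeasurable (𝓕 (fun x => ∑ j ∈ S, TE (a j) x)) (volume : Measure ℝ) :=
      (VectorFourier.fourierIntegral_continuous Real.continuous_fourierChar
        (by exact continuous_inner) (TEs_int ha')).aestronglyMeasurable
    have mv : AEStronglyMeasurable v (volume : Measure ℝ) :=
      (VectorFourier.fourierIntegral_continuous Real.continuous_fourierChar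
        (by exact continuous_inner) (ct_int y1)).aestronglyMeasurable
    have h1 : eLpNorm (𝓕 (ct fun y => (y - 0) * eN (insert i S) γ a y)) 2 volume ≤
        eLpNorm (fun ξ => ‖u ξ‖ + ‖v ξ‖) 2 volume := by
      refine eLpNorm_mono_real fun ξ => ?_
      rw [four_yN γ ha, G_sq hi h ha, Complex.ofReal_zero, zero_mul, sub_zero, norm_mul, norm_div,
        Bl_norm ha', hu, hv]
      simp only
      rw [TEs_four ha', four_Y c hc, norm_smul, norm_pow, Complex.norm_real,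
        Real.norm_of_nonneg (by positivity), norm_div, norm_one, ← hcd]
      have h5 : c ≤ ‖sv ξ + c‖ := by
        have := Complex.re_le_norm (sv ξ + c)
        simpa [sv_re] using this
      have h6 : 1 / ‖sv ξ + c‖ ≤ 1 / c := one_div_le_one_div_of_le hc h5
      have h7 := norm_add_le (Ps S a (sv ξ)) (1 / (sv ξ + c))
      rw [norm_div, norm_one] at h7
      calc 1 / ‖sv ξ + c‖ * ‖Ps S a (sv ξ) + 1 / (sv ξ + c)‖ ≤
          1 / ‖sv ξ + c‖ * (‖Ps S a (sv ξ)‖ + 1 / ‖sv ξ + c‖) :=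
            mul_le_mul_of_nonneg_left h7 (by positivity)
        _ = 1 / ‖sv ξ + c‖ * ‖Ps S a (sv ξ)‖ + (1 / ‖sv ξ + c‖) ^ 2 := by ring
        _ ≤ _ := by
          have := mul_le_mul_of_nonneg_right h6 (norm_nonneg (Ps S a (sv ξ)))
          linarith
    refine h1.trans ?_
    have h2 := eLpNorm_add_le (p := 2) (mu.const_smul ((1 / c : ℝ) : ℂ)).norm mv.norm (by norm_num)
    refine h2.trans ?_
    rw [eLpNorm_norm, eLpNorm_norm, ENNReal.ofReal_add (by positivity) (Real.sqrt_nonneg _)]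
    refine add_le_add ?_ ?_
    · have e : eLpNorm (((1 / c : ℝ) : ℂ) • 𝓕 (fun x => ∑ j ∈ S, TE (a j) x)) 2 volume =
          ENNReal.ofReal (1 / c) * eLpNorm (𝓕 (fun x => ∑ j ∈ S, TE (a j) x)) 2 volume := by
        rw [eLpNorm_const_smul]
        congr 1
        rw [← ofReal_norm, Complex.norm_real, Real.norm_of_nonneg (by positivity)]
      rw [e, planch (TEs_int ha') (TEs_memLp ha'), ENNReal.ofReal_mul (by positivity)]
      exact mul_le_mul_right (TEs_norm ha') _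
    · rw [hv, planch (ct_int y1) (ct_memLp y1 y2), n2_ct y1 y2, y3]
  have hP : 0 < √(1 / (2 * c)) := Real.sqrt_pos.2 (by positivity)
  have := carlson (m := 0) (θ := 1 / 2) hP hQ (by norm_num) (eN_int γ ha) (eN_sq_int γ ha)
    (ymN_sq_int γ ha 0) (G_P hi h ha) hB
    (by
      rw [cauchy_half _ (div_pos hQ hP)]
      linarith)
  refine this.trans (le_of_eq ?_)
  congr 1
  ring

end Pool.Agent.D0H14.BC
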