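import Pool.Agent.D0H14.BC.KerD
import Pool.Agent.D0H14.BC.Num

/-! The kernels of `T ^ n` on the angular classes and their `L¹` norms. -/

set_option autoImplicit false

open MeasureTheory Set Finset
open Polynomial (C X)

namespace Pool.Agent.D0H14.BC

/-- the coefficients -/
noncomputable def kap (S : Finset ℕ) (β γ : ℕ → ℝ) (d : ℝ) (j : ℕ) : ℝ :=
  (if j ∈ S then β j else 0) + d * γ j

theorem comb {S : Finset ℕ} {a β γ : ℕ → ℝ} {i : ℕ} (hi : i ∉ S) (e : ℝ)
    (hB : QN S a = PP S a - ∑ j ∈ S, C (β j) * PP (S.erase j) a)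
    (hG : QN S a = ∑ j ∈ insert i S, C (γ j) * PP ((insert i S).erase j) a) :
    (X - C e) * QN S a = PP (insert i S) a -
      ∑ j ∈ insert i S, C (kap S β γ (a i + e) j) * PP ((insert i S).erase j) a := by
  have h1 : PP (insert i S) a = (X + C (a i)) * PP S a := by
    unfold PP
    rw [prod_insert hi]
  have h2 : ∀ j ∈ S, PP ((insert i S).erase j) a = (X + C (a i)) * PP (S.erase j) a := by
    intro j hj
    have hij : i ≠ j := fun h => hi (h ▸ hj)
    have : (insert i S).erase j = insert i (S.erase j) := by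
      rw [erase_insert_of_ne hij]
    unfold PP
    rw [this, prod_insert (by
      intro h
      exact hi (mem_of_mem_erase h))]
  have h3 : ∑ j ∈ insert i S, C (kap S β γ (a i + e) j) * PP ((insert i S).erase j) a =
      (X + C (a i)) * (∑ j ∈ S, C (β j) * PP (S.erase j) a) + C (a i + e) * QN S a := by
    have h4 : ∀ j ∈ insert i S, C (kap S β γ (a i + e) j) * PP ((insert i S).erase j) a =
        (if j ∈ S then C (β j) * PP ((insert i S).erase j) a else 0) +
          C (a i + e) * (C (γ j) * PP ((insert i S).erase j) a) := by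
      intro j _
      unfold kap
      split_ifs
      · simp only [Polynomial.C_add, Polynomial.C_mul]
        ring
      · simp only [Polynomial.C_add, Polynomial.C_mul, Polynomial.C_0]
        ring
    rw [sum_congr rfl h4, sum_add_distrib, ← mul_sum, ← hG, sum_insert hi, if_neg hi, zero_add,
      mul_sum]
    congr 1
    refine sum_congr rfl fun j hj => ?_
    rw [if_pos hj, h2 j hj]
    ring
  rw [h3, h1]
  have h5 : (X - C e) * QN S a = (X + C (a i)) * QN S a - C (a i + e) * QN S a := by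
    rw [Polynomial.C_add]
    ring
  rw [h5]
  nth_rewrite 1 [hB]
  ring

theorem kap_int {S : Finset ℕ} {a β γ : ℕ → ℝ} {i : ℕ} (hi : i ∉ S) {d : ℝ} (hd : 0 ≤ d)
    (ha : ∀ j ∈ insert i S, 0 < a j) :
    ∫ y in Ioi (0 : ℝ), |eN (insert i S) (kap S β γ d) a y| ≤
      (∫ y in Ioi (0 : ℝ), |eN S β a y|) + d * ∫ y in Ioi (0 : ℝ), |eN (insert i S) γ a y| := by
  have ha' : ∀ j ∈ S, 0 < a j := fun j hj => ha j (mem_insert_of_mem hj)
  have h1 : ∀ y, eN (insert i S) (kap S β γ d) a y = eN S β a y + d * eN (insert i S) γ a y := by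
    intro y
    unfold eN kap
    simp only [add_mul, sum_add_distrib, mul_sum, ite_mul, zero_mul]
    congr 1
    · rw [sum_insert hi, if_neg hi, zero_add]
      exact sum_congr rfl fun j hj => by rw [if_pos hj]
    · exact sum_congr rfl fun j _ => by ring
  have i1 := (eN_int β ha').abs
  have i2 := (eN_int γ ha).abs
  calc ∫ y in Ioi (0 : ℝ), |eN (insert i S) (kap S β γ d) a y| ≤
      ∫ y in Ioi (0 : ℝ), (|eN S β a y| + d * |eN (insert i S) γ a y|) := by
        refine integral_mono (eN_int _ ha).abs (i1.add (i2.const_mul d)) fun y => ?_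
        simp only [h1]
        refine (abs_add_le _ _).trans (le_of_eq ?_)
        rw [abs_mul, abs_of_nonneg hd]
    _ = _ := by
        have i3 : IntegrableOn (fun y => d * |eN (insert i S) γ a y|) (Ioi 0) := i2.const_mul d
        rw [integral_add i1 i3, integral_const_mul]

/-! ### sums -/

/-- the nodes -/
def nd (k : ℝ) (l : ℕ) : ℝ := k + 2 * l

theorem nd_inj (k : ℝ) : Function.Injective (nd k) := by
  intro i j h
  unfold nd at h
  have : (i : ℝ) = j := by linarith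
  exact_mod_cast this

theorem sum_nd (k : ℝ) (n : ℕ) (hn : 1 ≤ n) :
    ∑ l ∈ Ico 1 n, nd k l = ((n : ℝ) - 1) * (k + n) := by
  induction n, hn using Nat.le_induction with
  | base => simp
  | succ m hm ih =>
    rw [sum_Ico_succ_top hm, ih]
    unfold nd
    push_cast
    ring

theorem sum_isq (k : ℝ) (hk : 0 ≤ k) (n : ℕ) (hn : 1 ≤ n) :
    ∑ l ∈ Ico 1 n, 1 / √(nd k l) ≤ √(k + 2 * ((n : ℝ) - 1)) - √k := by
  induction n, hn using Nat.le_induction with
  | base => simp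
  | succ m hm ih =>
    rw [sum_Ico_succ_top hm]
    have hm1 : (1 : ℝ) ≤ m := by exact_mod_cast hm
    have h1 : 1 / √(nd k m) ≤ √(k + 2 * m) - √(k + 2 * ((m : ℝ) - 1)) := by
      unfold nd
      have hA : 0 < √(k + 2 * (m : ℝ)) := Real.sqrt_pos.2 (by linarith)
      have hB := Real.sqrt_nonneg (k + 2 * ((m : ℝ) - 1))
      have hA2 : √(k + 2 * (m : ℝ)) ^ 2 = k + 2 * m := Real.sq_sqrt (by linarith)
      have hB2 : √(k + 2 * ((m : ℝ) - 1)) ^ 2 = k + 2 * ((m : ℝ) - 1) :=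
        Real.sq_sqrt (by nlinarith)
      rw [div_le_iff₀ hA]
      nlinarith [sq_nonneg (√(k + 2 * (m : ℝ)) - √(k + 2 * ((m : ℝ) - 1)))]
    have h2 : k + 2 * (((m + 1 : ℕ) : ℝ) - 1) = k + 2 * m := by push_cast; ring
    rw [h2]
    linarith

theorem isq_bound (k : ℝ) (hk : 0 ≤ k) (n : ℕ) (hn : 1 ≤ n) :
    √(k + n) * ∑ l ∈ Ico 1 n, 1 / √(nd k l) ≤ √2 * n := by
  have hn1 : (1 : ℝ) ≤ n := by exact_mod_cast hn
  have h1 := sum_isq k hk n hn
  have h2 : √(k + 2 * ((n : ℝ) - 1)) ≤ √(k + 2 * n) := Real.sqrt_le_sqrt (by linarith)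
  have hA := Real.sqrt_nonneg (k + 2 * (n : ℝ))
  have hB := Real.sqrt_nonneg k
  have hA2 : √(k + 2 * (n : ℝ)) ^ 2 = k + 2 * n := Real.sq_sqrt (by linarith)
  have hB2 : √k ^ 2 = k := Real.sq_sqrt hk
  have hAB : √k ≤ √(k + 2 * (n : ℝ)) := Real.sqrt_le_sqrt (by linarith)
  refine (mul_le_mul_of_nonneg_left (h1.trans (sub_le_sub_right h2 _)) (Real.sqrt_nonneg _)).trans ?_
  refine abs_le_of_sq_le_sq' ?_ (by positivity) |>.2
  rw [mul_pow, mul_pow, Real.sq_sqrt (by positivity), Real.sq_sqrt (by norm_num)]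
  set A := √(k + 2 * (n : ℝ)) with hAd
  set B := √k with hBd
  have h3 : k + (n : ℝ) = (A ^ 2 + B ^ 2) / 2 := by rw [hA2, hB2]; ring
  have h4 : (n : ℝ) = (A ^ 2 - B ^ 2) / 2 := by rw [hA2, hB2]; ring
  rw [h3, h4]
  have h5 : 2 * ((A ^ 2 - B ^ 2) / 2) ^ 2 - (A ^ 2 + B ^ 2) / 2 * (A - B) ^ 2 =
      (A - B) ^ 2 * (A * B) := by ring
  have h6 : 0 ≤ (A - B) ^ 2 * (A * B) := by positivity
  linarith

theorem B_num (k : ℝ) (hk : 0 ≤ k) (n : ℕ) (hn : 1 ≤ n) :
    √(Real.pi * √(2 * ∑ l ∈ Ico 1 n, nd k l) * ∑ l ∈ Ico 1 n, 1 / √(nd k l)) ≤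
      √(2 * Real.pi * n * √((n : ℝ) - 1)) := by
  have hn1 : (1 : ℝ) ≤ n := by exact_mod_cast hn
  refine Real.sqrt_le_sqrt ?_
  rw [sum_nd k n hn]
  have h1 := isq_bound k hk n hn
  have h2 : √(2 * (((n : ℝ) - 1) * (k + n))) = √2 * √((n : ℝ) - 1) * √(k + n) := by
    rw [Real.sqrt_mul (by norm_num), Real.sqrt_mul (by linarith), mul_assoc]
  rw [h2]
  have h3 : √(2 : ℝ) * √2 = 2 := Real.mul_self_sqrt (by norm_num)
  calc Real.pi * (√2 * √((n : ℝ) - 1) * √(k + n)) * ∑ l ∈ Ico 1 n, 1 / √(nd k l) =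
      Real.pi * √2 * √((n : ℝ) - 1) * (√(k + n) * ∑ l ∈ Ico 1 n, 1 / √(nd k l)) := by ring
    _ ≤ Real.pi * √2 * √((n : ℝ) - 1) * (√2 * n) := mul_le_mul_of_nonneg_left h1 (by positivity)
    _ = Real.pi * (√2 * √2) * √((n : ℝ) - 1) * n := by ring
    _ = _ := by rw [h3]; ring

end Pool.Agent.D0H14.BC
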