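import Pool.Agent.D0H14.BC.KerE

/-! The final bounds of the kernels. -/

set_option autoImplicit false

open MeasureTheory Set Finset
open Polynomial (C X)

namespace Pool.Agent.D0H14.BC

theorem sqrt_cube {x : ℝ} (hx : 0 ≤ x) : √(x ^ 3) = √x ^ 3 := by
  rw [Real.sqrt_eq_iff_mul_self_eq (by positivity) (by positivity)]
  have h := Real.sq_sqrt hx
  calc x ^ 3 = (√x ^ 2) ^ 3 := by rw [h]
    _ = √x ^ 3 * √x ^ 3 := by ring

theorem tele (n : ℕ) (hn : 1 ≤ n) :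
    ∑ j ∈ Ico 1 n, (1 / √(j : ℝ) - 1 / √((j : ℝ) + 1)) = 1 - 1 / √(n : ℝ) := by
  induction n, hn using Nat.le_induction with
  | base => simp
  | succ m hm ih =>
    rw [sum_Ico_succ_top hm, ih]
    push_cast
    ring

theorem term_le (j : ℕ) (hj : 1 ≤ j) :
    1 / (√2 * √(1 + 2 * (j : ℝ)) * (1 + j)) ≤ 1 / √(j : ℝ) - 1 / √((j : ℝ) + 1) := by
  have hj1 : (1 : ℝ) ≤ j := by exact_mod_cast hj
  set s := √(j : ℝ) with hs
  set t := √((j : ℝ) + 1) with ht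
  have hs0 : 0 < s := Real.sqrt_pos.2 (by linarith)
  have ht0 : 0 < t := Real.sqrt_pos.2 (by linarith)
  have hs2 : s ^ 2 = j := Real.sq_sqrt (by linarith)
  have ht2 : t ^ 2 = (j : ℝ) + 1 := Real.sq_sqrt (by linarith)
  have hst : s ≤ t := Real.sqrt_le_sqrt (by linarith)
  have h1 : (1 : ℝ) + j = t ^ 2 := by rw [ht2]; ring
  have h2 : s + t ≤ √2 * √(1 + 2 * (j : ℝ)) := by
    rw [← Real.sqrt_mul (by norm_num)]
    refine Real.le_sqrt_of_sq_le ?_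
    have : 2 * (1 + 2 * (j : ℝ)) = 2 * (s ^ 2 + t ^ 2) := by rw [hs2, ht2]; ring
    rw [this]
    nlinarith [sq_nonneg (s - t)]
  have h3 : (t - s) * (s + t) = 1 := by
    have : (t - s) * (s + t) = t ^ 2 - s ^ 2 := by ring
    rw [this, hs2, ht2]
    ring
  have h4 : 1 / s - 1 / t = 1 / (s * t * (s + t)) := by
    field_simp
    linarith
  rw [h4, h1]
  refine one_div_le_one_div_of_le (by positivity) ?_
  calc s * t * (s + t) ≤ t * t * (s + t) := by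
        apply mul_le_mul_of_nonneg_right _ (by positivity)
        exact mul_le_mul_of_nonneg_right hst ht0.le
    _ ≤ t * t * (√2 * √(1 + 2 * (j : ℝ))) := mul_le_mul_of_nonneg_left h2 (by positivity)
    _ = _ := by ring

theorem A_term (k : ℝ) (hk : 1 ≤ k) (n j : ℕ) (hj : 1 ≤ j) (hjn : j < n) :
    (k + n) ^ 2 * (√(1 / (2 * k)) * (1 / (√(nd k j) * (nd k j + k)))) ≤
      ((n : ℝ) + 1) ^ 2 / 2 * (1 / √(j : ℝ) - 1 / √((j : ℝ) + 1)) := by
  have hj1 : (1 : ℝ) ≤ j := by exact_mod_cast hj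
  have hjn' : (j : ℝ) + 1 ≤ n := by exact_mod_cast hjn
  have hk0 : 0 < k := by linarith
  refine le_trans ?_ (mul_le_mul_of_nonneg_left (term_le j hj) (by positivity))
  have hA : 0 < √(1 + 2 * (j : ℝ)) := Real.sqrt_pos.2 (by linarith)
  have hA2 : √(1 + 2 * (j : ℝ)) ^ 2 = 1 + 2 * j := Real.sq_sqrt (by linarith)
  have hB : 0 < √k := Real.sqrt_pos.2 hk0
  have hB2 : √k ^ 2 = k := Real.sq_sqrt hk0.le
  have hC : 0 < √(nd k j) := Real.sqrt_pos.2 (by unfold nd; linarith)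
  have hC2 : √(nd k j) ^ 2 = k + 2 * j := Real.sq_sqrt (by unfold nd; linarith)
  have h2 : 0 < √(2 : ℝ) := Real.sqrt_pos.2 (by norm_num)
  have e1 : √(1 / (2 * k)) = 1 / (√2 * √k) := by
    rw [Real.sqrt_div zero_le_one, Real.sqrt_one, Real.sqrt_mul (by norm_num)]
  have e2 : nd k j + k = 2 * (k + j) := by unfold nd; ring
  rw [e1, e2]
  have f1 : (k + n) * √(1 + 2 * (j : ℝ)) ≤ ((n : ℝ) + 1) * (√k * √(nd k j)) := by
    refine abs_le_of_sq_le_sq' ?_ (by positivity) |>.2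
    rw [mul_pow, mul_pow, mul_pow, hA2, hB2, hC2]
    have h3 : ((n : ℝ) + 1) ^ 2 * (k * (k + 2 * j)) - (k + n) ^ 2 * (1 + 2 * j) =
        (k - 1) * ((((n : ℝ) + 1) ^ 2 - 1 - 2 * j) * k + (1 + 2 * j) * n ^ 2) := by ring
    have h4 : 0 ≤ (k - 1) * ((((n : ℝ) + 1) ^ 2 - 1 - 2 * j) * k + (1 + 2 * j) * n ^ 2) := by
      refine mul_nonneg (by linarith) (add_nonneg (mul_nonneg ?_ hk0.le) (by positivity))
      nlinarith
    linarith
  have f2 : (k + n) * (1 + j) ≤ ((n : ℝ) + 1) * (k + j) := by nlinarith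
  have g1 : (k + n) / (√k * √(nd k j)) ≤ ((n : ℝ) + 1) / √(1 + 2 * (j : ℝ)) := by
    rw [div_le_div_iff₀ (by positivity) hA]
    exact f1
  have g2 : (k + n) / (k + j) ≤ ((n : ℝ) + 1) / (1 + j) := by
    rw [div_le_div_iff₀ (by positivity) (by positivity)]
    exact f2
  calc (k + n) ^ 2 * (1 / (√2 * √k) * (1 / (√(nd k j) * (2 * (k + j))))) =
      1 / (2 * √2) * (((k + n) / (√k * √(nd k j))) * ((k + n) / (k + j))) := by
        field_simp
    _ ≤ 1 / (2 * √2) * ((((n : ℝ) + 1) / √(1 + 2 * (j : ℝ))) * (((n : ℝ) + 1) / (1 + j))) :=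
        mul_le_mul_of_nonneg_left (mul_le_mul g1 g2 (by positivity) (by positivity)) (by positivity)
    _ = _ := by
        field_simp

theorem isq_le_one (n : ℕ) (hn : 1 ≤ n) : 1 / √(n : ℝ) ≤ 1 := by
  have hn1 : (1 : ℝ) ≤ n := by exact_mod_cast hn
  have : 1 ≤ √(n : ℝ) := Real.one_le_sqrt.2 hn1
  rw [div_le_one (by linarith)]
  exact this

theorem A_num (k : ℝ) (hk : 1 ≤ k) (n : ℕ) (hn : 1 ≤ n) :
    (2 * k + 2 * n) * √(2 * Real.pi * √(1 / (2 * k)) *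
      (∑ j ∈ Ico 1 n, 1 / (√(nd k j) * (nd k j + k)) + √((1 / (2 * k)) ^ 3))) ≤
      2 * ((n : ℝ) + 1) * √(Real.pi * (3 / 2 - 1 / √(n : ℝ))) := by
  have hn1 : (1 : ℝ) ≤ n := by exact_mod_cast hn
  have hk0 : 0 < k := by linarith
  have hπ := Real.pi_pos
  have hi := isq_le_one n hn
  have hr : 0 < √(1 / (2 * k)) := Real.sqrt_pos.2 (by positivity)
  have hr2 : √(1 / (2 * k)) ^ 2 = 1 / (2 * k) := Real.sq_sqrt (by positivity)
  have h1 : (k + n) ^ 2 * (√(1 / (2 * k)) * ∑ j ∈ Ico 1 n, 1 / (√(nd k j) * (nd k j + k))) ≤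
      ((n : ℝ) + 1) ^ 2 / 2 * (1 - 1 / √(n : ℝ)) := by
    rw [← tele n hn, mul_sum, mul_sum, mul_sum]
    refine sum_le_sum fun j hj => ?_
    rw [Finset.mem_Ico] at hj
    exact A_term k hk n j hj.1 hj.2
  have h2 : (k + n) ^ 2 * (√(1 / (2 * k)) * √((1 / (2 * k)) ^ 3)) ≤ ((n : ℝ) + 1) ^ 2 / 4 := by
    rw [sqrt_cube (by positivity)]
    have e : √(1 / (2 * k)) * √(1 / (2 * k)) ^ 3 = (1 / (2 * k)) ^ 2 := by
      calc √(1 / (2 * k)) * √(1 / (2 * k)) ^ 3 = (√(1 / (2 * k)) ^ 2) ^ 2 := by ring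
        _ = _ := by rw [hr2]
    rw [e]
    have h3 : (k + n) ^ 2 * (1 / (2 * k)) ^ 2 = ((k + n) / k) ^ 2 / 4 := by
      field_simp
      ring
    rw [h3]
    have h4 : (k + n) / k ≤ (n : ℝ) + 1 := by
      rw [div_le_iff₀ hk0]
      nlinarith
    have h5 : 0 ≤ (k + n) / k := by positivity
    have := pow_le_pow_left₀ h5 h4 2
    linarith
  refine abs_le_of_sq_le_sq' ?_ (by positivity) |>.2
  have hs0 : 0 ≤ ∑ j ∈ Ico 1 n, 1 / (√(nd k j) * (nd k j + k)) := sum_nonneg fun j _ => by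
    have : 0 < nd k j := by unfold nd; positivity
    positivity
  rw [mul_pow, mul_pow, Real.sq_sqrt (by positivity), Real.sq_sqrt (by
    apply mul_nonneg hπ.le
    linarith)]
  have h6 : (2 * k + 2 * n) ^ 2 * (2 * Real.pi * √(1 / (2 * k)) *
      (∑ j ∈ Ico 1 n, 1 / (√(nd k j) * (nd k j + k)) + √((1 / (2 * k)) ^ 3))) =
      8 * Real.pi * ((k + n) ^ 2 * (√(1 / (2 * k)) * ∑ j ∈ Ico 1 n, 1 / (√(nd k j) * (nd k j + k))) +
        (k + n) ^ 2 * (√(1 / (2 * k)) * √((1 / (2 * k)) ^ 3))) := by ring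
  rw [h6]
  calc _ ≤ 8 * Real.pi * (((n : ℝ) + 1) ^ 2 / 2 * (1 - 1 / √(n : ℝ)) + ((n : ℝ) + 1) ^ 2 / 4) :=
        mul_le_mul_of_nonneg_left (add_le_add h1 h2) (by positivity)
    _ = _ := by ring

theorem BB_num (k : ℝ) (hk : 0 ≤ k) (n : ℕ) (hn : 1 ≤ n) :
    (2 * k + 2 * n) * √(Real.pi * √(1 / (2 * nd k n)) *
      (1 / nd k n * ∑ j ∈ Ico 1 n, 1 / √(nd k j) + √(2 * (1 / (2 * nd k n)) ^ 3))) ≤
      2 * ((n : ℝ) + 1) * √(Real.pi * (3 / 2 - 1 / √(n : ℝ))) := by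
  have hn1 : (1 : ℝ) ≤ n := by exact_mod_cast hn
  have hπ := Real.pi_pos
  have hi := isq_le_one n hn
  have hc : 0 < nd k n := by unfold nd; linarith
  have hkn : 0 < k + n := by linarith
  set c := nd k n with hcd
  have hkc : k + n ≤ c := by rw [hcd]; unfold nd; linarith
  set ρ := ∑ j ∈ Ico 1 n, 1 / √(nd k j) with hρ
  have hρ0 : 0 ≤ ρ := sum_nonneg fun j _ => by positivity
  have hρ1 : √(k + n) * ρ ≤ √2 * n := isq_bound k hk n hn
  have hu : 0 < √(k + n) := Real.sqrt_pos.2 hkn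
  have hu2 : √(k + n) ^ 2 = k + n := Real.sq_sqrt hkn.le
  have hv : 0 < √c := Real.sqrt_pos.2 hc
  have hv2 : √c ^ 2 = c := Real.sq_sqrt hc.le
  have h2 : 0 < √(2 : ℝ) := Real.sqrt_pos.2 (by norm_num)
  have h22 : √(2 : ℝ) ^ 2 = 2 := Real.sq_sqrt (by norm_num)
  have huv : √(k + n) ≤ √c := Real.sqrt_le_sqrt hkc
  have e1 : √(1 / (2 * c)) = 1 / (√2 * √c) := by
    rw [Real.sqrt_div zero_le_one, Real.sqrt_one, Real.sqrt_mul (by norm_num)]
  have e2 : √(2 * (1 / (2 * c)) ^ 3) = √2 * (1 / (√2 * √c)) ^ 3 := by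
    rw [Real.sqrt_mul (by norm_num), sqrt_cube (by positivity), e1]
  have h1 : (k + n) ^ 2 * (√(1 / (2 * c)) * (1 / c * ρ)) ≤ n := by
    rw [e1]
    set u := √(k + n) with hud
    set v := √c with hvd
    rw [← hu2, ← hv2]
    calc (u ^ 2) ^ 2 * (1 / (√2 * v) * (1 / v ^ 2 * ρ)) = u ^ 3 / v ^ 3 * (u * ρ) / √2 := by
          field_simp
      _ ≤ 1 * (√2 * n) / √2 := by
          apply div_le_div_of_nonneg_right _ h2.le
          refine mul_le_mul ?_ hρ1 (by positivity) (by norm_num)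
          rw [div_le_one (by positivity)]
          exact pow_le_pow_left₀ hu.le huv 3
      _ = n := by field_simp
  have h3 : (k + n) ^ 2 * (√(1 / (2 * c)) * √(2 * (1 / (2 * c)) ^ 3)) ≤ 1 / 2 := by
    rw [e1, e2]
    have e3 : 1 / (√2 * √c) * (√2 * (1 / (√2 * √c)) ^ 3) = √2 / (4 * c ^ 2) := by
      have e4 : (√2 * √c) ^ 4 = 4 * c ^ 2 := by
        calc (√2 * √c) ^ 4 = (√2 ^ 2) ^ 2 * (√c ^ 2) ^ 2 := by ring
          _ = 4 * c ^ 2 := by rw [h22, hv2]; norm_num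
      rw [← e4]
      field_simp
    rw [e3]
    have h4 : (k + n) ^ 2 ≤ c ^ 2 := pow_le_pow_left₀ hkn.le hkc 2
    have h5 : √(2 : ℝ) ≤ 3 / 2 := sqrt_le' (by norm_num) (by norm_num)
    rw [mul_div_assoc', div_le_div_iff₀ (by positivity) (by norm_num)]
    have h6 : (k + n) ^ 2 * √2 ≤ c ^ 2 * (3 / 2) := mul_le_mul h4 h5 h2.le (by positivity)
    nlinarith [sq_nonneg c]
  refine abs_le_of_sq_le_sq' ?_ (by positivity) |>.2
  rw [mul_pow, mul_pow, Real.sq_sqrt (by positivity), Real.sq_sqrt (by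
    apply mul_nonneg hπ.le
    linarith)]
  have h6 : (2 * k + 2 * n) ^ 2 * (Real.pi * √(1 / (2 * c)) * (1 / c * ρ + √(2 * (1 / (2 * c)) ^ 3))) =
      4 * Real.pi * ((k + n) ^ 2 * (√(1 / (2 * c)) * (1 / c * ρ)) +
        (k + n) ^ 2 * (√(1 / (2 * c)) * √(2 * (1 / (2 * c)) ^ 3))) := by ring
  rw [h6]
  calc _ ≤ 4 * Real.pi * ((n : ℝ) + 1 / 2) := mul_le_mul_of_nonneg_left (add_le_add h1 h3) (by positivity)
    _ ≤ 4 * Real.pi * (((n : ℝ) + 1) ^ 2 * (3 / 2 - 1 / √(n : ℝ))) := by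
        apply mul_le_mul_of_nonneg_left _ (by positivity)
        have : ((n : ℝ) + 1) ^ 2 * (1 / 2) ≤ ((n : ℝ) + 1) ^ 2 * (3 / 2 - 1 / √(n : ℝ)) :=
          mul_le_mul_of_nonneg_left (by linarith) (by positivity)
        nlinarith
    _ = _ := by ring

/-- the Blaschke kernel -/
theorem exBk (k : ℝ) (hk : 0 ≤ k) (n : ℕ) (hn : 1 ≤ n) : ∃ β : ℕ → ℝ,
    QN (Finset.Ico 1 n) (nd k) = PP (Finset.Ico 1 n) (nd k) -
      ∑ j ∈ Finset.Ico 1 n, C (β j) * PP ((Finset.Ico 1 n).erase j) (nd k) ∧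
    ∫ y in Ioi (0 : ℝ), |eN (Finset.Ico 1 n) β (nd k) y| ≤
      √(2 * Real.pi * n * √((n : ℝ) - 1)) := by
  obtain ⟨β, h1, h2⟩ := exB (Finset.Ico 1 n) (nd k) ((nd_inj k).injOn)
  refine ⟨β, h1, ?_⟩
  rcases (Finset.Ico 1 n).eq_empty_or_nonempty with h | h
  · rw [h]
    simp only [eN, sum_empty, abs_zero, integral_zero]
    exact Real.sqrt_nonneg _
  · refine (KB h h1 h2 fun j hj => ?_).trans (B_num k hk n hn)
    rw [Finset.mem_Ico] at hj
    have : (1 : ℝ) ≤ j := by exact_mod_cast hj.1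
    unfold nd
    linarith

theorem kerA (n : ℕ) (hn : 1 ≤ n) (k : ℝ) (hk : 1 ≤ k) : ∃ κ : ℕ → ℝ,
    (X - C (nd k n)) * QN (Finset.Ico 1 n) (nd k) = PP (range n) (nd k) -
      ∑ j ∈ range n, C (κ j) * PP ((range n).erase j) (nd k) ∧
    1 + ∫ y in Ioi (0 : ℝ), |eN (range n) κ (nd k) y| ≤ BB n := by
  have hn1 : (1 : ℝ) ≤ n := by exact_mod_cast hn
  have hS : insert 0 (Finset.Ico 1 n) = range n := by
    ext j
    simp only [Finset.mem_insert, Finset.mem_Ico, Finset.mem_range]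
    omega
  have h0 : (0 : ℕ) ∉ Finset.Ico 1 n := by simp
  obtain ⟨β, hB, hBi⟩ := exBk k (by linarith) n hn
  obtain ⟨γ, hG⟩ := exG (Finset.Ico 1 n) (insert 0 (Finset.Ico 1 n)) (nd k) ((nd_inj k).injOn)
    (by rw [card_insert_of_notMem h0]; omega)
  have ha : ∀ j ∈ insert 0 (Finset.Ico 1 n), 0 < nd k j := by
    intro j _
    have : (0 : ℝ) ≤ j := Nat.cast_nonneg j
    unfold nd
    linarith
  have hlt : ∀ j ∈ Finset.Ico 1 n, nd k 0 < nd k j := by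
    intro j hj
    rw [Finset.mem_Ico] at hj
    have : (1 : ℝ) ≤ j := by exact_mod_cast hj.1
    unfold nd
    push_cast
    linarith
  have hc := comb h0 (nd k n) hB hG
  have hd : nd k 0 + nd k n = 2 * k + 2 * n := by unfold nd; push_cast; ring
  have e0 : nd k 0 = k := by unfold nd; push_cast; ring
  refine ⟨kap (Finset.Ico 1 n) β γ (nd k 0 + nd k n), ?_, ?_⟩
  · rw [hS] at hc
    exact hc
  · have h1 := kap_int (β := β) (γ := γ) h0 (d := nd k 0 + nd k n) (by rw [hd]; positivity) ha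
    have h2 := KA h0 hG ha hlt
    rw [e0] at h2
    rw [hS] at h1 h2
    have h3 := A_num k hk n hn
    have h4 : (nd k 0 + nd k n) * ∫ y in Ioi (0 : ℝ), |eN (range n) γ (nd k) y| ≤
        2 * ((n : ℝ) + 1) * √(Real.pi * (3 / 2 - 1 / √(n : ℝ))) := by
      rw [hd]
      exact (mul_le_mul_of_nonneg_left h2 (by positivity)).trans h3
    unfold BB
    linarith

theorem kerB (n : ℕ) (hn : 1 ≤ n) (k : ℝ) (hk : 0 ≤ k) : ∃ κ : ℕ → ℝ,
    (X - C (nd k 0)) * QN (Finset.Ico 1 n) (nd k) = PP (Finset.Ico 1 (n + 1)) (nd k) -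
      ∑ j ∈ Finset.Ico 1 (n + 1), C (κ j) * PP ((Finset.Ico 1 (n + 1)).erase j) (nd k) ∧
    1 + ∫ y in Ioi (0 : ℝ), |eN (Finset.Ico 1 (n + 1)) κ (nd k) y| ≤ BB n := by
  have hn1 : (1 : ℝ) ≤ n := by exact_mod_cast hn
  have hS : insert n (Finset.Ico 1 n) = Finset.Ico 1 (n + 1) := by
    ext j
    simp only [Finset.mem_insert, Finset.mem_Ico]
    omega
  have h0 : n ∉ Finset.Ico 1 n := by simp
  obtain ⟨β, hB, hBi⟩ := exBk k hk n hn
  obtain ⟨γ, hG⟩ := exG (Finset.Ico 1 n) (insert n (Finset.Ico 1 n)) (nd k) ((nd_inj k).injOn)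
    (by rw [card_insert_of_notMem h0]; omega)
  have ha : ∀ j ∈ insert n (Finset.Ico 1 n), 0 < nd k j := by
    intro j hj
    rw [hS, Finset.mem_Ico] at hj
    have : (1 : ℝ) ≤ j := by exact_mod_cast hj.1
    unfold nd
    linarith
  have hc := comb h0 (nd k 0) hB hG
  have hd : nd k n + nd k 0 = 2 * k + 2 * n := by unfold nd; push_cast; ring
  refine ⟨kap (Finset.Ico 1 n) β γ (nd k n + nd k 0), ?_, ?_⟩
  · rw [hS] at hc
    exact hc
  · have h1 := kap_int (β := β) (γ := γ) h0 (d := nd k n + nd k 0) (by rw [hd]; positivity) ha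
    have h2 := KBB h0 hG ha
    rw [hS] at h1 h2
    have h3 := BB_num k hk n hn
    have h4 : (nd k n + nd k 0) * ∫ y in Ioi (0 : ℝ), |eN (Finset.Ico 1 (n + 1)) γ (nd k) y| ≤
        2 * ((n : ℝ) + 1) * √(Real.pi * (3 / 2 - 1 / √(n : ℝ))) := by
      rw [hd]
      exact (mul_le_mul_of_nonneg_left h2 (by positivity)).trans h3
    unfold BB
    linarith

end Pool.Agent.D0H14.BC
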