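import Pool.Agent.D0H14.BC.PF

/-! Polynomials in `-d/dx` and the resolvent. -/

set_option autoImplicit false

open MeasureTheory Set Filter
open Polynomial (C X)
open scoped ContDiff

namespace Pool.Agent.D0H14.BC

/-- `P (-d/dx) W` -/
noncomputable def opS (P : Polynomial ℝ) (W : ℝ → ℂ) (x : ℝ) : ℂ :=
  P.sum fun i c => (c : ℂ) * ((-1) ^ i * iteratedDeriv i W x)

theorem opS_add (P Q : Polynomial ℝ) (W : ℝ → ℂ) (x : ℝ) :
    opS (P + Q) W x = opS P W x + opS Q W x := by
  unfold opS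
  refine Polynomial.sum_add_index _ _ _ (fun i => by simp) fun i a b => ?_
  push_cast
  ring

theorem opS_C_mul (a : ℝ) (P : Polynomial ℝ) (W : ℝ → ℂ) (x : ℝ) :
    opS (C a * P) W x = a * opS P W x := by
  unfold opS
  rw [← Polynomial.smul_eq_C_mul, Polynomial.sum_smul_index _ _ _ (fun i => by simp),
    Polynomial.sum_def, Polynomial.sum_def, Finset.mul_sum]
  refine Finset.sum_congr rfl fun i _ => ?_
  push_cast
  ring

theorem opS_zero (W : ℝ → ℂ) (x : ℝ) : opS 0 W x = 0 := by simp [opS]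

theorem opS_one (W : ℝ → ℂ) (x : ℝ) : opS 1 W x = W x := by
  unfold opS
  rw [← Polynomial.C_1, Polynomial.sum_C_index (by simp)]
  simp

theorem opS_sub (P Q : Polynomial ℝ) (W : ℝ → ℂ) (x : ℝ) :
    opS (P - Q) W x = opS P W x - opS Q W x := by
  have h := opS_add (P - Q) Q W x
  rw [sub_add_cancel] at h
  rw [h]
  ring

theorem opS_sum (S : Finset ℕ) (F : ℕ → Polynomial ℝ) (W : ℝ → ℂ) (x : ℝ) :
    opS (∑ j ∈ S, F j) W x = ∑ j ∈ S, opS (F j) W x := by
  induction S using Finset.induction_on with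
  | empty => simp [opS_zero]
  | insert i S hi ih => rw [Finset.sum_insert hi, Finset.sum_insert hi, opS_add, ih]

theorem opS_range (P : Polynomial ℝ) (W : ℝ → ℂ) (x : ℝ) :
    opS P W x = ∑ i ∈ Finset.range (P.natDegree + 1),
      (P.coeff i : ℂ) * ((-1) ^ i * iteratedDeriv i W x) :=
  Polynomial.sum_over_range _ fun i => by simp

theorem iter_smooth {W : ℝ → ℂ} (hW : ContDiff ℝ ∞ W) (i : ℕ) : ContDiff ℝ ∞ (iteratedDeriv i W) := by
  induction i with
  | zero => simpa using hW
  | succ i ih =>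
    rw [iteratedDeriv_succ]
    exact ((contDiff_infty_iff_deriv (f := iteratedDeriv i W)).1 ih).2

theorem opS_smooth {W : ℝ → ℂ} (hW : ContDiff ℝ ∞ W) (P : Polynomial ℝ) :
    ContDiff ℝ ∞ (opS P W) := by
  have : opS P W = fun x => ∑ i ∈ Finset.range (P.natDegree + 1),
      (P.coeff i : ℂ) * ((-1) ^ i * iteratedDeriv i W x) := funext fun x => opS_range P W x
  rw [this]
  refine ContDiff.sum fun i _ => ?_
  exact contDiff_const.mul (contDiff_const.mul (iter_smooth hW i))

theorem opS_deriv {W : ℝ → ℂ} (hW : ContDiff ℝ ∞ W) (P : Polynomial ℝ) (x : ℝ) :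
    HasDerivAt (opS P W) (-opS (X * P) W x) x := by
  induction P using Polynomial.induction_on' with
  | add P Q hP hQ =>
    have h := hP.add hQ
    have e : opS (P + Q) W = opS P W + opS Q W := funext fun y => opS_add P Q W y
    rw [e]
    refine h.congr_deriv ?_
    rw [mul_add, opS_add]
    ring
  | monomial i a =>
    have e : opS (Polynomial.monomial i a) W = fun y => (a : ℂ) * ((-1) ^ i * iteratedDeriv i W y) := by
      funext y
      unfold opS
      rw [Polynomial.sum_monomial_index _ _ (by simp)]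
    have e2 : opS (X * Polynomial.monomial i a) W x =
        (a : ℂ) * ((-1) ^ (i + 1) * iteratedDeriv (i + 1) W x) := by
      unfold opS
      rw [Polynomial.X_mul_monomial, Polynomial.sum_monomial_index _ _ (by simp)]
    rw [e, e2, iteratedDeriv_succ]
    have h1 : HasDerivAt (iteratedDeriv i W) (deriv (iteratedDeriv i W) x) x :=
      ((iter_smooth hW i).differentiable (by norm_num) x).hasDerivAt
    refine ((h1.const_mul ((-1) ^ i : ℂ)).const_mul (a : ℂ)).congr_deriv ?_
    rw [pow_succ]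
    ring

theorem opS_lin {W : ℝ → ℂ} (hW : ContDiff ℝ ∞ W) (P : Polynomial ℝ) (a x : ℝ) :
    opS ((X + C a) * P) W x = -deriv (opS P W) x + a * opS P W x := by
  rw [add_mul, opS_add, opS_C_mul, (opS_deriv hW P x).deriv, neg_neg]

theorem iter_zero {W : ℝ → ℂ} {R : ℝ} (h : ∀ x, R < x → W x = 0) (i : ℕ) :
    ∀ x, R < x → iteratedDeriv i W x = 0 := by
  induction i with
  | zero => simpa using h
  | succ i ih =>
    intro x hx
    rw [iteratedDeriv_succ]
    have : iteratedDeriv i W =ᶠ[nhds x] fun _ => 0 := by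
      filter_upwards [Ioi_mem_nhds hx] with y hy
      exact ih y hy
    rw [this.deriv_eq, deriv_const]

theorem opS_supp {W : ℝ → ℂ} {R : ℝ} (h : ∀ x, R < x → W x = 0) (P : Polynomial ℝ) :
    ∀ x, R < x → opS P W x = 0 := by
  intro x hx
  rw [opS_range]
  refine Finset.sum_eq_zero fun i _ => ?_
  rw [iter_zero h i x hx]
  ring

/-- the resolvent -/
theorem resolvent {w F : ℝ → ℂ} {a R : ℝ} (hw : ContDiff ℝ ∞ w)
    (hF : ∀ x, -deriv w x + a * w x = F x) (hR : ∀ x, R < x → w x = 0) (x : ℝ) :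
    IntegrableOn (fun y : ℝ => (Real.exp (-(a * y)) : ℂ) * F (x + y)) (Ioi 0) ∧
    ∫ y in Ioi (0 : ℝ), (Real.exp (-(a * y)) : ℂ) * F (x + y) = w x := by
  have hd1 : Differentiable ℝ w := hw.differentiable (by norm_num)
  have hc : Continuous F := by
    have h1 : Continuous (deriv w) := hw.continuous_deriv (by norm_num)
    have : F = fun x => -deriv w x + a * w x := funext fun x => (hF x).symm
    rw [this]
    exact h1.neg.add (continuous_const.mul hw.continuous)
  have hFz : ∀ x, R < x → F x = 0 := by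
    intro y hy
    rw [← hF, hR y hy]
    have : w =ᶠ[nhds y] fun _ => 0 := by
      filter_upwards [Ioi_mem_nhds hy] with t ht
      exact hR t ht
    rw [this.deriv_eq, deriv_const]
    simp
  have hcont : Continuous (fun y : ℝ => (Real.exp (-(a * y)) : ℂ) * F (x + y)) :=
    (Complex.continuous_ofReal.comp (by fun_prop)).mul (hc.comp (by fun_prop))
  have hint : IntegrableOn (fun y : ℝ => (Real.exp (-(a * y)) : ℂ) * F (x + y)) (Ioi 0) := by
    have h1 : IntegrableOn (fun y : ℝ => (Real.exp (-(a * y)) : ℂ) * F (x + y)) (Ioc 0 (|R - x| + 1)) :=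
      (hcont.integrableOn_Icc).mono_set Ioc_subset_Icc_self
    have h2 : IntegrableOn (fun y : ℝ => (Real.exp (-(a * y)) : ℂ) * F (x + y)) (Ioi (|R - x| + 1)) := by
      refine (integrableOn_zero).congr_fun (fun y hy => ?_) measurableSet_Ioi
      have hy' : |R - x| + 1 < y := hy
      have := le_abs_self (R - x)
      rw [hFz (x + y) (by linarith), mul_zero]
    rw [← Ioc_union_Ioi_eq_Ioi (show (0 : ℝ) ≤ |R - x| + 1 by positivity)]
    exact h1.union h2
  refine ⟨hint, ?_⟩
  have hder : ∀ y ∈ Ici (0 : ℝ), HasDerivAt (fun y : ℝ => -((Real.exp (-(a * y)) : ℂ) * w (x + y)))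
      ((Real.exp (-(a * y)) : ℂ) * F (x + y)) y := by
    intro y _
    have h1 : HasDerivAt (fun y : ℝ => -(a * y)) (-a) y :=
      (((hasDerivAt_id y).const_mul a).neg).congr_deriv (by simp)
    have h2 : HasDerivAt (fun y : ℝ => Real.exp (-(a * y))) (Real.exp (-(a * y)) * -a) y := h1.exp
    have h3 := h2.ofReal_comp
    have h4 : HasDerivAt (fun y : ℝ => w (x + y)) (deriv w (x + y)) y := by
      have h5 := (hd1 (x + y)).hasDerivAt
      exact h5.comp_const_add x y
    refine ((h3.mul h4).neg).congr_deriv ?_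
    rw [← hF]
    push_cast
    ring
  have ht : Tendsto (fun y : ℝ => -((Real.exp (-(a * y)) : ℂ) * w (x + y))) atTop (nhds 0) := by
    refine tendsto_const_nhds.congr' ?_
    filter_upwards [eventually_gt_atTop (R - x)] with y hy
    rw [hR (x + y) (by linarith), mul_zero, neg_zero]
  rw [integral_Ioi_of_hasDerivAt_of_tendsto' hder hint ht]
  simp

/-- `κ (y) = ∑ κ_j e ^ (-a_j y)` -/
noncomputable def eN' (S : Finset ℕ) (x a : ℕ → ℝ) (y : ℝ) : ℝ := ∑ j ∈ S, x j * Real.exp (-(a j * y))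

/-- the outward formula -/
theorem outward {S : Finset ℕ} {κ a : ℕ → ℝ} {P Q : Polynomial ℝ} {Pj : ℕ → Polynomial ℝ}
    (h1 : ∀ j ∈ S, (X + C (a j)) * Pj j = P) (h2 : Q = P - ∑ j ∈ S, C (κ j) * Pj j)
    {W : ℝ → ℂ} (hW : ContDiff ℝ ∞ W) {R : ℝ} (hR : ∀ x, R < x → W x = 0) (x : ℝ) :
    IntegrableOn (fun y : ℝ => (eN' S κ a y : ℂ) * opS P W (x + y)) (Ioi 0) ∧
    opS Q W x = opS P W x - ∫ y in Ioi (0 : ℝ), (eN' S κ a y : ℂ) * opS P W (x + y) := by
  have key : ∀ j ∈ S, IntegrableOn (fun y : ℝ => (Real.exp (-(a j * y)) : ℂ) * opS P W (x + y)) (Ioi 0) ∧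
      ∫ y in Ioi (0 : ℝ), (Real.exp (-(a j * y)) : ℂ) * opS P W (x + y) = opS (Pj j) W x := by
    intro j hj
    refine resolvent (opS_smooth hW (Pj j)) (fun z => ?_) (opS_supp hR (Pj j)) x
    rw [← h1 j hj, opS_lin hW]
  have e : ∀ y : ℝ, (eN' S κ a y : ℂ) * opS P W (x + y) =
      ∑ j ∈ S, (κ j : ℂ) * ((Real.exp (-(a j * y)) : ℂ) * opS P W (x + y)) := by
    intro y
    unfold eN'
    push_cast
    rw [Finset.sum_mul]
    exact Finset.sum_congr rfl fun j _ => by ring
  simp only [e]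
  refine ⟨integrable_finsetSum _ fun j hj => (key j hj).1.const_mul _, ?_⟩
  rw [h2, opS_sub, opS_sum, integral_finsetSum _ fun j hj => (key j hj).1.const_mul _]
  congr 1
  refine Finset.sum_congr rfl fun j hj => ?_
  rw [opS_C_mul, integral_const_mul, (key j hj).2]

end Pool.Agent.D0H14.BC
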