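import Pool.Agent.Y282.RB.A1
import Pool.Agent.Y282.RB.A2
import Pool.Agent.D0H14.BC.Stm
import Pool.Agent.D0H14.BC.Op
import Pool.Agent.D0H14.BC.KerE

/-! The representation of `T ^ n` on the angular modes. -/

set_option autoImplicit false

open MeasureTheory Set Filter
open Polynomial (C X)
open scoped SchwartzMap ContDiff

namespace Pool.Agent.D0H14.BC

open Pool.Agent.Y282.RB (Tn)
open Pool.Agent.Y282.RB.A2 (db dd db_apply dd_apply db_iter Tn_db)

theorem cl_fd {b : ℤ} {v : 𝓢(ℂ, ℂ)} (h : Cl b v) {a : ℂ} (ha : ‖a‖ = 1) (z w : ℂ) :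
    fderiv ℝ v (a * z) (a * w) = a ^ b * fderiv ℝ v z w := by
  have h1 : (fun z => v (a * z)) = fun z => a ^ b * v z := funext fun z => h a z ha
  have hd : Differentiable ℝ v := v.differentiable
  have e1 : HasFDerivAt (fun z => v (a * z))
      ((fderiv ℝ v (a * z)).comp (ContinuousLinearMap.mul ℝ ℂ a)) z :=
    HasFDerivAt.comp (g := v) z (hd (a * z)).hasFDerivAt (ContinuousLinearMap.mul ℝ ℂ a).hasFDerivAt
  have e2 : HasFDerivAt (fun z => a ^ b * v z) (a ^ b • fderiv ℝ v z) z :=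
    (hd z).hasFDerivAt.const_mul (a ^ b)
  rw [h1] at e1
  have h2 := congrArg (fun L : ℂ →L[ℝ] ℂ => L w) (e1.unique e2)
  simpa using h2

theorem lin_conj (L : ℂ →L[ℝ] ℂ) (a : ℂ) :
    L ((starRingEnd ℂ) a) = a.re * L 1 - a.im * L Complex.I := by
  have e : (starRingEnd ℂ) a = a.re • (1 : ℂ) + (-a.im) • Complex.I := by
    apply Complex.ext <;> simp
  rw [e, map_add, map_smul, map_smul, Complex.real_smul, Complex.real_smul]
  push_cast
  ring

theorem lin_conjI (L : ℂ →L[ℝ] ℂ) (a : ℂ) :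
    L ((starRingEnd ℂ) a * Complex.I) = a.im * L 1 + a.re * L Complex.I := by
  have e : (starRingEnd ℂ) a * Complex.I = a.im • (1 : ℂ) + a.re • Complex.I := by
    apply Complex.ext <;> simp
  rw [e, map_add, map_smul, map_smul, Complex.real_smul, Complex.real_smul]

theorem mul_conj_one {a : ℂ} (ha : ‖a‖ = 1) : a * (starRingEnd ℂ) a = 1 := by
  rw [Complex.mul_conj, Complex.normSq_eq_norm_sq, ha]
  simp

theorem ne_zero_one {a : ℂ} (ha : ‖a‖ = 1) : a ≠ 0 := by
  rw [← norm_ne_zero_iff, ha]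
  norm_num

theorem cl_db {b : ℤ} {v : 𝓢(ℂ, ℂ)} (h : Cl b v) : Cl (b + 1) (db v) := by
  intro a z ha
  rw [db_apply, db_apply]
  have ha0 := ne_zero_one ha
  have hc := mul_conj_one ha
  have e1 : fderiv ℝ v (a * z) 1 = a ^ b * fderiv ℝ v z ((starRingEnd ℂ) a) := by
    have := cl_fd h ha z ((starRingEnd ℂ) a)
    rwa [hc] at this
  have e2 : fderiv ℝ v (a * z) Complex.I = a ^ b * fderiv ℝ v z ((starRingEnd ℂ) a * Complex.I) := by
    have := cl_fd h ha z ((starRingEnd ℂ) a * Complex.I)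
    rwa [← mul_assoc, hc, one_mul] at this
  rw [e1, e2, lin_conj, lin_conjI, zpow_add_one₀ ha0]
  have e3 : a ^ b * a = a ^ b * ((a.re : ℂ) + a.im * Complex.I) := by rw [Complex.re_add_im]
  rw [e3]
  linear_combination (-(1 / 2) * a ^ b * a.im * fderiv ℝ v z Complex.I) * Complex.I_sq

theorem cl_dd {b : ℤ} {v : 𝓢(ℂ, ℂ)} (h : Cl b v) : Cl (b - 1) (dd v) := by
  intro a z ha
  rw [dd_apply, dd_apply]
  have ha0 := ne_zero_one ha
  have hc := mul_conj_one ha
  have e1 : fderiv ℝ v (a * z) 1 = a ^ b * fderiv ℝ v z ((starRingEnd ℂ) a) := by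
    have := cl_fd h ha z ((starRingEnd ℂ) a)
    rwa [hc] at this
  have e2 : fderiv ℝ v (a * z) Complex.I = a ^ b * fderiv ℝ v z ((starRingEnd ℂ) a * Complex.I) := by
    have := cl_fd h ha z ((starRingEnd ℂ) a * Complex.I)
    rwa [← mul_assoc, hc, one_mul] at this
  have e4 : a⁻¹ = (a.re : ℂ) - a.im * Complex.I := by
    rw [inv_eq_of_mul_eq_one_right hc]
    apply Complex.ext <;> simp
  rw [e1, e2, lin_conj, lin_conjI, zpow_sub_one₀ ha0, e4]
  linear_combination (-(1 / 2) * a ^ b * a.im * fderiv ℝ v z Complex.I) * Complex.I_sq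

/-- the values on the positive axis -/
noncomputable def ax (v : 𝓢(ℂ, ℂ)) (x : ℝ) : ℂ := v ((Real.exp x : ℝ) : ℂ)

theorem ax_smooth (v : 𝓢(ℂ, ℂ)) : ContDiff ℝ ∞ (ax v) :=
  (v.smooth ⊤).comp (Complex.ofRealCLM.contDiff.comp Real.contDiff_exp)

theorem ax_deriv (v : 𝓢(ℂ, ℂ)) (x : ℝ) :
    HasDerivAt (ax v) ((Real.exp x : ℂ) * fderiv ℝ v ((Real.exp x : ℝ) : ℂ) 1) x := by
  have h1 : HasDerivAt (fun x : ℝ => ((Real.exp x : ℝ) : ℂ)) ((Real.exp x : ℝ) : ℂ) x :=
    (Real.hasDerivAt_exp x).ofReal_comp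
  have h2 := (v.differentiable (((Real.exp x : ℝ) : ℂ))).hasFDerivAt.comp_hasDerivAt x h1
  refine h2.congr_deriv ?_
  have e : ((Real.exp x : ℝ) : ℂ) = (Real.exp x) • (1 : ℂ) := by simp
  nth_rw 2 [e]
  rw [map_smul, Complex.real_smul]

theorem ang_deriv {b : ℤ} {v : 𝓢(ℂ, ℂ)} (h : Cl b v) (x : ℝ) :
    (Real.exp x : ℂ) * fderiv ℝ v ((Real.exp x : ℝ) : ℂ) Complex.I = Complex.I * b * ax v x := by
  set r : ℂ := ((Real.exp x : ℝ) : ℂ) with hr
  have h0 : HasDerivAt (fun θ : ℝ => Complex.exp ((θ : ℂ) * Complex.I)) Complex.I 0 := by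
    have h1 : HasDerivAt (fun θ : ℝ => (θ : ℂ) * Complex.I) (1 * Complex.I) 0 :=
      (Complex.ofRealCLM.hasDerivAt).mul_const Complex.I
    refine h1.cexp.congr_deriv ?_
    simp
  have h1 : HasDerivAt (fun θ : ℝ => Complex.exp ((θ : ℂ) * Complex.I) * r) (Complex.I * r) 0 :=
    h0.mul_const r
  have hd : HasFDerivAt v (fderiv ℝ v r) ((fun θ : ℝ => Complex.exp ((θ : ℂ) * Complex.I) * r) 0) := by
    have e : (fun θ : ℝ => Complex.exp ((θ : ℂ) * Complex.I) * r) 0 = r := by simp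
    rw [e]
    exact (v.differentiable r).hasFDerivAt
  have h2 := hd.comp_hasDerivAt (0 : ℝ) h1
  have h3 : HasDerivAt (fun θ : ℝ => Complex.exp ((b : ℂ) * ((θ : ℂ) * Complex.I)) * v r)
      ((b * Complex.I) * v r) 0 := by
    have h4 : HasDerivAt (fun θ : ℝ => (θ : ℂ) * Complex.I) (1 * Complex.I) 0 :=
      (Complex.ofRealCLM.hasDerivAt).mul_const Complex.I
    refine (((h4.const_mul (b : ℂ)).cexp).mul_const (v r)).congr_deriv ?_
    simp
  have h5 : (⇑v ∘ fun θ : ℝ => Complex.exp ((θ : ℂ) * Complex.I) * r) =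
      fun θ : ℝ => Complex.exp ((b : ℂ) * ((θ : ℂ) * Complex.I)) * v r := by
    funext θ
    rw [Function.comp_apply, h _ _ (Complex.norm_exp_ofReal_mul_I θ), Complex.exp_int_mul]
  rw [h5] at h2
  have h6 := h2.unique h3
  have e : Complex.I * r = (Real.exp x) • Complex.I := by
    rw [hr, Complex.real_smul, mul_comm]
  rw [e, map_smul, Complex.real_smul] at h6
  rw [h6]
  unfold ax
  ring

theorem db_ax {b : ℤ} {v : 𝓢(ℂ, ℂ)} (h : Cl b v) (c x : ℝ) :
    (Real.exp ((c + 1) * x) : ℂ) * ax (db v) x = 1 / 2 *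
      (deriv (fun x : ℝ => (Real.exp (c * x) : ℂ) * ax v x) x -
        (b + c) * ((Real.exp (c * x) : ℂ) * ax v x)) := by
  have h1 : HasDerivAt (fun x : ℝ => (Real.exp (c * x) : ℂ)) ((Real.exp (c * x) * c : ℝ) : ℂ) x := by
    have : HasDerivAt (fun x : ℝ => Real.exp (c * x)) (Real.exp (c * x) * c) x := by
      have h2 : HasDerivAt (fun x : ℝ => c * x) c x := by simpa using (hasDerivAt_id x).const_mul c
      exact h2.exp
    exact this.ofReal_comp
  have h3 : HasDerivAt (fun x : ℝ => (Real.exp (c * x) : ℂ) * ax v x) _ x := h1.mul (ax_deriv v x)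
  rw [h3.deriv]
  have h2 := ang_deriv h x
  unfold ax
  rw [db_apply]
  have e : Real.exp ((c + 1) * x) = Real.exp (c * x) * Real.exp x := by
    rw [← Real.exp_add]
    congr 1
    ring
  rw [e]
  unfold ax at h2
  push_cast at h2 ⊢
  linear_combination (1 / 2 * Complex.exp (c * x) * Complex.I) * h2 +
    (1 / 2 * Complex.exp (c * x) * b * v (Complex.exp x)) * Complex.I_sq

theorem dd_ax {b : ℤ} {v : 𝓢(ℂ, ℂ)} (h : Cl b v) (c x : ℝ) :
    (Real.exp ((c + 1) * x) : ℂ) * ax (dd v) x = 1 / 2 *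
      (deriv (fun x : ℝ => (Real.exp (c * x) : ℂ) * ax v x) x +
        (b - c) * ((Real.exp (c * x) : ℂ) * ax v x)) := by
  have h1 : HasDerivAt (fun x : ℝ => (Real.exp (c * x) : ℂ)) ((Real.exp (c * x) * c : ℝ) : ℂ) x := by
    have : HasDerivAt (fun x : ℝ => Real.exp (c * x)) (Real.exp (c * x) * c) x := by
      have h2 : HasDerivAt (fun x : ℝ => c * x) c x := by simpa using (hasDerivAt_id x).const_mul c
      exact h2.exp
    exact this.ofReal_comp
  have h3 : HasDerivAt (fun x : ℝ => (Real.exp (c * x) : ℂ) * ax v x) _ x := h1.mul (ax_deriv v x)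
  rw [h3.deriv]
  have h2 := ang_deriv h x
  unfold ax
  rw [dd_apply]
  have e : Real.exp ((c + 1) * x) = Real.exp (c * x) * Real.exp x := by
    rw [← Real.exp_add]
    congr 1
    ring
  rw [e]
  unfold ax at h2
  push_cast at h2 ⊢
  linear_combination (-(1 / 2) * Complex.exp (c * x) * Complex.I) * h2 -
    (1 / 2 * Complex.exp (c * x) * b * v (Complex.exp x)) * Complex.I_sq

end Pool.Agent.D0H14.BC
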