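import Pool.Agent.D0H14.BC.Rep

/-! The representation of `T ^ n` on the angular modes, continued. -/

set_option autoImplicit false

open MeasureTheory Set Filter
open Polynomial (C X)
open scoped SchwartzMap ContDiff

namespace Pool.Agent.D0H14.BC

open Pool.Agent.Y282.RB (Tn)
open Pool.Agent.Y282.RB.A2 (db dd db_apply dd_apply db_iter Tn_db)

theorem W0_smooth (c : ℝ) (u : 𝓢(ℂ, ℂ)) : ContDiff ℝ ∞ (fun x : ℝ => (Real.exp (c * x) : ℂ) * ax u x) :=
  (Complex.ofRealCLM.contDiff.comp (Real.contDiff_exp.comp (contDiff_const.mul contDiff_id))).mul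
    (ax_smooth u)

theorem out_db (n : ℕ) {a : ℤ} {u : 𝓢(ℂ, ℂ)} (hu : Cl a u) (j : ℕ) :
    Cl (a + j) (db^[j] u) ∧ ∀ x : ℝ, (Real.exp (((j : ℝ) - n) * x) : ℂ) * ax (db^[j] u) x =
      (-1 / 2) ^ j * opS (PP (Finset.range j) (nd ((a : ℝ) - n)))
        (fun x : ℝ => (Real.exp ((-(n : ℝ)) * x) : ℂ) * ax u x) x := by
  induction j with
  | zero =>
    refine ⟨by simpa using hu, fun x => ?_⟩
    have : PP (Finset.range 0) (nd ((a : ℝ) - n)) = 1 := by simp [PP]
    rw [this, opS_one]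
    simp
  | succ j ih =>
    obtain ⟨ih1, ih2⟩ := ih
    refine ⟨?_, fun x => ?_⟩
    · rw [Function.iterate_succ_apply']
      have := cl_db ih1
      rw [add_assoc] at this
      exact_mod_cast this
    · set W : ℝ → ℂ := fun x : ℝ => (Real.exp ((-(n : ℝ)) * x) : ℂ) * ax u x with hW
      have hWs : ContDiff ℝ ∞ W := W0_smooth _ u
      have h1 := db_ax ih1 ((j : ℝ) - n) x
      have h2 : (fun x : ℝ => (Real.exp (((j : ℝ) - n) * x) : ℂ) * ax (db^[j] u) x) =
          fun x => (-1 / 2) ^ j * opS (PP (Finset.range j) (nd ((a : ℝ) - n))) W x := funext ih2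
      rw [h2, ih2 x] at h1
      have h3 : PP (Finset.range (j + 1)) (nd ((a : ℝ) - n)) =
          (X + C (nd ((a : ℝ) - n) j)) * PP (Finset.range j) (nd ((a : ℝ) - n)) := by
        unfold PP
        rw [Finset.prod_range_succ, mul_comm]
      have h4 : HasDerivAt (fun x => (-1 / 2 : ℂ) ^ j * opS (PP (Finset.range j) (nd ((a : ℝ) - n))) W x)
          ((-1 / 2 : ℂ) ^ j * deriv (opS (PP (Finset.range j) (nd ((a : ℝ) - n))) W) x) x :=
        (((opS_smooth hWs _).differentiable (by norm_num) x).hasDerivAt).const_mul _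
      rw [h4.deriv] at h1
      rw [Function.iterate_succ_apply', h3, opS_lin hWs]
      have e : ((j + 1 : ℕ) : ℝ) - n = (j : ℝ) - n + 1 := by push_cast; ring
      rw [e, h1]
      unfold nd
      push_cast
      ring

theorem out_dd (n : ℕ) {a : ℤ} {u : 𝓢(ℂ, ℂ)} (hu : Cl a u) (j : ℕ) (hj : j ≤ n) :
    Cl (a - j) (dd^[j] u) ∧ ∀ x : ℝ, (Real.exp (((j : ℝ) - n) * x) : ℂ) * ax (dd^[j] u) x =
      (-1 / 2) ^ j * opS (∏ i ∈ Finset.range j, (X - C (nd ((a : ℝ) - n) (n - i))))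
        (fun x : ℝ => (Real.exp ((-(n : ℝ)) * x) : ℂ) * ax u x) x := by
  induction j with
  | zero =>
    refine ⟨by simpa using hu, fun x => ?_⟩
    rw [Finset.prod_range_zero, opS_one]
    simp
  | succ j ih =>
    obtain ⟨ih1, ih2⟩ := ih (by omega)
    refine ⟨?_, fun x => ?_⟩
    · rw [Function.iterate_succ_apply']
      have := cl_dd ih1
      rw [sub_sub] at this
      exact_mod_cast this
    · set W : ℝ → ℂ := fun x : ℝ => (Real.exp ((-(n : ℝ)) * x) : ℂ) * ax u x with hW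
      have hWs : ContDiff ℝ ∞ W := W0_smooth _ u
      have h1 := dd_ax ih1 ((j : ℝ) - n) x
      set P := ∏ i ∈ Finset.range j, (X - C (nd ((a : ℝ) - n) (n - i))) with hP
      have h2 : (fun x : ℝ => (Real.exp (((j : ℝ) - n) * x) : ℂ) * ax (dd^[j] u) x) =
          fun x => (-1 / 2) ^ j * opS P W x := funext ih2
      rw [h2, ih2 x] at h1
      have h3 : ∏ i ∈ Finset.range (j + 1), (X - C (nd ((a : ℝ) - n) (n - i))) =
          (X + C (-nd ((a : ℝ) - n) (n - j))) * P := by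
        rw [Finset.prod_range_succ, mul_comm, Polynomial.C_neg, ← sub_eq_add_neg]
      have h4 : HasDerivAt (fun x => (-1 / 2 : ℂ) ^ j * opS P W x)
          ((-1 / 2 : ℂ) ^ j * deriv (opS P W) x) x :=
        (((opS_smooth hWs _).differentiable (by norm_num) x).hasDerivAt).const_mul _
      rw [h4.deriv] at h1
      rw [Function.iterate_succ_apply', h3, opS_lin hWs]
      have e : ((j + 1 : ℕ) : ℝ) - n = (j : ℝ) - n + 1 := by push_cast; ring
      rw [e, h1]
      unfold nd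
      rw [Nat.cast_sub (by omega)]
      push_cast
      ring

theorem prod_QN (n : ℕ) (k : ℝ) : ∏ i ∈ Finset.range n, (X - C (nd k (n - i))) =
    QN (Finset.Ico 1 (n + 1)) (nd k) := by
  unfold QN
  rw [Finset.prod_Ico_eq_prod_range, Nat.add_sub_cancel,
    ← Finset.prod_range_reflect (fun i => X - C (nd k (1 + i)))]
  refine Finset.prod_congr rfl fun i hi => ?_
  rw [Finset.mem_range] at hi
  have : 1 + (n - 1 - i) = n - i := by omega
  rw [this]

/-- the primitive -/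
theorem ex_u {n m : ℕ} (hnm : n ≤ m) {f : 𝓢(ℂ, ℂ)} (hf : Cl m f) (hA : Ann f) :
    ∃ u : 𝓢(ℂ, ℂ), db^[n] u = f ∧ Cl ((m : ℤ) - n) u ∧ ∃ R : ℝ, ∀ x, R < x → ax u x = 0 := by
  obtain ⟨hc, r, hr, hz⟩ := hA
  obtain ⟨R, hR⟩ : ∃ R : ℝ, 0 < R ∧ ∀ z : ℂ, R ≤ ‖z‖ → f z = 0 := by
    obtain ⟨R, hR⟩ := hc.isCompact.isBounded.subset_closedBall 0
    refine ⟨max R 0 + 1, by positivity, fun z hz => ?_⟩
    by_contra h
    have h1 : z ∈ tsupport f := subset_tsupport f (Function.mem_support.2 h)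
    have h2 := hR h1
    rw [mem_closedBall_zero_iff] at h2
    have := le_max_left R 0
    linarith
  obtain ⟨hR0, hR⟩ := hR
  obtain ⟨g, hg⟩ : ∃ g : ℝ → ℂ, g = fun x => f ((√x : ℝ) : ℂ) * ((((√x : ℝ) : ℂ)) ^ m)⁻¹ := ⟨_, rfl⟩
  have hgs : ContDiff ℝ ∞ g := by
    rw [contDiff_iff_contDiffAt]
    intro x
    rcases lt_or_ge x (r ^ 2) with hx | hx
    · refine (contDiffAt_const (c := (0 : ℂ))).congr_of_eventuallyEq ?_
      filter_upwards [Iio_mem_nhds hx] with y hy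
      rw [hg]
      simp only
      rw [hz, zero_mul]
      rw [Complex.norm_real, Real.norm_of_nonneg (Real.sqrt_nonneg _)]
      exact Real.sqrt_le_iff.2 ⟨hr.le, (le_of_lt hy)⟩
    · have hx0 : 0 < x := by
        have : 0 < r ^ 2 := by positivity
        linarith
      have e1 : ContDiffAt ℝ ∞ (fun x : ℝ => ((√x : ℝ) : ℂ)) x :=
        Complex.ofRealCLM.contDiff.contDiffAt.comp x (Real.contDiffAt_sqrt hx0.ne')
      rw [hg]
      refine ContDiffAt.mul ?_ (ContDiffAt.inv (e1.pow m) ?_)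
      · exact ((f.smooth ⊤).contDiffAt).comp x e1
      · exact pow_ne_zero _ (Complex.ofReal_ne_zero.2 (Real.sqrt_pos.2 hx0).ne')
  have hgR : ∀ x, R ^ 2 ≤ x → g x = 0 := by
    intro x hx
    rw [hg]
    simp only
    rw [hR, zero_mul]
    rw [Complex.norm_real, Real.norm_of_nonneg (Real.sqrt_nonneg _)]
    exact Real.le_sqrt_of_sq_le hx
  obtain ⟨h, hh, hhR, hhg⟩ := Pool.Agent.Y282.RB.A1.key n (R ^ 2) g hgs hgR
  obtain ⟨a, rfl⟩ : ∃ a, m = a + n := ⟨m - n, by omega⟩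
  have hs : ContDiff ℝ ∞ (fun z : ℂ => z ^ a * h (Complex.normSq z)) := by
    have h1 : ContDiff ℝ ∞ (Complex.normSq : ℂ → ℝ) := by
      have e : (Complex.normSq : ℂ → ℝ) = fun z => z.re * z.re + z.im * z.im := by
        funext z
        exact Complex.normSq_apply z
      rw [e]
      exact (Complex.reCLM.contDiff.mul Complex.reCLM.contDiff).add
        (Complex.imCLM.contDiff.mul Complex.imCLM.contDiff)
    exact (contDiff_id.pow a).mul (hh.comp h1)
  have hcu : HasCompactSupport (fun z : ℂ => z ^ a * h (Complex.normSq z)) := by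
    refine HasCompactSupport.intro (isCompact_closedBall (0 : ℂ) R) fun w hw => ?_
    rw [Metric.mem_closedBall, dist_zero_right, not_le] at hw
    have h1 : R ^ 2 ≤ Complex.normSq w := by
      rw [Complex.normSq_eq_norm_sq]
      nlinarith
    rw [hhR _ h1, mul_zero]
  obtain ⟨u, hu⟩ : ∃ u : 𝓢(ℂ, ℂ), ∀ z, u z = z ^ a * h (Complex.normSq z) :=
    ⟨hcu.toSchwartzMap hs, fun z => rfl⟩
  refine ⟨u, ?_, ?_, R, fun x hx => ?_⟩
  · ext z
    rw [db_iter hh hu n z, hhg, hg]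
    simp only
    have h2 : √(Complex.normSq z) = ‖z‖ := rfl
    rw [h2]
    by_cases hz0 : z = 0
    · subst hz0
      rw [norm_zero, Complex.ofReal_zero, hz 0 (by rw [norm_zero]; exact hr.le)]
      simp
    · have hn : (‖z‖ : ℂ) ≠ 0 := Complex.ofReal_ne_zero.2 (norm_ne_zero_iff.2 hz0)
      have ha : ‖z / (‖z‖ : ℂ)‖ = 1 := by
        rw [norm_div, Complex.norm_real, norm_norm]
        exact div_self (norm_ne_zero_iff.2 hz0)
      have h3 := hf (z / (‖z‖ : ℂ)) (‖z‖ : ℂ) ha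
      rw [div_mul_cancel₀ _ hn, zpow_natCast, div_pow] at h3
      rw [h3]
      field_simp
  · intro c z hc1
    rw [hu, hu]
    have e : Complex.normSq (c * z) = Complex.normSq z := by
      rw [map_mul, Complex.normSq_eq_norm_sq c, hc1]
      ring
    have e2 : ((a + n : ℕ) : ℤ) - n = (a : ℤ) := by push_cast; ring
    rw [e, e2, zpow_natCast, mul_pow]
    ring
  · unfold ax
    rw [hu, hhR, mul_zero]
    rw [Complex.normSq_ofReal]
    have h1 : R < Real.exp x := by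
      have := Real.add_one_le_exp x
      linarith
    nlinarith

/-- the general formula -/
theorem out_gen {n m : ℕ} (hnm : n ≤ m) {S : Finset ℕ} {κ a : ℕ → ℝ} {Z P Q : Polynomial ℝ}
    {Pj : ℕ → Polynomial ℝ} (hP : PP (Finset.range n) (nd ((m : ℝ) - 2 * n)) = Z * P)
    (hQ : QN (Finset.Ico 1 (n + 1)) (nd ((m : ℝ) - 2 * n)) = Z * Q)
    (h1 : ∀ j ∈ S, (X + C (a j)) * Pj j = P) (h2 : Q = P - ∑ j ∈ S, C (κ j) * Pj j)
    {f : 𝓢(ℂ, ℂ)} (hf : Cl m f) (hA : Ann f) :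
    (∃ F : 𝓢(ℂ, ℂ), Tn n f = F ∧ Cl ((m : ℤ) - 2 * n) F) ∧ ∀ x : ℝ,
      Tn n f ((Real.exp x : ℝ) : ℂ) = f ((Real.exp x : ℝ) : ℂ) -
        ∫ y in Ioi (0 : ℝ), (eN' S κ a y : ℂ) * f ((Real.exp (x + y) : ℝ) : ℂ) := by
  obtain ⟨u, hu1, hu2, R, hu3⟩ := ex_u hnm hf hA
  have hk : (((m : ℤ) - n : ℤ) : ℝ) - n = (m : ℝ) - 2 * n := by push_cast; ring
  have hT : Tn n f = dd^[n] u := by
    funext z
    rw [← hu1, Tn_db]
  obtain ⟨d1, d2⟩ := out_dd n hu2 n le_rfl
  obtain ⟨b1, b2⟩ := out_db n hu2 n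
  rw [hu1] at b2
  rw [prod_QN] at d2
  rw [hk] at b2 d2
  set W : ℝ → ℂ := fun x : ℝ => (Real.exp ((-(n : ℝ)) * x) : ℂ) * ax u x with hW
  have hWs : ContDiff ℝ ∞ W := W0_smooth _ u
  have hWR : ∀ x, R < x → W x = 0 := by
    intro x hx
    rw [hW]
    simp only
    rw [hu3 x hx, mul_zero]
  refine ⟨⟨dd^[n] u, hT, ?_⟩, fun x => ?_⟩
  · have : (m : ℤ) - n - n = (m : ℤ) - 2 * n := by ring
    rw [← this]
    exact d1
  · have e0 : ∀ x : ℝ, (Real.exp (((n : ℝ) - n) * x) : ℂ) = 1 := by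
      intro x
      rw [sub_self, zero_mul, Real.exp_zero, Complex.ofReal_one]
    have b3 : ∀ x : ℝ, f ((Real.exp x : ℝ) : ℂ) = (-1 / 2) ^ n * opS (Z * P) W x := by
      intro x
      have := b2 x
      rw [e0, one_mul, hP] at this
      exact this
    have d3 : Tn n f ((Real.exp x : ℝ) : ℂ) = (-1 / 2) ^ n * opS (Z * Q) W x := by
      have := d2 x
      rw [e0, one_mul, hQ] at this
      rw [hT]
      exact this
    obtain ⟨o1, o2⟩ := outward (S := S) (κ := κ) (a := a) (P := Z * P) (Q := Z * Q)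
      (Pj := fun j => Z * Pj j) (fun j hj => by rw [← h1 j hj]; ring)
      (by rw [h2, mul_sub, Finset.mul_sum]; congr 1; exact Finset.sum_congr rfl fun j _ => by ring)
      hWs hWR x
    rw [d3, o2, b3 x, mul_sub]
    congr 1
    rw [← integral_const_mul]
    refine setIntegral_congr_fun measurableSet_Ioi fun y _ => ?_
    rw [b3 (x + y)]
    ring

end Pool.Agent.D0H14.BC
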