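import Pool.Agent.D0H14.BC.Rep2
import Pool.Agent.D0H14.BC.KerF

/-! The kernels for all angular modes `m ≥ n`. -/

set_option autoImplicit false

open MeasureTheory Set Filter
open Polynomial (C X)
open scoped SchwartzMap ContDiff

namespace Pool.Agent.D0H14.BC

open Pool.Agent.Y282.RB (Tn)

theorem split_PP (j n' : ℕ) : PP (Finset.range (j + n')) (nd (-(j : ℝ))) =
    PP (Finset.range j) (nd (-(j : ℝ))) * PP (Finset.range n') (nd j) := by
  unfold PP
  rw [Finset.prod_range_add]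
  congr 1
  refine Finset.prod_congr rfl fun i _ => ?_
  congr 2
  unfold nd
  push_cast
  ring

theorem split_QN (j n' : ℕ) : QN (Finset.Ico 1 (j + n' + 1)) (nd (-(j : ℝ))) =
    PP (Finset.range j) (nd (-(j : ℝ))) * QN (Finset.Ico 1 (n' + 1)) (nd j) := by
  unfold PP QN
  rw [Finset.prod_Ico_eq_prod_range, Finset.prod_Ico_eq_prod_range, Nat.add_sub_cancel,
    Nat.add_sub_cancel, Finset.prod_range_add]
  congr 1
  · rw [← Finset.prod_range_reflect (fun i => X + C (nd (-(j : ℝ)) i))]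
    refine Finset.prod_congr rfl fun i hi => ?_
    rw [Finset.mem_range] at hi
    rw [sub_eq_add_neg, ← Polynomial.C_neg]
    congr 2
    unfold nd
    rw [Nat.sub_sub, Nat.cast_sub (by omega)]
    push_cast
    ring
  · refine Finset.prod_congr rfl fun i _ => ?_
    congr 2
    unfold nd
    push_cast
    ring

theorem QN_top (n : ℕ) (hn : 1 ≤ n) (k : ℝ) :
    QN (Finset.Ico 1 (n + 1)) (nd k) = (X - C (nd k n)) * QN (Finset.Ico 1 n) (nd k) := by
  unfold QN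
  rw [Finset.prod_Ico_succ_top hn, mul_comm]

theorem erase_PP {S : Finset ℕ} {a : ℕ → ℝ} {j : ℕ} (hj : j ∈ S) :
    (X + C (a j)) * PP (S.erase j) a = PP S a :=
  Finset.mul_prod_erase S (fun l => X + C (a l)) hj

theorem nd_pos {k : ℝ} (hk : 0 < k) (j : ℕ) : 0 < nd k j := by
  unfold nd
  positivity

theorem hh_nonneg (n : ℕ) : 0 ≤ hh n := by
  unfold hh
  positivity

/-- the modes `m ≥ n`, `m ≠ 2 n` -/
theorem outA (n m : ℕ) (hn : 1 ≤ n) (hnm : n ≤ m) (hm : m ≠ 2 * n) : ∃ κ : ℝ → ℝ,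
    Continuous κ ∧ IntegrableOn κ (Ioi 0) ∧ 1 + ∫ y in Ioi (0 : ℝ), |κ y| ≤ Real.exp (hh n) ∧
    ∀ f : 𝓢(ℂ, ℂ), Cl m f → Ann f →
      (∃ F : 𝓢(ℂ, ℂ), Tn n f = F ∧ Cl ((m : ℤ) - 2 * n) F) ∧ ∀ x : ℝ,
      Tn n f ((Real.exp x : ℝ) : ℂ) = f ((Real.exp x : ℝ) : ℂ) -
        ∫ y in Ioi (0 : ℝ), (κ y : ℂ) * f ((Real.exp (x + y) : ℝ) : ℂ) := by
  rcases lt_or_ge (2 * n) m with h | h
  · have hk : (1 : ℝ) ≤ (m : ℝ) - 2 * n := by
      have : ((2 * n + 1 : ℕ) : ℝ) ≤ m := by exact_mod_cast h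
      push_cast at this
      linarith
    obtain ⟨κ, h1, h2⟩ := kerA n hn _ hk
    refine ⟨eN (Finset.range n) κ (nd ((m : ℝ) - 2 * n)), eN_cont _ _ _,
      eN_int _ fun j _ => nd_pos (by linarith) j, h2.trans (BB_le n hn), fun f hf hA => ?_⟩
    exact out_gen hnm (Z := 1) (by rw [one_mul]) (by rw [one_mul])
      (fun j hj => erase_PP hj) (by rw [QN_top n hn]; exact h1) hf hA
  · obtain ⟨j, n', h3, h4, h5⟩ : ∃ j n' : ℕ, n = j + n' ∧ m + j = 2 * n ∧ 1 ≤ j :=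
      ⟨2 * n - m, n - (2 * n - m), by omega, by omega, by omega⟩
    have hk : (m : ℝ) - 2 * n = -(j : ℝ) := by
      have : (m : ℝ) + j = 2 * n := by exact_mod_cast h4
      linarith
    have hZP := split_PP j n'
    have hZQ := split_QN j n'
    rw [← h3, ← hk] at hZP hZQ
    rcases Nat.eq_zero_or_pos n' with h0 | h0
    · refine ⟨fun _ => 0, continuous_const, integrableOn_zero, ?_, fun f hf hA => ?_⟩
      · simpa using hh_nonneg n
      · have hP1 : PP (Finset.range n') (nd j) = 1 := by rw [h0]; simp [PP]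
        have hQ1 : QN (Finset.Ico 1 (n' + 1)) (nd j) = 1 := by rw [h0]; simp [QN]
        obtain ⟨o1, o2⟩ := out_gen hnm (S := ∅) (κ := fun _ => 0) (a := fun _ => 0)
          (Pj := fun _ => 0) hZP hZQ (by simp) (by rw [hP1, hQ1]; simp) hf hA
        refine ⟨o1, fun x => ?_⟩
        rw [o2 x]
        simp [eN']
    · have hj : (1 : ℝ) ≤ j := by exact_mod_cast h5
      obtain ⟨κ, h1, h2⟩ := kerA n' h0 _ hj
      refine ⟨eN (Finset.range n') κ (nd j), eN_cont _ _ _,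
        eN_int _ fun i _ => nd_pos (by linarith) i,
        (h2.trans (BB_le n' h0)).trans (Real.exp_le_exp.2 (hh_mono (by omega))), fun f hf hA => ?_⟩
      exact out_gen hnm hZP hZQ (fun i hi => erase_PP hi) (by rw [QN_top n' h0]; exact h1) hf hA

theorem comp_PP (n : ℕ) (k : ℝ) : (PP (Finset.Ico 1 (n + 1)) (nd k)).comp (X - C 2) =
    PP (Finset.range n) (nd k) := by
  unfold PP
  rw [Polynomial.prod_comp, Finset.prod_Ico_eq_prod_range, Nat.add_sub_cancel]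
  refine Finset.prod_congr rfl fun i _ => ?_
  rw [Polynomial.add_comp, Polynomial.X_comp, Polynomial.C_comp, sub_add_eq_add_sub, add_sub_assoc,
    ← Polynomial.C_sub]
  congr 2
  unfold nd
  push_cast
  ring

theorem comp_QN (n : ℕ) (hn : 1 ≤ n) (k : ℝ) :
    ((X - C (nd k 0)) * QN (Finset.Ico 1 n) (nd k)).comp (X - C 2) =
    QN (Finset.Ico 1 (n + 1)) (nd k) := by
  have h0 : (X - C (nd k 0)) * QN (Finset.Ico 1 n) (nd k) = ∏ i ∈ Finset.range n, (X - C (nd k i)) := by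
    unfold QN
    rw [Finset.range_eq_Ico,
      Finset.prod_eq_prod_Ico_succ_bot (show 0 < n by omega) fun i => X - C (nd k i)]
  rw [h0]
  unfold QN
  rw [Polynomial.prod_comp, Finset.prod_Ico_eq_prod_range, Nat.add_sub_cancel]
  refine Finset.prod_congr rfl fun i _ => ?_
  rw [Polynomial.sub_comp, Polynomial.X_comp, Polynomial.C_comp, sub_sub, ← Polynomial.C_add]
  congr 2
  unfold nd
  push_cast
  ring

theorem kerB' (n : ℕ) (hn : 1 ≤ n) (k : ℝ) (hk : 0 ≤ k) : ∃ (κ : ℕ → ℝ) (Pj : ℕ → Polynomial ℝ),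
    (∀ j ∈ Finset.Ico 1 (n + 1), (X + C (nd k j - 2)) * Pj j = PP (Finset.range n) (nd k)) ∧
    QN (Finset.Ico 1 (n + 1)) (nd k) = PP (Finset.range n) (nd k) -
      ∑ j ∈ Finset.Ico 1 (n + 1), C (κ j) * Pj j ∧
    1 + ∫ y in Ioi (0 : ℝ), |eN (Finset.Ico 1 (n + 1)) κ (nd k) y| ≤ BB n := by
  obtain ⟨κ, h1, h2⟩ := kerB n hn k hk
  refine ⟨κ, fun j => (PP ((Finset.Ico 1 (n + 1)).erase j) (nd k)).comp (X - C 2), ?_, ?_, h2⟩
  · intro j hj
    rw [← comp_PP, ← erase_PP hj, Polynomial.mul_comp, Polynomial.add_comp, Polynomial.X_comp,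
      Polynomial.C_comp, Polynomial.C_sub]
    congr 1
    ring
  · have h3 := congrArg (fun P : Polynomial ℝ => P.comp (X - C 2)) h1
    rw [comp_QN n hn, Polynomial.sub_comp, comp_PP, Polynomial.sum_comp] at h3
    rw [h3]
    congr 1
    refine Finset.sum_congr rfl fun j _ => ?_
    rw [Polynomial.mul_comp, Polynomial.C_comp]

theorem eN_shift (S : Finset ℕ) (κ a : ℕ → ℝ) (y : ℝ) :
    eN' S κ (fun j => a j - 2) y = eN S κ a y * Real.exp (2 * y) := by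
  unfold eN' eN
  rw [Finset.sum_mul]
  refine Finset.sum_congr rfl fun j _ => ?_
  rw [mul_assoc, ← Real.exp_add]
  congr 2
  ring

/-- the modes `m > n`, `m ≠ 2 n`, the second kernel bound -/
theorem outB (n m : ℕ) (hn : 1 ≤ n) (hnm : n < m) : ∃ κ : ℝ → ℝ,
    Continuous κ ∧ IntegrableOn κ (Ioi 0) ∧ 1 + ∫ y in Ioi (0 : ℝ), |κ y| ≤ Real.exp (hh n) ∧
    ∀ f : 𝓢(ℂ, ℂ), Cl m f → Ann f →
      (∃ F : 𝓢(ℂ, ℂ), Tn n f = F ∧ Cl ((m : ℤ) - 2 * n) F) ∧ ∀ x : ℝ,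
      Tn n f ((Real.exp x : ℝ) : ℂ) = f ((Real.exp x : ℝ) : ℂ) -
        ∫ y in Ioi (0 : ℝ), ((κ y * Real.exp (2 * y) : ℝ) : ℂ) * f ((Real.exp (x + y) : ℝ) : ℂ) := by
  rcases le_or_gt (2 * n) m with h | h
  · have hk : (0 : ℝ) ≤ (m : ℝ) - 2 * n := by
      have : ((2 * n : ℕ) : ℝ) ≤ m := by exact_mod_cast h
      push_cast at this
      linarith
    obtain ⟨κ, Pj, h1, h2, h3⟩ := kerB' n hn _ hk
    refine ⟨eN (Finset.Ico 1 (n + 1)) κ (nd ((m : ℝ) - 2 * n)), eN_cont _ _ _,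
      eN_int _ fun j hj => ?_, h3.trans (BB_le n hn), fun f hf hA => ?_⟩
    · have : (1 : ℝ) ≤ j := by exact_mod_cast (Finset.mem_Ico.1 hj).1
      unfold nd
      linarith
    · have key := out_gen (hnm.le) (Z := 1) (a := fun j => nd ((m : ℝ) - 2 * n) j - 2)
        (κ := κ) (by rw [one_mul]) (by rw [one_mul]) h1 h2 hf hA
      simpa only [eN_shift] using key
  · obtain ⟨j, n', h3, h4, h5, h6⟩ : ∃ j n' : ℕ, n = j + n' ∧ m + j = 2 * n ∧ 1 ≤ j ∧ 1 ≤ n' :=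
      ⟨2 * n - m, n - (2 * n - m), by omega, by omega, by omega, by omega⟩
    have hk : (m : ℝ) - 2 * n = -(j : ℝ) := by
      have : (m : ℝ) + j = 2 * n := by exact_mod_cast h4
      linarith
    have hZP := split_PP j n'
    have hZQ := split_QN j n'
    rw [← h3, ← hk] at hZP hZQ
    have hj : (1 : ℝ) ≤ j := by exact_mod_cast h5
    obtain ⟨κ, Pj, h1, h2, h7⟩ := kerB' n' h6 (j : ℝ) (by linarith)
    refine ⟨eN (Finset.Ico 1 (n' + 1)) κ (nd j), eN_cont _ _ _,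
      eN_int _ fun i _ => nd_pos (by linarith) i,
      (h7.trans (BB_le n' h6)).trans (Real.exp_le_exp.2 (hh_mono (by omega))), fun f hf hA => ?_⟩
    have key := out_gen (hnm.le) (a := fun i => nd (j : ℝ) i - 2) (κ := κ) hZP hZQ h1 h2 hf hA
    simpa only [eN_shift] using key

end Pool.Agent.D0H14.BC
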